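import Mathlib

/-! Statement-level definitions: surface patches, cells and vertices of an arrangement. -/

namespace Pool.Agent.Work.MP_8a5de9_co

open MvPolynomial

/-- The inverse Ackermann function: the least `k` with `n ≤ ack k k`. -/
noncomputable def invAck (n : ℕ) : ℕ := sInf {k | n ≤ ack k k}

variable {d : ℕ} {ι : Type}

/-- The surface patch `p = 0`, `q ≥ 0`. -/
def patch (p q : MvPolynomial (Fin d) ℝ) : Set (Fin d → ℝ) := {x | eval x p = 0 ∧ 0 ≤ eval x q}

/-- The differential of the polynomial function `p` at `x`. -/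
noncomputable def diff (p : MvPolynomial (Fin d) ℝ) (x : Fin d → ℝ) : (Fin d → ℝ) →L[ℝ] ℝ :=
  fderiv ℝ (fun y => eval y p) x

/-- The patch has a point off its boundary at which the hypersurface is smooth. -/
def IsProper (p q : MvPolynomial (Fin d) ℝ) : Prop :=
  ∃ x, eval x p = 0 ∧ 0 < eval x q ∧ diff p x ≠ 0

/-- The cell of the arrangement that contains `z`. -/
def cell (P Q : ι → MvPolynomial (Fin d) ℝ) (z : Fin d → ℝ) : Set (Fin d → ℝ) :=
  connectedComponentIn (⋃ i, patch (P i) (Q i))ᶜ z

/-- `x` lies on exactly `d` patches, off their boundaries, and they cross transversally at `x`. -/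
def IsVertex (P Q : ι → MvPolynomial (Fin d) ℝ) (x : Fin d → ℝ) : Prop :=
  ∃ φ : Fin d → ι, Function.Injective φ ∧ (∀ i, x ∈ patch (P i) (Q i) ↔ i ∈ Set.range φ) ∧
    (∀ k, 0 < eval x (Q (φ k))) ∧ LinearIndependent ℝ fun k => diff (P (φ k)) x

/-- `p'` has degree at most `b` and its coefficients differ from those of `p` by less than `ε`. -/
def Near (b : ℕ) (ε : ℝ) (p p' : MvPolynomial (Fin d) ℝ) : Prop :=
  p'.totalDegree ≤ b ∧ ∀ m, |coeff m p' - coeff m p| < ε

end Pool.Agent.Work.MP_8a5de9_co
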