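import Pool.Agent.Work.MP_8a5de9_co.LBDefs
import Mathlib

-- merged part: Pool.Agent.Work.MP_8a5de9_co.LBConf
section
-- merged part: Pool.Agent.Work.MP_8a5de9_co.LBAck
section
/-! The number of blocks of the construction and the Ackermann function. -/

namespace Pool.Agent.Work.MP_8a5de9_co

/-- The number of blocks. -/
def nB : ℕ → ℕ → ℕ
  | 0, _ => 1
  | _ + 1, 0 => 1
  | i + 1, j + 1 => nB i (nB (i + 1) j) * 2 * nB (i + 1) j

theorem nB_zero (j : ℕ) : nB 0 j = 1 := by rw [nB]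

theorem nB_succ_zero (i : ℕ) : nB (i + 1) 0 = 1 := by rw [nB]

theorem nB_succ_succ (i j : ℕ) :
    nB (i + 1) (j + 1) = nB i (nB (i + 1) j) * 2 * nB (i + 1) j := by rw [nB]

theorem nB_pos : ∀ i j, 0 < nB i j
  | 0, j => by rw [nB_zero]; exact one_pos
  | i + 1, 0 => by rw [nB_succ_zero]; exact one_pos
  | i + 1, j + 1 => by
    rw [nB_succ_succ]
    exact Nat.mul_pos (Nat.mul_pos (nB_pos i _) two_pos) (nB_pos (i + 1) j)

theorem two_mul_sq_le (z : ℕ) : z * 2 * z + 3 ≤ 2 ^ (z + 3) := by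
  induction z with
  | zero => norm_num
  | succ z ih =>
    have h : z < 2 ^ z := Nat.lt_two_pow_self
    have h2 : 2 ^ (z + 3) = 8 * 2 ^ z := by ring
    have h3 : 2 ^ (z + 1 + 3) = 2 * 2 ^ (z + 3) := by ring
    nlinarith

theorem ack_ge_sq (m z : ℕ) : z * 2 * z ≤ ack (m + 3) z := by
  have h := ack_mono_left z (show 3 ≤ m + 3 by omega)
  simp only [ack_three] at h
  have := two_mul_sq_le z
  omega

theorem ack_ge_three (m z : ℕ) : 3 * z ≤ ack (m + 3) z := by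
  have h := ack_mono_left z (show 3 ≤ m + 3 by omega)
  simp only [ack_three] at h
  have h1 : z < 2 ^ z := Nat.lt_two_pow_self
  have h2 : 2 ^ (z + 3) = 8 * 2 ^ z := by ring
  omega

theorem nB_le : ∀ i j, nB i j ≤ ack (i + 3) (3 * j)
  | 0, j => by rw [nB_zero]; exact ack_pos _ _
  | i + 1, 0 => by rw [nB_succ_zero]; exact ack_pos _ _
  | i + 1, j + 1 => by
    have h1 := nB_le (i + 1) j
    have h2 := nB_le i (nB (i + 1) j)
    rw [nB_succ_succ]
    set X := nB (i + 1) j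
    set Y := ack (i + 1 + 3) (3 * j) with hY
    have e : ack (i + 1 + 3) (3 * (j + 1)) = ack (i + 3) (ack (i + 3) (ack (i + 3) Y)) := by
      rw [show i + 1 + 3 = (i + 3) + 1 by ring, show 3 * (j + 1) = 3 * j + 1 + 1 + 1 by ring,
        ack_succ_succ, ack_succ_succ, ack_succ_succ]
    rw [e]
    set Z := ack (i + 3) (ack (i + 3) Y) with hZ
    have h3 : 3 * X ≤ ack (i + 3) Y := le_trans (by omega) (ack_ge_three i Y)
    have h4 : nB i X ≤ Z := h2.trans (ack_mono_right _ h3)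
    have h5 : X ≤ Z := by
      have := lt_ack_right (i + 3) (ack (i + 3) Y)
      omega
    exact (Nat.mul_le_mul (Nat.mul_le_mul_right 2 h4) h5).trans (ack_ge_sq i Z)

theorem two_nB_le (i : ℕ) : 2 * nB i 2 ≤ ack (i + 7) (i + 7) := by
  have h1 := nB_le i 2
  have h2 : ack (i + 3 + 1) (6 + 1) = ack (i + 3) (ack (i + 3 + 1) 6) := ack_succ_succ _ _
  have h3 := ack_ge_three i (ack (i + 3 + 1) 6)
  have h4 : ack (i + 3) (3 * 2) ≤ ack (i + 3 + 1) 6 := ack_le_ack (by omega) (by omega)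
  have h5 : ack (i + 3 + 1) (6 + 1) ≤ ack (i + 7) (i + 7) := ack_le_ack (by omega) (by omega)
  omega

theorem le_ack_invAck (n : ℕ) : n ≤ ack (invAck n) (invAck n) :=
  Nat.sInf_mem (s := {k | n ≤ ack k k}) ⟨n, (lt_ack_left n n).le⟩

theorem ack_lt_of_lt_invAck {n k : ℕ} (h : k < invAck n) : ack k k < n :=
  not_le.1 (Nat.notMem_of_lt_sInf (s := {k | n ≤ ack k k}) h)

/-- A level `i` whose construction fits into `n / D` symbols and is within a constant of the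
inverse Ackermann function. -/
theorem exists_level (D n : ℕ) (hD : 0 < D) (hn : 2 * D ≤ n) :
    ∃ i, 2 * nB i 2 ≤ n / D ∧ invAck n ≤ i + (D + 9) := by
  by_cases h : invAck n ≤ D + 9
  · refine ⟨0, ?_, by omega⟩
    rw [nB_zero, Nat.le_div_iff_mul_le hD]
    omega
  · obtain ⟨i, hi⟩ : ∃ i, invAck n = i + (D + 9) := ⟨invAck n - (D + 9), by omega⟩
    refine ⟨i, ?_, hi.le⟩
    have h1 := ack_lt_of_lt_invAck (n := n) (k := i + D + 8) (by omega)
    have h2 := two_nB_le i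
    rw [Nat.le_div_iff_mul_le hD]
    have h3 : ack (i + 7) (i + 7) ≤ ack (i + D + 8) (i + D + 7) :=
      ack_le_ack (by omega) (by omega)
    have h4 : D ≤ ack (i + D + 8) (i + D + 7) := by
      have := lt_ack_left (i + D + 8) (i + D + 7)
      omega
    have h5 : ack (i + D + 8) (i + D + 8) = ack (i + D + 4 + 3) (ack (i + D + 8) (i + D + 7)) :=
      ack_succ_succ (i + D + 7) (i + D + 7)
    have h6 := ack_ge_sq (i + D + 4) (ack (i + D + 8) (i + D + 7))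
    set Z := ack (i + D + 8) (i + D + 7)
    have h7 : 2 * nB i 2 * D ≤ Z * Z := Nat.mul_le_mul (h2.trans h3) h4
    nlinarith

end Pool.Agent.Work.MP_8a5de9_co
end

-- merged part: Pool.Agent.Work.MP_8a5de9_co.LBConf
section
/-! Families of parabolic arcs with blocks of prescribed shape: definitions, base cases and
numerical lemmas. -/

namespace Pool.Agent.Work.MP_8a5de9_co

/-- A finite family of arcs (graph of `f a` over `|x - c a| ≤ r a`) with blocks (centre `P b`,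
signed scale `ρ b`, linear part `L b`, one arc `sym b l` for each level `l`). -/
structure Conf (j : ℕ) where
  Sym : Type
  Blk : Type
  [fS : Fintype Sym]
  [fB : Fintype Blk]
  f : Sym → ℝ → ℝ
  c : Sym → ℝ
  r : Sym → ℝ
  P : Blk → ℝ
  ρ : Blk → ℝ
  L : Blk → ℝ → ℝ
  sym : Blk → Fin j → Sym

attribute [instance] Conf.fS Conf.fB

/-- The invariants of the construction. -/
structure Conf.Good {j : ℕ} (C : Conf j) (κ e : Fin j → ℝ) (κs ε R Λ : ℝ) : Prop where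
  quad : ∀ a, ∃ A B D : ℝ, ∀ x, C.f a x = A * x ^ 2 + B * x + D
  lin : ∀ b, ∃ y m : ℝ, ∀ x, C.L b x = y + m * x
  r_pos : ∀ a, 0 < C.r a
  ρ_ne : ∀ b, C.ρ b ≠ 0
  shape : ∀ b l, ∃ a β γ : ℝ, |a - κ l| ≤ ε ∧ |β| ≤ ε ∧ |γ - e l| ≤ ε ∧ ∀ s,
    C.f (C.sym b l) (C.P b + C.ρ b * s) =
      C.L b (C.P b + C.ρ b * s) + C.ρ b ^ 2 * (a * s ^ 2 + β * s + γ)
  dom : ∀ b l s, |s| ≤ R → |C.P b + C.ρ b * s - C.c (C.sym b l)| < C.r (C.sym b l)
  above : ∀ b s, |s| ≤ R → ∀ a, (∀ l, a ≠ C.sym b l) → |C.P b + C.ρ b * s - C.c a| ≤ C.r a →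
    ∃ l, C.f (C.sym b l) (C.P b + C.ρ b * s) < C.f a (C.P b + C.ρ b * s)
  sep : ∀ b b', b ≠ b' → Λ * (|C.ρ b| + |C.ρ b'|) ≤ |C.P b - C.P b'|
  chain : ∀ b b', b ≠ b' → ∀ s, |s| ≤ R →
    C.L b' (C.P b' + C.ρ b' * s) + κs * (C.ρ b' * s) ^ 2 ≤
      C.L b (C.P b' + C.ρ b' * s) + κs * (C.P b' + C.ρ b' * s - C.P b) ^ 2

/-- A single block. -/
def Conf.single {j : ℕ} (κ e : Fin j → ℝ) (R : ℝ) : Conf j where
  Sym := Fin j
  Blk := Unit
  f l x := κ l * x ^ 2 + e l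
  c _ := 0
  r _ := R + 1
  P _ := 0
  ρ _ := 1
  L _ _ := 0
  sym _ l := l

theorem Conf.single_good {j : ℕ} (κ e : Fin j → ℝ) (κs : ℝ) {ε R : ℝ} (Λ : ℝ) (hε : 0 < ε)
    (hR : 0 < R) : (Conf.single κ e R).Good κ e κs ε R Λ where
  quad a := ⟨κ a, 0, e a, fun x => by simp [Conf.single]⟩
  lin _ := ⟨0, 0, fun x => by simp [Conf.single]⟩
  r_pos _ := by simp only [Conf.single]; linarith
  ρ_ne _ := by simp [Conf.single]
  shape _ l := ⟨κ l, 0, e l, by simpa using hε.le, by simpa using hε.le, by simpa using hε.le,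
    fun s => by simp [Conf.single]⟩
  dom _ _ s hs := by simp only [Conf.single]; simp only [one_mul, zero_add, sub_zero]; linarith
  above _ _ _ a ha _ := absurd rfl (ha a)
  sep b b' h := absurd (Subsingleton.elim (α := Unit) b b') h
  chain b b' h := absurd (Subsingleton.elim (α := Unit) b b') h

theorem cmp_num {κ κb e R N ρ ρ' s h L L' : ℝ} (hκ : κb < κ) (hN : R ≤ N) (hR : 0 ≤ R)
    (hN2 : |e| + 1 ≤ (κ - κb) * (N ^ 2 - R ^ 2)) (hs : |s| ≤ R)
    (hh : N * (|ρ| + |ρ'|) ≤ |h|) (hc : L + κb * (ρ * s) ^ 2 ≤ L' + κb * h ^ 2) :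
    L + κ * (ρ * s) ^ 2 + e * ρ ^ 2 + ρ ^ 2 ≤ L' + κ * h ^ 2 + e * ρ' ^ 2 := by
  have a1 := abs_nonneg ρ
  have a2 := abs_nonneg ρ'
  set T := |ρ| + |ρ'| with hT
  have hT0 : 0 ≤ T := by positivity
  have h1 : (N * T) ^ 2 ≤ h ^ 2 := by
    rw [← sq_abs h]
    exact pow_le_pow_left₀ (mul_nonneg (hR.trans hN) hT0) hh 2
  have h2 : (ρ * s) ^ 2 ≤ (R * T) ^ 2 := by
    rw [← sq_abs (ρ * s), abs_mul]
    refine pow_le_pow_left₀ (by positivity) ?_ 2
    exact (mul_le_mul (by linarith only [hT, a2] : |ρ| ≤ T) hs (abs_nonneg s) hT0).trans_eq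
      (mul_comm _ _)
  have h3 : ρ ^ 2 ≤ T ^ 2 := by
    rw [← sq_abs ρ]; exact pow_le_pow_left₀ a1 (by linarith only [hT, a2]) 2
  have h4 : ρ' ^ 2 ≤ T ^ 2 := by
    rw [← sq_abs ρ']; exact pow_le_pow_left₀ a2 (by linarith only [hT, a1]) 2
  have h5 : e * ρ ^ 2 - e * ρ' ^ 2 ≤ |e| * T ^ 2 := by
    rcases abs_cases e with ⟨h, h'⟩ | ⟨h, h'⟩ <;> rw [h]
    · linarith only [mul_le_mul_of_nonneg_left h3 h', mul_nonneg h' (sq_nonneg ρ')]
    · linarith only [mul_le_mul_of_nonneg_left h4 (neg_pos.2 h').le,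
        mul_nonneg (neg_pos.2 h').le (sq_nonneg ρ)]
  have h6 : (κ - κb) * ((N ^ 2 - R ^ 2) * T ^ 2) ≤ (κ - κb) * (h ^ 2 - (ρ * s) ^ 2) :=
    mul_le_mul_of_nonneg_left (by linarith only [h1, h2]) (by linarith only [hκ])
  have h7 : (|e| + 1) * T ^ 2 ≤ (κ - κb) * (N ^ 2 - R ^ 2) * T ^ 2 :=
    mul_le_mul_of_nonneg_right hN2 (sq_nonneg T)
  linarith only [hc, h3, h5, h6, h7]

theorem abs_quad_le {a β γ s A B D R : ℝ} (ha : |a| ≤ A) (hβ : |β| ≤ B) (hγ : |γ| ≤ D)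
    (hs : |s| ≤ R) : |a * s ^ 2 + β * s + γ| ≤ A * R ^ 2 + B * R + D := by
  have h0 := abs_nonneg s
  have h1 : |a * s ^ 2| ≤ A * R ^ 2 := by
    rw [abs_mul, abs_pow]
    exact mul_le_mul ha (pow_le_pow_left₀ h0 hs 2) (by positivity) ((abs_nonneg a).trans ha)
  have h2 : |β * s| ≤ B * R := by
    rw [abs_mul]
    exact mul_le_mul hβ hs h0 ((abs_nonneg β).trans hβ)
  have h3 := abs_add_three (a * s ^ 2) (β * s) γ
  linarith

theorem chain_num {κ ζ E R N ρ ρ' s h L L' a β γ a' β' γ' : ℝ} (hζ : 0 < ζ) (hN : 1 ≤ N)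
    (hN2 : 1 + E + ((ζ + 1) * R ^ 2 + R + E) ≤ N * (ζ / 2)) (hs : |s| ≤ R)
    (hh : N * (|ρ| + |ρ'|) ≤ |h|) (ha : |a - κ| ≤ ζ / 4) (hβ : |β| ≤ 1) (hγ : |γ| ≤ E)
    (ha' : |a' - κ| ≤ 1) (hβ' : |β'| ≤ 1) (hγ' : |γ'| ≤ E)
    (hg : L' + ρ' ^ 2 * (a' * s ^ 2 + β' * s + γ') ≤
      L + (a * h ^ 2 + β * ρ * h + γ * ρ ^ 2) + ζ / 4 * h ^ 2) :
    L' + (κ + ζ) * (ρ' * s) ^ 2 ≤ L + (κ + ζ) * h ^ 2 := by
  have a1 := abs_nonneg ρ
  have a2 := abs_nonneg ρ'
  have a3 := abs_nonneg h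
  have hE : 0 ≤ E := (abs_nonneg γ).trans hγ
  have hR : 0 ≤ R := (abs_nonneg s).trans hs
  set W := (ζ + 1) * R ^ 2 + R + E with hW
  have hW0 : 0 ≤ W := by positivity
  have b1 : N * |ρ| ≤ |h| := by linarith only [hh, mul_nonneg (zero_le_one.trans hN) a2]
  have b2 : N * |ρ'| ≤ |h| := by linarith only [hh, mul_nonneg (zero_le_one.trans hN) a1]
  have b3 : N * (|ρ| * |h|) ≤ h ^ 2 := by
    rw [← sq_abs h]; linarith only [mul_le_mul_of_nonneg_right b1 a3]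
  have key : ∀ x : ℝ, N * |x| ≤ |h| → N * x ^ 2 ≤ h ^ 2 := fun x hx => by
    have x0 := abs_nonneg x
    have x1 : |x| ≤ |h| := by linarith only [hx, mul_le_mul_of_nonneg_right hN x0]
    have x2 : N * |x| * |x| ≤ |h| * |h| := mul_le_mul hx x1 x0 a3
    rw [← sq_abs h, ← sq_abs x]
    linarith only [x2]
  have b4 := key ρ b1
  have b5 := key ρ' b2
  have c1 : β * ρ * h ≤ |ρ| * |h| := by
    have : |β * ρ * h| ≤ 1 * |ρ| * |h| := by
      rw [abs_mul, abs_mul]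
      gcongr
    linarith [le_abs_self (β * ρ * h)]
  have c2 : γ * ρ ^ 2 ≤ E * ρ ^ 2 :=
    mul_le_mul_of_nonneg_right ((le_abs_self γ).trans hγ) (sq_nonneg ρ)
  have c3 : |(κ + ζ - a') * s ^ 2 + (-β') * s + (-γ')| ≤ (ζ + 1) * R ^ 2 + 1 * R + E := by
    refine abs_quad_le ?_ (by rwa [abs_neg]) (by rwa [abs_neg]) hs
    rw [abs_le] at ha' ⊢
    constructor <;> linarith
  have c4 : ρ' ^ 2 * ((κ + ζ - a') * s ^ 2 + (-β') * s + (-γ')) ≤ ρ' ^ 2 * W :=
    mul_le_mul_of_nonneg_left (by linarith [le_abs_self ((κ + ζ - a') * s ^ 2 + (-β') * s + (-γ'))])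
      (sq_nonneg _)
  have c5 : (a - κ) * h ^ 2 ≤ ζ / 4 * h ^ 2 :=
    mul_le_mul_of_nonneg_right ((le_abs_self _).trans ha) (sq_nonneg h)
  have c6 : N * (|ρ| * |h| + E * ρ ^ 2 + ρ' ^ 2 * W) ≤ N * (ζ / 2 * h ^ 2) := by
    have d1 := mul_le_mul_of_nonneg_left b4 hE
    have d2 := mul_le_mul_of_nonneg_left b5 hW0
    have d3 := mul_le_mul_of_nonneg_right hN2 (sq_nonneg h)
    linarith only [b3, d1, d2, d3]
  have c7 := le_of_mul_le_mul_left c6 (by linarith only [hN])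
  linarith only [hg, c1, c2, c4, c5, c7]

theorem top_num {M ρ ρ' s h L L' a β γ a' β' γ' : ℝ} (hM : 1 ≤ M) (hs : |s| ≤ 2)
    (hh : |ρ| + |ρ'| ≤ |h|) (ha : |a| ≤ 2 * M) (hβ : |β| ≤ 1) (hγ : |γ| ≤ 3 * M)
    (ha' : |a'| ≤ 2 * M) (hβ' : |β'| ≤ 1) (hγ' : |γ'| ≤ 3 * M)
    (hc : L' + M * (ρ' * s) ^ 2 ≤ L + M * h ^ 2) :
    L' + ρ' ^ 2 * (a' * s ^ 2 + β' * s + γ') ≤
      L + (a * h ^ 2 + β * ρ * h + γ * ρ ^ 2) + 24 * M * h ^ 2 := by
  have a1 := abs_nonneg ρ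
  have a2 := abs_nonneg ρ'
  have a3 := abs_nonneg h
  have b1 : |ρ| ≤ |h| := by linarith only [hh, a2]
  have b2 : |ρ'| ≤ |h| := by linarith only [hh, a1]
  have b3 : |ρ| * |h| ≤ h ^ 2 := by
    rw [← sq_abs h]; linarith only [mul_le_mul_of_nonneg_right b1 a3]
  have b4 : ρ ^ 2 ≤ h ^ 2 := sq_le_sq.2 b1
  have b5 : ρ' ^ 2 ≤ h ^ 2 := sq_le_sq.2 b2
  have c1 : -(β * ρ * h) ≤ |ρ| * |h| := by
    have : |β * ρ * h| ≤ 1 * |ρ| * |h| := by
      rw [abs_mul, abs_mul]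
      gcongr
    linarith [neg_abs_le (β * ρ * h)]
  have c2 : -γ * ρ ^ 2 ≤ 3 * M * h ^ 2 :=
    mul_le_mul ((neg_le_abs γ).trans hγ) b4 (sq_nonneg ρ) (by linarith)
  have c3 : |(a' - M) * s ^ 2 + β' * s + γ'| ≤ 3 * M * 2 ^ 2 + 1 * 2 + 3 * M := by
    refine abs_quad_le ?_ hβ' hγ' hs
    rw [abs_le] at ha' ⊢
    constructor <;> linarith
  have c4 : ρ' ^ 2 * ((a' - M) * s ^ 2 + β' * s + γ') ≤ h ^ 2 * (17 * M) :=
    (mul_le_mul_of_nonneg_left (b := (a' - M) * s ^ 2 + β' * s + γ') (c := 17 * M)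
      (by linarith [le_abs_self ((a' - M) * s ^ 2 + β' * s + γ')]) (sq_nonneg _)).trans
      (mul_le_mul_of_nonneg_right b5 (by linarith))
  have c5 : -a * h ^ 2 ≤ 2 * M * h ^ 2 :=
    mul_le_mul_of_nonneg_right ((neg_le_abs a).trans ha) (sq_nonneg h)
  have c6 : h ^ 2 ≤ M * h ^ 2 := le_mul_of_one_le_left (sq_nonneg h) hM
  linarith only [hc, b3, c1, c2, c4, c5, c6, sq_nonneg h]

theorem exists_N {κ κb e R Λ ζ : ℝ} (hκ : κb < κ) (hζ : 0 < ζ) (hR : 0 < R) (hΛ : 0 < Λ) :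
    ∃ N, 1 ≤ N ∧ R ≤ N ∧ Λ ≤ N ∧ |e| + 1 ≤ (κ - κb) * (N ^ 2 - R ^ 2) ∧
      1 + (|e| + 1) + ((ζ + 1) * R ^ 2 + R + (|e| + 1)) ≤ N * (ζ / 2) := by
  have hk : 0 < κ - κb := by linarith
  set W := 1 + (|e| + 1) + ((ζ + 1) * R ^ 2 + R + (|e| + 1)) with hW
  have hW0 : 0 ≤ W := by positivity
  have h1 : 0 ≤ (|e| + 1) / (κ - κb) := by positivity
  have h2 : 0 ≤ W / (ζ / 2) := by positivity
  refine ⟨1 + R + Λ + (|e| + 1) / (κ - κb) + W / (ζ / 2), by linarith, by linarith, by linarith,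
    ?_, ?_⟩
  · set N := 1 + R + Λ + (|e| + 1) / (κ - κb) + W / (ζ / 2) with hN
    have h3 : (|e| + 1) / (κ - κb) ≤ N ^ 2 - R ^ 2 := by
      have : 1 ≤ N := by linarith
      have : R ≤ N := by linarith
      have : (|e| + 1) / (κ - κb) ≤ N - R := by linarith
      nlinarith
    rw [div_le_iff₀ hk] at h3
    linarith
  · have h3 : W / (ζ / 2) * (ζ / 2) = W := div_mul_cancel₀ _ (by positivity)
    nlinarith

theorem exists_theta {Z μ : ℝ} (hZ : 0 ≤ Z) (hμ : 0 < μ) : ∃ θ, 0 < θ ∧ θ * Z < μ :=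
  ⟨μ / (Z + 1), by positivity, by
    rw [div_mul_eq_mul_div, div_lt_iff₀ (by positivity)]
    nlinarith⟩

end Pool.Agent.Work.MP_8a5de9_co
end
end

-- merged part: Pool.Agent.Work.MP_8a5de9_co.LBLift
section
-- merged part: Pool.Agent.Work.MP_8a5de9_co.LBStab
section
/-! Transversal vertices on the boundary of a cell persist under small perturbations. -/

namespace Pool.Agent.Work.MP_8a5de9_co

open Filter Topology Set

variable {Ω E : Type} [NormedAddCommGroup Ω] [NormedSpace ℝ Ω] [NormedAddCommGroup E]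
  [NormedSpace ℝ E]

/-- The differential in the second variable. -/
noncomputable def dy (g : Ω × E → ℝ) (z : Ω × E) : E →L[ℝ] ℝ := fderiv ℝ (fun y => g (z.1, y)) z.2

theorem hasFDerivAt_dy {g : Ω × E → ℝ} (hg : ContDiff ℝ 1 g) (ω : Ω) (x : E) :
    HasFDerivAt (fun y => g (ω, y))
      ((fderiv ℝ g (ω, x)).comp (ContinuousLinearMap.inr ℝ Ω E)) x :=
  (hg.differentiable one_ne_zero (ω, x)).hasFDerivAt.comp x (hasFDerivAt_prodMk_right ω x)

theorem dy_eq {g : Ω × E → ℝ} (hg : ContDiff ℝ 1 g) (z : Ω × E) :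
    dy g z = (fderiv ℝ g z).comp (ContinuousLinearMap.inr ℝ Ω E) :=
  (hasFDerivAt_dy hg z.1 z.2).fderiv

theorem continuous_dy {g : Ω × E → ℝ} (hg : ContDiff ℝ 1 g) : Continuous (dy g) := by
  rw [show dy g = _ from funext (dy_eq hg)]
  exact (hg.continuous_fderiv one_ne_zero).clm_comp continuous_const

theorem exists_near [CompleteSpace Ω] [CompleteSpace E] {κ : Type} [Fintype κ]
    {g : κ → Ω × E → ℝ} (hg : ∀ k, ContDiff ℝ 1 (g k)) {ω0 : Ω} {v0 : E}
    (h0 : ∀ k, g k (ω0, v0) = 0) (hs : ∀ t : κ → ℝ, ∃ u, ∀ k, dy (g k) (ω0, v0) u = t k)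
    {U : Set (Ω × E)} (hU : U ∈ 𝓝 (ω0, v0)) :
    ∀ᶠ ω in 𝓝 ω0, ∃ v, (ω, v) ∈ U ∧ ∀ k, g k (ω, v) = 0 := by
  have hF : HasStrictFDerivAt (fun z : Ω × E => (z.1, fun k => g k z))
      ((ContinuousLinearMap.fst ℝ Ω E).prod
        (ContinuousLinearMap.pi fun k => fderiv ℝ (g k) (ω0, v0))) (ω0, v0) :=
    hasStrictFDerivAt_fst.prodMk (hasStrictFDerivAt_pi.2 fun k =>
      (hg k).contDiffAt.hasStrictFDerivAt one_ne_zero)
  have hm := hF.map_nhds_eq_of_surj (by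
    rw [LinearMap.range_eq_top]
    rintro ⟨a, t⟩
    obtain ⟨u, hu⟩ := hs fun k => t k - fderiv ℝ (g k) (ω0, v0) (a, 0)
    refine ⟨(a, u), Prod.ext rfl (funext fun k => ?_)⟩
    have h1 := hu k
    rw [dy_eq (hg k)] at h1
    change fderiv ℝ (g k) (ω0, v0) (0, u) = _ at h1
    change fderiv ℝ (g k) (ω0, v0) (a, u) = t k
    rw [show (a, u) = (a, (0 : E)) + ((0 : Ω), u) by simp, map_add, h1]
    ring)
  have h1 : (fun z : Ω × E => (z.1, fun k => g k z)) '' U ∈ 𝓝 (ω0, (0 : κ → ℝ)) := by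
    have := image_mem_map (m := fun z : Ω × E => (z.1, fun k => g k z)) hU
    rw [hm] at this
    simp only [h0] at this
    exact this
  have h2 : Tendsto (fun ω : Ω => (ω, (0 : κ → ℝ))) (𝓝 ω0) (𝓝 (ω0, 0)) :=
    (continuous_id.prodMk continuous_const).tendsto ω0
  filter_upwards [h2 h1] with ω hω
  obtain ⟨⟨a, v⟩, hz, he⟩ := hω
  obtain ⟨rfl, he'⟩ := Prod.mk.inj he
  exact ⟨v, hz, fun k => congrFun he' k⟩

theorem indep_of_surj {κ : Type} [Fintype κ] {D : κ → E →L[ℝ] ℝ}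
    (hs : ∀ t : κ → ℝ, ∃ u, ∀ k, D k u = t k) : LinearIndependent ℝ D := by
  classical
  rw [Fintype.linearIndependent_iff]
  intro c hc k
  obtain ⟨u, hu⟩ := hs (Pi.single k 1)
  have := congrArg (fun f : E →L[ℝ] ℝ => f u) hc
  simpa [hu, Pi.single_apply] using this

/-- The patch with parameter `ω`. -/
def pat (p q : Ω × E → ℝ) (ω : Ω) : Set E := {x | p (ω, x) = 0 ∧ 0 ≤ q (ω, x)}

omit [NormedSpace ℝ Ω] [NormedSpace ℝ E] in
theorem avoid {p q : Ω × E → ℝ} (hp : Continuous p) (hq : Continuous q) {z : Ω × E}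
    (h : z.2 ∉ pat p q z.1) : ∀ᶠ z' in 𝓝 z, z'.2 ∉ pat p q z'.1 :=
  ((isClosed_eq hp continuous_const).inter (isClosed_le continuous_const hq)).isOpen_compl.mem_nhds h

omit [NormedSpace ℝ E] in
theorem mem_cc {F : Set E} {x z : E} (h : JoinedIn F x z) : x ∈ connectedComponentIn F z := by
  obtain ⟨γ, hγ⟩ := h
  exact (isPreconnected_range γ.continuous).subset_connectedComponentIn γ.target_mem_range
    (range_subset_iff.2 hγ) γ.source_mem_range

theorem stable [CompleteSpace Ω] [CompleteSpace E] {ι κ : Type} [Finite ι] [Fintype κ]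
    [Nonempty κ] {p q : ι → Ω × E → ℝ} (hp : ∀ i, ContDiff ℝ 1 (p i))
    (hq : ∀ i, Continuous (q i)) {ω0 : Ω} (φ : κ → ι) {v0 w z : E}
    (h1 : ∀ i, v0 ∈ pat (p i) (q i) ω0 ↔ i ∈ range φ) (h2 : ∀ k, 0 < q (φ k) (ω0, v0))
    (hs : ∀ t : κ → ℝ, ∃ u, ∀ k, dy (p (φ k)) (ω0, v0) u = t k)
    (hw : ∀ k, dy (p (φ k)) (ω0, v0) w ≠ 0)
    (hj : ∀ τ : ℝ, 0 < τ → τ < 1 → JoinedIn (⋃ i, pat (p i) (q i) ω0)ᶜ (v0 + τ • w) z)
    {U0 : Set E} (hU0 : U0 ∈ 𝓝 v0) :
    ∀ᶠ ω in 𝓝 ω0, ∃ v ∈ U0, (∀ i, v ∈ pat (p i) (q i) ω ↔ i ∈ range φ) ∧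
      (∀ k, 0 < q (φ k) (ω, v)) ∧ (LinearIndependent ℝ fun k => dy (p (φ k)) (ω, v)) ∧
      v ∈ frontier (connectedComponentIn (⋃ i, pat (p i) (q i) ω)ᶜ z) := by
  have hN : ∀ᶠ y in 𝓝 (ω0, v0), (∀ k, dy (p (φ k)) y w ≠ 0) ∧
      (∀ i, i ∉ range φ → y.2 ∉ pat (p i) (q i) y.1) ∧ (∀ k, 0 < q (φ k) y) ∧
      LinearIndependent ℝ fun k => dy (p (φ k)) y := by
    refine (eventually_all.2 fun k => ?_).and ((eventually_all.2 fun i => ?_).and
      ((eventually_all.2 fun k => ?_).and ?_))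
    · exact ((continuous_dy (hp _)).clm_apply continuous_const).continuousAt.eventually_ne (hw k)
    · by_cases hi : i ∈ range φ
      · exact Eventually.of_forall fun _ h => absurd hi h
      · exact (avoid (hp i).continuous (hq i) (z := (ω0, v0)) (mt (h1 i).1 hi)).mono
          fun _ h _ => h
    · exact continuousAt_const.eventually_lt (hq _).continuousAt (h2 k)
    · exact ((continuous_pi fun k => continuous_dy (hp (φ k))).tendsto (ω0, v0)).eventually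
        (indep_of_surj hs).eventually
  obtain ⟨W, hW, V, hV, hWV⟩ := mem_nhds_prod_iff.1 hN
  obtain ⟨δ, hδ, hδV⟩ := Metric.mem_nhds_iff.1 hV
  obtain ⟨τ, hτ0, hτ1, hτ⟩ : ∃ τ : ℝ, 0 < τ ∧ τ < 1 ∧ τ * ‖w‖ < δ / 2 := by
    have hw0 := norm_nonneg w
    refine ⟨min (1 / 2) (δ / 2 / (‖w‖ + 1)), lt_min (by norm_num) (by positivity),
      (min_le_left _ _).trans_lt (by norm_num), ?_⟩
    refine (mul_le_mul_of_nonneg_right (min_le_right _ _) hw0).trans_lt ?_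
    rw [div_mul_eq_mul_div, div_lt_iff₀ (by positivity)]
    nlinarith
  obtain ⟨γ, hγ⟩ := hj τ hτ0 hτ1
  have hall : ∀ x ∈ (⋃ i, pat (p i) (q i) ω0)ᶜ,
      ∀ᶠ y in 𝓝 (ω0, x), y.2 ∈ (⋃ i, pat (p i) (q i) y.1)ᶜ := fun x hx => by
    simp only [compl_iUnion, mem_iInter] at hx ⊢
    exact eventually_all.2 fun i => avoid (hp i).continuous (hq i) (z := (ω0, x)) (hx i)
  have hK := (isCompact_range γ.continuous).eventually_forall_of_forall_eventually (x₀ := ω0)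
    (P := fun ω x => x ∈ (⋃ i, pat (p i) (q i) ω)ᶜ) fun x hx =>
      hall x (range_subset_iff.2 hγ hx)
  obtain ⟨W2, hW2, V2, hV2, hWV2⟩ := mem_nhds_prod_iff.1 (hall _ (by simpa using hγ 0))
  obtain ⟨δ2, hδ2, hδV2⟩ := Metric.mem_nhds_iff.1 hV2
  have hex := exists_near (g := fun k => p (φ k)) (fun k => hp _)
    (fun k => ((h1 _).2 ⟨k, rfl⟩).1) hs
    (prod_mem_nhds univ_mem (inter_mem hU0 (Metric.ball_mem_nhds v0
      (lt_min (half_pos hδ) hδ2))))
  filter_upwards [hW, hW2, hK, hex] with ω hω hω2 hωK hv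
  obtain ⟨v, ⟨-, hvU, hvb⟩, hv⟩ := hv
  rw [Metric.mem_ball, lt_min_iff] at hvb
  have hin : ∀ t ∈ Icc 0 τ, (ω, v + t • w) ∈ W ×ˢ V := fun t ht => by
    refine ⟨hω, hδV ?_⟩
    rw [Metric.mem_ball]
    refine (dist_triangle _ v _).trans_lt ?_
    rw [dist_self_add_left, norm_smul, Real.norm_of_nonneg ht.1]
    linarith [mul_le_mul_of_nonneg_right ht.2 (norm_nonneg w), hvb.1]
  have hv0 := hWV (hin 0 ⟨le_rfl, hτ0.le⟩)
  rw [zero_smul, add_zero] at hv0
  have hmem : ∀ i, v ∈ pat (p i) (q i) ω ↔ i ∈ range φ := fun i =>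
    ⟨fun h => by_contra fun hi => hv0.2.1 i hi h, by
      rintro ⟨k, rfl⟩
      exact ⟨hv k, (hv0.2.2.1 k).le⟩⟩
  have hout : ∀ t ∈ Ioc 0 τ, v + t • w ∈ (⋃ i, pat (p i) (q i) ω)ᶜ := fun t ht => by
    simp only [compl_iUnion, mem_iInter]
    intro i hi
    by_cases hi' : i ∈ range φ
    · obtain ⟨k, rfl⟩ := hi'
      have hd : ∀ s : ℝ, HasDerivAt (fun s : ℝ => p (φ k) (ω, v + s • w))
          (dy (p (φ k)) (ω, v + s • w) w) s := fun s => by
        have e1 : HasDerivAt (fun s : ℝ => v + s • w) w s := by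
          simpa using ((hasDerivAt_id s).smul_const w).const_add v
        rw [dy_eq (hp _)]
        have e2 := (hasFDerivAt_dy (hp (φ k)) ω (v + s • w)).comp_hasDerivAt s e1
        exact e2
      obtain ⟨c, hc, hc'⟩ := exists_hasDerivAt_eq_zero ht.1
        (fun s _ => (hd s).continuousAt.continuousWithinAt)
        (by simpa [hv k] using hi.1.symm) fun s _ => hd s
      exact (hWV (hin c ⟨hc.1.le, hc.2.le.trans ht.2⟩)).1 k hc'
    · exact (hWV (hin t ⟨ht.1.le, ht.2⟩)).2.1 i hi' hi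
  have j1 : JoinedIn (⋃ i, pat (p i) (q i) ω)ᶜ (v0 + τ • w) z := ⟨γ, fun t => hωK _ ⟨t, rfl⟩⟩
  have j2 : JoinedIn (⋃ i, pat (p i) (q i) ω)ᶜ (v + τ • w) (v0 + τ • w) := by
    refine JoinedIn.of_segment_subset (((convex_ball (v0 + τ • w) δ2).segment_subset ?_
      (Metric.mem_ball_self hδ2)).trans fun x hx => hWV2 (a := (ω, x)) ⟨hω2, hδV2 hx⟩)
    rw [Metric.mem_ball, dist_add_right]
    exact hvb.2
  have j3 : ∀ t ∈ Ioc 0 τ, v + t • w ∈ connectedComponentIn (⋃ i, pat (p i) (q i) ω)ᶜ z :=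
    fun t ht => by
    refine mem_cc (JoinedIn.trans (JoinedIn.of_segment_subset ?_) (j2.trans j1))
    rintro x ⟨a, b, ha, hb, hab, rfl⟩
    have e1 : a • (v + t • w) + b • (v + τ • w) = v + (a * t + b * τ) • w := by
      rw [smul_add, smul_add, add_add_add_comm, ← add_smul, hab, one_smul, add_smul, smul_smul,
        smul_smul]
    rw [e1]
    have := ht.1
    have := ht.2
    refine hout _ ⟨?_, ?_⟩ <;> nlinarith
  refine ⟨v, hvU, hmem, hv0.2.2.1, hv0.2.2.2, ?_, fun hint => ?_⟩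
  · have ht : Tendsto (fun t : ℝ => v + t • w) (𝓝[>] 0) (𝓝 v) := by
      have : Continuous fun t : ℝ => v + t • w := by fun_prop
      simpa using (this.tendsto 0).mono_left nhdsWithin_le_nhds
    exact mem_closure_of_tendsto ht (mem_of_superset (Ioc_mem_nhdsGT hτ0) j3)
  · obtain ⟨k⟩ := ‹Nonempty κ›
    exact connectedComponentIn_subset _ _ (interior_subset hint)
      (mem_iUnion.2 ⟨φ k, (hmem _).2 ⟨k, rfl⟩⟩)

theorem stable_proper [CompleteSpace Ω] [CompleteSpace E] {p q : Ω × E → ℝ}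
    (hp : ContDiff ℝ 1 p) (hq : Continuous q) {ω0 : Ω} {v0 : E} (h0 : p (ω0, v0) = 0)
    (h1 : 0 < q (ω0, v0)) (h2 : dy p (ω0, v0) ≠ 0) :
    ∀ᶠ ω in 𝓝 ω0, ∃ v, p (ω, v) = 0 ∧ 0 < q (ω, v) ∧ dy p (ω, v) ≠ 0 := by
  obtain ⟨u, hu⟩ : ∃ u, dy p (ω0, v0) u ≠ 0 := by
    by_contra h
    push Not at h
    exact h2 (ContinuousLinearMap.ext h)
  have hN : ∀ᶠ y in 𝓝 (ω0, v0), 0 < q y ∧ dy p y ≠ 0 :=
    (continuousAt_const.eventually_lt hq.continuousAt h1).and
      ((continuous_dy hp).continuousAt.eventually_ne h2)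
  filter_upwards [exists_near (κ := Unit) (g := fun _ => p) (fun _ => hp) (fun _ => h0)
    (fun t => ⟨(t () / dy p (ω0, v0) u) • u, fun _ => by simp [hu]⟩) hN] with ω hω
  obtain ⟨v, hv, hv'⟩ := hω
  exact ⟨v, hv' (), hv⟩

end Pool.Agent.Work.MP_8a5de9_co
end

-- merged part: Pool.Agent.Work.MP_8a5de9_co.LBPoly
section
/-! Stability of vertices under perturbation of the coefficients. -/

namespace Pool.Agent.Work.MP_8a5de9_co

open Filter Topology Set MvPolynomial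

/-- The monomials of degree at most `b`. -/
noncomputable def mons (d b : ℕ) : Finset (Fin d →₀ ℕ) :=
  (Finsupp.finite_of_degree_le (σ := Fin d) b).toFinset

variable {d b : ℕ} {ι : Type}

/-- Evaluation of a coefficient vector. -/
noncomputable def ev (c : mons d b → ℝ) (x : Fin d → ℝ) : ℝ := ∑ m, c m * ∏ i, x i ^ m.1 i

theorem eval_eq_ev {p : MvPolynomial (Fin d) ℝ} (hp : p.totalDegree ≤ b) (x : Fin d → ℝ) :
    eval x p = ev (b := b) (fun m => coeff m.1 p) x := by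
  rw [eval_eq', ev, Finset.sum_coe_sort (mons d b) fun m => coeff m p * ∏ i, x i ^ m i]
  refine Finset.sum_subset (fun m hm => ?_) fun m _ hm => by
    rw [notMem_support_iff.1 hm, zero_mul]
  rw [mons, Finite.mem_toFinset]
  exact (le_totalDegree hm).trans hp

/-- The coefficient vector of a family. -/
noncomputable def par (b : ℕ) (P Q : ι → MvPolynomial (Fin d) ℝ) : ι × Bool → mons d b → ℝ :=
  fun j m => coeff m.1 (if j.2 then P j.1 else Q j.1)

/-- The polynomial with index `j` as a function of the coefficients and the point. -/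
noncomputable def pf (j : ι × Bool) (z : (ι × Bool → mons d b → ℝ) × (Fin d → ℝ)) : ℝ :=
  ev (z.1 j) z.2

theorem contDiff_pf [Fintype ι] (j : ι × Bool) : ContDiff ℝ 1 (pf (d := d) (b := b) j) := by
  unfold pf ev
  fun_prop

theorem pf_true {P Q : ι → MvPolynomial (Fin d) ℝ} {i : ι} (h : (P i).totalDegree ≤ b)
    (x : Fin d → ℝ) : pf (i, true) (par b P Q, x) = eval x (P i) := (eval_eq_ev h x).symm

theorem pf_false {P Q : ι → MvPolynomial (Fin d) ℝ} {i : ι} (h : (Q i).totalDegree ≤ b)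
    (x : Fin d → ℝ) : pf (i, false) (par b P Q, x) = eval x (Q i) := (eval_eq_ev h x).symm

theorem dy_pf [Fintype ι] {P Q : ι → MvPolynomial (Fin d) ℝ} {i : ι}
    (h : (P i).totalDegree ≤ b) (x : Fin d → ℝ) :
    dy (pf (i, true)) (par b P Q, x) = diff (P i) x := by
  simp only [dy, diff, pf_true h]

theorem pat_pf {P Q : ι → MvPolynomial (Fin d) ℝ} {i : ι} (h : (P i).totalDegree ≤ b)
    (h' : (Q i).totalDegree ≤ b) :
    pat (pf (i, true)) (pf (i, false)) (par b P Q) = patch (P i) (Q i) := by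
  simp only [pat, patch, pf_true h, pf_false h']

theorem poly_stable [Fintype ι] [NeZero d] {P Q : ι → MvPolynomial (Fin d) ℝ}
    (hP : ∀ i, (P i).totalDegree ≤ b) (hQ : ∀ i, (Q i).totalDegree ≤ b)
    (hprop : ∀ i, IsProper (P i) (Q i)) {V : Type} [Fintype V] {v0 : V → Fin d → ℝ}
    (hinj : Function.Injective v0) (φ : V → Fin d → ι) {w z : Fin d → ℝ}
    (h1 : ∀ a i, v0 a ∈ patch (P i) (Q i) ↔ i ∈ range (φ a))
    (h2 : ∀ a k, 0 < eval (v0 a) (Q (φ a k)))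
    (hs : ∀ a (t : Fin d → ℝ), ∃ u, ∀ k, diff (P (φ a k)) (v0 a) u = t k)
    (hw : ∀ a k, diff (P (φ a k)) (v0 a) w ≠ 0)
    (hj : ∀ a (τ : ℝ), 0 < τ → τ < 1 → JoinedIn (⋃ i, patch (P i) (Q i))ᶜ (v0 a + τ • w) z) :
    ∃ ε > 0, ∀ P' Q' : ι → MvPolynomial (Fin d) ℝ, (∀ i, Near b ε (P i) (P' i)) →
      (∀ i, Near b ε (Q i) (Q' i)) → (∀ i, IsProper (P' i) (Q' i)) ∧
        ∃ S : Finset (Fin d → ℝ), S.card = Fintype.card V ∧
          ∀ x ∈ S, IsVertex P' Q' x ∧ x ∈ frontier (cell P' Q' z) := by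
  classical
  obtain ⟨U, hU, hdisj⟩ := (finite_range v0).t2_separation
  have e1 := eventually_all.2 fun a => stable (p := fun i => pf (d := d) (b := b) (i, true))
    (q := fun i => pf (i, false)) (fun i => contDiff_pf _) (fun i => (contDiff_pf _).continuous)
    (ω0 := par b P Q) (φ a) (v0 := v0 a) (w := w) (z := z)
    (fun i => by rw [pat_pf (hP i) (hQ i)]; exact h1 a i)
    (fun k => by rw [pf_false (hQ _)]; exact h2 a k)
    (fun t => by simpa only [dy_pf (hP _)] using hs a t)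
    (fun k => by rw [dy_pf (hP _)]; exact hw a k)
    (fun τ h h' => by simpa only [pat_pf (hP _) (hQ _)] using hj a τ h h')
    ((hU (v0 a)).2.mem_nhds (hU (v0 a)).1)
  have e2 : ∀ᶠ ω in 𝓝 (par b P Q), ∀ i, ∃ v, pf (i, true) (ω, v) = 0 ∧ 0 < pf (i, false) (ω, v) ∧
      dy (pf (i, true)) (ω, v) ≠ 0 := eventually_all.2 fun i => by
    obtain ⟨x, hx, hx', hx''⟩ := hprop i
    exact stable_proper (v0 := x) (contDiff_pf _) (contDiff_pf _).continuous
      (by rwa [pf_true (hP i)]) (by rwa [pf_false (hQ i)]) (by rwa [dy_pf (hP i)])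
  obtain ⟨ε, hε, h⟩ := Metric.eventually_nhds_iff.1 (e1.and e2)
  refine ⟨ε, hε, fun P' Q' hP' hQ' => ?_⟩
  have hd : dist (par b P' Q') (par b P Q) < ε := by
    rw [dist_pi_lt_iff hε]
    rintro ⟨i, b'⟩
    rw [dist_pi_lt_iff hε]
    intro m
    cases b'
    exacts [(hQ' i).2 m, (hP' i).2 m]
  obtain ⟨g1, g2⟩ := h hd
  have dP := fun i => (hP' i).1
  have dQ := fun i => (hQ' i).1
  simp only [pat_pf (dP _) (dQ _), dy_pf (dP _), pf_true (dP _), pf_false (dQ _)] at g1 g2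
  choose v hv g3 g4 g5 g6 using g1
  have hvinj : Function.Injective v := fun a a' hab => by
    by_contra hne
    exact Set.disjoint_left.1 (hdisj ⟨a, rfl⟩ ⟨a', rfl⟩ (hinj.ne hne)) (hv a) (hab ▸ hv a')
  refine ⟨g2, Finset.univ.image v, by
    rw [Finset.card_image_of_injective _ hvinj, Finset.card_univ], fun x hx => ?_⟩
  obtain ⟨a, -, rfl⟩ := Finset.mem_image.1 hx
  exact ⟨⟨φ a, Function.Injective.of_comp (f := fun i => diff (P' i) (v a)) (g5 a).injective,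
    g3 a, g4 a, g5 a⟩, g6 a⟩

end Pool.Agent.Work.MP_8a5de9_co
end

-- merged part: Pool.Agent.Work.MP_8a5de9_co.LBStep
section
/-! The inductive step: two mirror copies of the bottom family under every block of the top
family. -/

namespace Pool.Agent.Work.MP_8a5de9_co

/-- The sign of a side. -/
def sg (η : Bool) : ℝ := if η then 1 else -1

theorem sg_sq (η : Bool) : sg η * sg η = 1 := by cases η <;> simp [sg]

theorem abs_sg (η : Bool) : |sg η| = 1 := by cases η <;> simp [sg]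

theorem sg_ne {η η' : Bool} (h : η ≠ η') : sg η' = -sg η := by
  cases η <;> cases η' <;> simp_all [sg]

variable {j B : ℕ}

/-- The affine map placing a copy of the bottom family. -/
def Conf.X (T : Conf B) (θ : ℝ) (t : T.Blk) (η : Bool) (u : ℝ) : ℝ :=
  T.P t + T.ρ t * (sg η * (θ * u - 1))

/-- Its inverse. -/
noncomputable def Conf.U (T : Conf B) (θ : ℝ) (t : T.Blk) (η : Bool) (x : ℝ) : ℝ :=
  ((x - T.P t) / T.ρ t * sg η + 1) / θ

/-- The common linear part of a copy. -/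
def Conf.Lam (T : Conf B) (κ θ : ℝ) (t : T.Blk) (η : Bool) (x : ℝ) : ℝ :=
  κ * x ^ 2 - κ * (x - T.X θ t η 0) ^ 2 + θ * T.L t x

theorem Conf.U_X (T : Conf B) {θ : ℝ} (hθ : θ ≠ 0) {t : T.Blk} (ht : T.ρ t ≠ 0) (η : Bool)
    (u : ℝ) : T.U θ t η (T.X θ t η u) = u := by
  unfold Conf.U Conf.X
  have := sg_sq η
  field_simp
  linear_combination T.ρ t * (θ * u - 1) * this

theorem Conf.X_sub (T : Conf B) (θ : ℝ) (t : T.Blk) (η : Bool) (u u' : ℝ) :
    T.X θ t η u - T.X θ t η u' = sg η * θ * T.ρ t * (u - u') := by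
  unfold Conf.X
  ring

theorem Conf.abs_X_sub (T : Conf B) {θ : ℝ} (hθ : 0 < θ) (t : T.Blk) (η : Bool) (u u' : ℝ) :
    |T.X θ t η u - T.X θ t η u'| = θ * |T.ρ t| * |u - u'| := by
  rw [T.X_sub, abs_mul, abs_mul, abs_mul, abs_sg, abs_of_pos hθ, one_mul]

theorem Conf.X_U (T : Conf B) {θ : ℝ} (hθ : θ ≠ 0) {t : T.Blk} (ht : T.ρ t ≠ 0) (η : Bool)
    (x : ℝ) : T.X θ t η (T.U θ t η x) = x := by
  unfold Conf.U Conf.X
  have := sg_sq η
  field_simp
  linear_combination (x - T.P t) * this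

/-- The combined family. -/
noncomputable def comb (C : Conf j) (T : Conf B) (idx : C.Blk → Fin B) (κ θ : ℝ) :
    Conf (j + 1) where
  Sym := (T.Blk × Bool × C.Sym) ⊕ T.Sym
  Blk := T.Blk × Bool × C.Blk
  f := Sum.elim
    (fun a x => T.Lam κ θ a.1 a.2.1 x + (θ * T.ρ a.1) ^ 2 * C.f a.2.2 (T.U θ a.1 a.2.1 x))
    (fun g x => κ * x ^ 2 + θ * T.f g x)
  c := Sum.elim (fun a => T.X θ a.1 a.2.1 (C.c a.2.2)) T.c
  r := Sum.elim (fun a => θ * |T.ρ a.1| * C.r a.2.2) T.r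
  P b := T.X θ b.1 b.2.1 (C.P b.2.2)
  ρ b := sg b.2.1 * θ * T.ρ b.1 * C.ρ b.2.2
  L b x := T.Lam κ θ b.1 b.2.1 x + (θ * T.ρ b.1) ^ 2 * C.L b.2.2 (T.U θ b.1 b.2.1 x)
  sym b := Fin.lastCases (Sum.inr (T.sym b.1 (idx b.2.2)))
    fun l => Sum.inl (b.1, b.2.1, C.sym b.2.2 l)

/-- The hypotheses of the inductive step. -/
structure StepHyp (C : Conf j) (T : Conf B) (idx : C.Blk → Fin B) (κ0 e0 : Fin j → ℝ)
    (κ' e' : Fin B → ℝ) (σ τ : C.Blk → ℝ) (κ e κb ζ ε ε1 R N M θ : ℝ) : Prop where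
  hC : C.Good κ0 e0 κb ε R (N + R)
  hT : T.Good κ' e' M (θ ^ 2) 2 6
  surj : Function.Surjective idx
  hG : ∀ k u, C.L k u + κ * (u - C.P k) ^ 2 + e * C.ρ k ^ 2 = κ * u ^ 2 + σ k * u + τ k
  hκ' : ∀ k, κ' (idx k) = -σ k / 2
  he' : ∀ k, e' (idx k) = σ k / 2 + θ * τ k
  κb_lt : κb < κ
  ζ_pos : 0 < ζ
  R_pos : 0 < R
  N1 : 1 ≤ N
  NR : R ≤ N
  N2 : |e| + 1 ≤ (κ - κb) * (N ^ 2 - R ^ 2)
  N3 : 1 + (|e| + 1) + ((ζ + 1) * R ^ 2 + R + (|e| + 1)) ≤ N * (ζ / 2)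
  M1 : 1 ≤ M
  MP : ∀ k, |C.P k| + (R + 1) * |C.ρ k| ≤ M
  Mρ : ∀ k, 1 ≤ M * |C.ρ k|
  Mσ : ∀ k, |σ k| ≤ M
  Mτ : ∀ k, |τ k| ≤ M
  Mc : ∀ a, |C.c a| + C.r a ≤ M
  θ_pos : 0 < θ
  ε1_le : ε1 ≤ ε
  ε1_one : ε1 ≤ 1
  ε1_ζ : ε1 ≤ ζ / 4
  θ1 : θ * (96 * M ^ 5) < ε1
  θ2 : θ * ((N + R) * M) ≤ 1 / 2

namespace StepHyp

variable {C : Conf j} {T : Conf B} {idx : C.Blk → Fin B} {κ0 e0 : Fin j → ℝ}
  {κ' e' : Fin B → ℝ} {σ τ : C.Blk → ℝ} {κ e κb ζ ε ε1 R N M θ : ℝ}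
  (H : StepHyp C T idx κ0 e0 κ' e' σ τ κ e κb ζ ε ε1 R N M θ)

include H

theorem θM : θ * M ≤ 1 / 2 := by
  have h1 := H.θ2
  have h2 := H.N1
  have h3 := H.R_pos
  have h4 := H.M1
  have h5 := H.θ_pos
  have : θ * M ≤ θ * ((N + R) * M) := mul_le_mul_of_nonneg_left (by nlinarith) h5.le
  linarith

theorem θ_le : θ ≤ 1 := by
  have h1 := H.θM
  have h4 := H.M1
  have h5 := H.θ_pos
  nlinarith

theorem win_le (k : C.Blk) {s : ℝ} (hs : |s| ≤ R) : |C.P k + C.ρ k * s| ≤ M := by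
  have h1 := abs_add_le (C.P k) (C.ρ k * s)
  rw [abs_mul] at h1
  have h2 := H.MP k
  have h3 := abs_nonneg (C.ρ k)
  nlinarith

theorem P_le (k : C.Blk) : |C.P k| ≤ M := by
  simpa using H.win_le k (s := 0) (by simpa using H.R_pos.le)

theorem ρ_le (k : C.Blk) : |C.ρ k| ≤ M := by
  have h2 := H.MP k
  have h3 := abs_nonneg (C.ρ k)
  have h4 := abs_nonneg (C.P k)
  have h5 := H.R_pos
  nlinarith

theorem θu_le {u : ℝ} (hu : |u| ≤ M) : |θ * u| ≤ 1 / 2 := by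
  rw [abs_mul, abs_of_pos H.θ_pos]
  exact (mul_le_mul_of_nonneg_left hu H.θ_pos.le).trans H.θM

theorem s_le (η : Bool) {u : ℝ} (hu : |u| ≤ M) : |sg η * (θ * u - 1)| ≤ 2 := by
  rw [abs_mul, abs_sg, one_mul]
  have := H.θu_le hu
  rw [abs_le] at this ⊢
  constructor <;> linarith

theorem X_near (t : T.Blk) (η : Bool) {u : ℝ} (hu : |u| ≤ M) :
    |T.X θ t η u - T.P t| ≤ 2 * |T.ρ t| := by
  unfold Conf.X
  rw [add_sub_cancel_left, abs_mul, mul_comm]
  exact mul_le_mul_of_nonneg_right (H.s_le η hu) (abs_nonneg _)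

/-- Different copies are far apart. -/
theorem far {t t' : T.Blk} {η η' : Bool} (h : (t, η) ≠ (t', η')) {u u' : ℝ} (hu : |u| ≤ M)
    (hu' : |u'| ≤ M) : (|T.ρ t| + |T.ρ t'|) / 2 ≤ |T.X θ t η u - T.X θ t' η' u'| := by
  by_cases ht : t = t'
  · subst ht
    have hη : η ≠ η' := fun h' => h (by rw [h'])
    have e1 : T.X θ t η u - T.X θ t η' u' = T.ρ t * sg η * (θ * u + θ * u' - 2) := by
      unfold Conf.X
      rw [sg_ne hη]
      ring
    have h1 := H.θu_le hu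
    have h2 := H.θu_le hu'
    have h3 : 1 ≤ |θ * u + θ * u' - 2| := by
      rw [abs_le] at h1 h2
      rw [abs_of_neg (by linarith)]
      linarith
    rw [e1, abs_mul, abs_mul, abs_sg]
    nlinarith [abs_nonneg (T.ρ t)]
  · have h1 := H.hT.sep t t' ht
    have h2 := H.X_near t η hu
    have h3 := H.X_near t' η' hu'
    have h4 : |T.P t - T.P t'| ≤ |T.X θ t η u - T.P t| + |T.X θ t η u - T.X θ t' η' u'| +
        |T.X θ t' η' u' - T.P t'| := by
      have := abs_add_three (-(T.X θ t η u - T.P t)) (T.X θ t η u - T.X θ t' η' u')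
        (T.X θ t' η' u' - T.P t')
      rw [abs_neg, show -(T.X θ t η u - T.P t) + (T.X θ t η u - T.X θ t' η' u') +
        (T.X θ t' η' u' - T.P t') = T.P t - T.P t' by ring] at this
      exact this
    linarith [abs_nonneg (T.ρ t), abs_nonneg (T.ρ t')]

/-- The arcs of the top family in the frame of a copy. -/
theorem glob (t : T.Blk) (η : Bool) (k : C.Blk) : ∃ d2 d1 d0 : ℝ, |d2| ≤ 3 * M * θ ∧
    |d1| ≤ 3 * M * θ ∧ |d0| ≤ 3 * M * θ ∧ ∀ u,
      κ * T.X θ t η u ^ 2 + θ * T.f (T.sym t (idx k)) (T.X θ t η u) =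
        T.Lam κ θ t η (T.X θ t η u) + (θ * T.ρ t) ^ 2 *
          (κ * u ^ 2 + σ k * u + τ k + (d2 * u ^ 2 + d1 * u + d0)) := by
  obtain ⟨a, β, γ, ha, hβ, hγ, h⟩ := H.hT.shape t (idx k)
  rw [H.hκ'] at ha
  rw [H.he'] at hγ
  have hθ := H.θ_pos
  have hθ1 := H.θ_le
  have hM := H.M1
  have hσ := H.Mσ k
  have hβ' : |sg η * β| ≤ θ ^ 2 := by rwa [abs_mul, abs_sg, one_mul]
  have hθ2 : θ ^ 2 ≤ M * θ := by nlinarith
  refine ⟨a * θ, -2 * a + sg η * β - σ k, (a - sg η * β + γ) / θ - τ k, ?_, ?_, ?_, fun u => ?_⟩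
  · rw [abs_mul, abs_of_pos hθ]
    refine mul_le_mul_of_nonneg_right ?_ hθ.le
    rw [abs_le] at ha hσ ⊢
    constructor <;> nlinarith
  · rw [abs_le] at ha hβ' ⊢
    constructor <;> linarith
  · have e1 : (a - sg η * β + γ) / θ - τ k = (a - sg η * β + γ - θ * τ k) / θ := by
      field_simp
    rw [e1, abs_div, abs_of_pos hθ, div_le_iff₀ hθ]
    rw [abs_le] at ha hβ' hγ ⊢
    constructor <;> nlinarith
  · have e1 := h (sg η * (θ * u - 1))
    have e2 := sg_sq η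
    have e3 := T.X_sub θ t η u 0
    unfold Conf.Lam
    rw [e3]
    unfold Conf.X at *
    rw [e1]
    field_simp
    linear_combination (T.ρ t ^ 2 * (a * θ * (θ * u - 1) ^ 2 + κ * θ ^ 2 * u ^ 2)) * e2

end StepHyp

end Pool.Agent.Work.MP_8a5de9_co
end

-- merged part: Pool.Agent.Work.MP_8a5de9_co.LBStep2
section
/-! The combined family satisfies the invariants. -/

namespace Pool.Agent.Work.MP_8a5de9_co

variable {j B : ℕ}

theorem comb_pt (C : Conf j) (T : Conf B) (idx : C.Blk → Fin B) (κ θ : ℝ) (t : T.Blk) (η : Bool)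
    (k : C.Blk) (s : ℝ) :
    (comb C T idx κ θ).P (t, η, k) + (comb C T idx κ θ).ρ (t, η, k) * s =
      T.X θ t η (C.P k + C.ρ k * s) := by
  simp only [comb, Conf.X]
  ring

theorem comb_sym_last (C : Conf j) (T : Conf B) (idx : C.Blk → Fin B) (κ θ : ℝ) (t : T.Blk)
    (η : Bool) (k : C.Blk) :
    (comb C T idx κ θ).sym (t, η, k) (Fin.last j) = Sum.inr (T.sym t (idx k)) := by
  simp only [comb, Fin.lastCases_last]

theorem comb_sym_cast (C : Conf j) (T : Conf B) (idx : C.Blk → Fin B) (κ θ : ℝ) (t : T.Blk)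
    (η : Bool) (k : C.Blk) (l : Fin j) :
    (comb C T idx κ θ).sym (t, η, k) l.castSucc = Sum.inl (t, η, C.sym k l) := by
  simp only [comb, Fin.lastCases_castSucc]

theorem comb_ρ_sq (C : Conf j) (T : Conf B) (idx : C.Blk → Fin B) (κ θ : ℝ) (t : T.Blk)
    (η : Bool) (k : C.Blk) :
    (comb C T idx κ θ).ρ (t, η, k) ^ 2 = (θ * T.ρ t) ^ 2 * C.ρ k ^ 2 := by
  simp only [comb]
  linear_combination (θ * T.ρ t * C.ρ k) ^ 2 * sg_sq η

theorem comb_f_inr (C : Conf j) (T : Conf B) (idx : C.Blk → Fin B) (κ θ : ℝ) (g : T.Sym)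
    (x : ℝ) : (comb C T idx κ θ).f (Sum.inr g) x = κ * x ^ 2 + θ * T.f g x := rfl

namespace StepHyp

variable {C : Conf j} {T : Conf B} {idx : C.Blk → Fin B} {κ0 e0 : Fin j → ℝ}
  {κ' e' : Fin B → ℝ} {σ τ : C.Blk → ℝ} {κ e κb ζ ε ε1 R N M θ : ℝ}
  (H : StepHyp C T idx κ0 e0 κ' e' σ τ κ e κb ζ ε ε1 R N M θ)

include H

theorem f_inl (t : T.Blk) (η : Bool) (a : C.Sym) (u : ℝ) :
    (comb C T idx κ θ).f (Sum.inl (t, η, a)) (T.X θ t η u) =
      T.Lam κ θ t η (T.X θ t η u) + (θ * T.ρ t) ^ 2 * C.f a u := by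
  simp only [comb, Sum.elim_inl, T.U_X H.θ_pos.ne' (H.hT.ρ_ne t)]

theorem L_at (t : T.Blk) (η : Bool) (k : C.Blk) (u : ℝ) :
    (comb C T idx κ θ).L (t, η, k) (T.X θ t η u) =
      T.Lam κ θ t η (T.X θ t η u) + (θ * T.ρ t) ^ 2 * C.L k u := by
  simp only [comb, T.U_X H.θ_pos.ne' (H.hT.ρ_ne t)]

theorem δ_pos (t : T.Blk) : 0 < (θ * T.ρ t) ^ 2 :=
  pow_pos_of_ne_zero_aux (mul_ne_zero H.θ_pos.ne' (H.hT.ρ_ne t))
where
  pow_pos_of_ne_zero_aux {x : ℝ} (hx : x ≠ 0) : 0 < x ^ 2 := by positivity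

theorem abs_ρ (t : T.Blk) (η : Bool) (k : C.Blk) :
    |(comb C T idx κ θ).ρ (t, η, k)| = θ * |T.ρ t| * |C.ρ k| := by
  simp only [comb]
  rw [abs_mul, abs_mul, abs_mul, abs_sg, abs_of_pos H.θ_pos, one_mul]

theorem ρ_sq_ge (k : C.Blk) : 1 ≤ M ^ 2 * C.ρ k ^ 2 := by
  have h := H.Mρ k
  rw [← sq_abs (C.ρ k), ← mul_pow]
  nlinarith

/-- In the window of a block its own top arc is the lowest top arc of the top block. -/
theorem cmp (t : T.Blk) (η : Bool) {k k' : C.Blk} (hk : k ≠ k') {s : ℝ} (hs : |s| ≤ R) :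
    T.f (T.sym t (idx k)) (T.X θ t η (C.P k + C.ρ k * s)) <
      T.f (T.sym t (idx k')) (T.X θ t η (C.P k + C.ρ k * s)) := by
  obtain ⟨d2, d1, d0, h2, h1, h0, h⟩ := H.glob t η k
  obtain ⟨d2', d1', d0', h2', h1', h0', h'⟩ := H.glob t η k'
  set u := C.P k + C.ρ k * s with hu
  have huM : |u| ≤ M := H.win_le k hs
  have hsep := H.hC.sep k k' hk
  have hh : N * (|C.ρ k| + |C.ρ k'|) ≤ |u - C.P k'| := by
    have e1 : C.P k - C.P k' = (u - C.P k') + -(C.ρ k * s) := by rw [hu]; ring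
    have e2 := abs_add_le (u - C.P k') (-(C.ρ k * s))
    rw [← e1, abs_neg, abs_mul] at e2
    linarith only [e2, hsep, mul_le_mul_of_nonneg_left hs (abs_nonneg (C.ρ k)),
      mul_nonneg H.R_pos.le (abs_nonneg (C.ρ k'))]
  have c1 := cmp_num (e := e) H.κb_lt H.NR H.R_pos.le H.N2 hs hh (H.hC.chain k' k hk.symm s hs)
  have g1 := H.hG k u
  have g2 := H.hG k' u
  have e3 : u - C.P k = C.ρ k * s := by rw [hu]; ring
  rw [e3] at g1
  have b1 := abs_quad_le h2 h1 h0 huM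
  have b2 := abs_quad_le h2' h1' h0' huM
  have hM := H.M1
  have hθ := H.θ_pos
  have b3 : 3 * M * θ * M ^ 2 + 3 * M * θ * M + 3 * M * θ ≤ 9 * M ^ 3 * θ := by
    have m1 : M ≤ M ^ 2 := le_self_pow₀ hM two_ne_zero
    have m2 : 0 ≤ M * θ := by positivity
    linarith only [mul_le_mul_of_nonneg_left m1 m2, mul_le_mul_of_nonneg_left (hM.trans m1) m2]
  have b4 : 18 * M ^ 3 * θ < C.ρ k ^ 2 := by
    have q1 := H.ρ_sq_ge k
    have q2 := H.θ1
    have q3 := H.ε1_one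
    have q4 : M ^ 2 * (18 * M ^ 3 * θ) < M ^ 2 * C.ρ k ^ 2 := by
      have : 0 ≤ θ * M ^ 5 := by positivity
      linarith only [this, q1, q2, q3]
    exact lt_of_mul_lt_mul_left q4 (by positivity)
  rw [abs_le] at b1 b2
  have b5 : κ * u ^ 2 + σ k * u + τ k + (d2 * u ^ 2 + d1 * u + d0) <
      κ * u ^ 2 + σ k' * u + τ k' + (d2' * u ^ 2 + d1' * u + d0') := by linarith
  have b6 := mul_lt_mul_of_pos_left b5 (H.δ_pos t)
  have b7 : θ * T.f (T.sym t (idx k)) (T.X θ t η u) <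
      θ * T.f (T.sym t (idx k')) (T.X θ t η u) := by linarith [h u, h' u]
  exact lt_of_mul_lt_mul_left b7 hθ.le

theorem cmp_le (t : T.Blk) (η : Bool) (k : C.Blk) (l : Fin B) {s : ℝ} (hs : |s| ≤ R) :
    T.f (T.sym t (idx k)) (T.X θ t η (C.P k + C.ρ k * s)) ≤
      T.f (T.sym t l) (T.X θ t η (C.P k + C.ρ k * s)) := by
  obtain ⟨k', rfl⟩ := H.surj l
  by_cases hk : k = k'
  · rw [hk]
  · exact (H.cmp t η hk hs).le

theorem shape_last (t : T.Blk) (η : Bool) (k : C.Blk) : ∃ a β γ : ℝ, |a - κ| ≤ ε1 ∧ |β| ≤ ε1 ∧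
    |γ - e| ≤ ε1 ∧ ∀ s,
      κ * T.X θ t η (C.P k + C.ρ k * s) ^ 2 +
        θ * T.f (T.sym t (idx k)) (T.X θ t η (C.P k + C.ρ k * s)) =
      (comb C T idx κ θ).L (t, η, k) (T.X θ t η (C.P k + C.ρ k * s)) +
        (comb C T idx κ θ).ρ (t, η, k) ^ 2 * (a * s ^ 2 + β * s + γ) := by
  obtain ⟨d2, d1, d0, h2, h1, h0, h⟩ := H.glob t η k
  have hM := H.M1
  have hθ := H.θ_pos
  have hP := H.P_le k
  have hρ := H.hC.ρ_ne k
  have hρ' : 0 < |C.ρ k| := abs_pos.2 hρ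
  have q2 := H.θ1
  have m2 : M ≤ M ^ 2 := by nlinarith
  have m3 : M ^ 2 ≤ M ^ 3 := by nlinarith
  have m5 : M ^ 3 ≤ M ^ 5 := pow_le_pow_right₀ hM (by norm_num)
  have hε : 9 * M ^ 5 * θ ≤ ε1 := by
    have : 0 ≤ θ * M ^ 5 := by positivity
    linarith
  refine ⟨κ + d2, (2 * d2 * C.P k + d1) / C.ρ k,
    e + (d2 * C.P k ^ 2 + d1 * C.P k + d0) / C.ρ k ^ 2, ?_, ?_, ?_, fun s => ?_⟩
  · rw [add_sub_cancel_left]
    nlinarith
  · have b1 := abs_quad_le (a := 0) (A := 0) (β := 2 * d2) (B := 2 * (3 * M * θ)) (by simp)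
      (by rw [abs_mul]; norm_num; linarith) h1 hP
    rw [zero_mul, zero_add] at b1
    rw [abs_div, div_le_iff₀ hρ']
    have b2 := H.Mρ k
    have b3 : |2 * d2 * C.P k + d1| ≤ 9 * M ^ 2 * θ := by nlinarith
    have b4 : 9 * M ^ 3 * θ ≤ ε1 := by nlinarith
    have b5 : 9 * M ^ 2 * θ * 1 ≤ 9 * M ^ 2 * θ * (M * |C.ρ k|) :=
      mul_le_mul_of_nonneg_left b2 (by positivity)
    nlinarith
  · have b1 := abs_quad_le h2 h1 h0 hP
    rw [add_sub_cancel_left, abs_div, abs_of_pos (a := C.ρ k ^ 2) (by positivity),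
      div_le_iff₀ (by positivity)]
    have b2 := H.ρ_sq_ge k
    have b3 : |d2 * C.P k ^ 2 + d1 * C.P k + d0| ≤ 9 * M ^ 3 * θ := by
      have : 0 ≤ M * θ := by positivity
      nlinarith
    have b5 : 9 * M ^ 3 * θ * 1 ≤ 9 * M ^ 3 * θ * (M ^ 2 * C.ρ k ^ 2) :=
      mul_le_mul_of_nonneg_left b2 (by positivity)
    have b6 := mul_le_mul_of_nonneg_right hε (sq_nonneg (C.ρ k))
    nlinarith
  · rw [h, H.L_at, comb_ρ_sq, ← H.hG]
    field_simp
    ring

theorem sep (b b' : (comb C T idx κ θ).Blk) (hb : b ≠ b') :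
    (N + R) * (|(comb C T idx κ θ).ρ b| + |(comb C T idx κ θ).ρ b'|) ≤
      |(comb C T idx κ θ).P b - (comb C T idx κ θ).P b'| := by
  obtain ⟨t, η, k⟩ := b
  obtain ⟨t', η', k'⟩ := b'
  rw [H.abs_ρ, H.abs_ρ]
  change _ ≤ |T.X θ t η (C.P k) - T.X θ t' η' (C.P k')|
  have hθ := H.θ_pos
  by_cases h : (t, η) = (t', η')
  · obtain ⟨rfl, rfl⟩ := Prod.mk.inj h
    have hk : k ≠ k' := fun h' => hb (by rw [h'])
    rw [T.abs_X_sub hθ]
    have h1 := mul_le_mul_of_nonneg_left (H.hC.sep k k' hk)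
      (show 0 ≤ θ * |T.ρ t| by positivity)
    linarith
  · have h1 := H.far h (H.P_le k) (H.P_le k')
    have hNR : 0 ≤ N + R := by linarith [H.N1, H.R_pos]
    have key : ∀ (t : T.Blk) (k : C.Blk),
        (N + R) * (θ * |T.ρ t| * |C.ρ k|) ≤ |T.ρ t| / 2 := fun t k => by
      have a1 : θ * ((N + R) * |C.ρ k|) ≤ θ * ((N + R) * M) :=
        mul_le_mul_of_nonneg_left (mul_le_mul_of_nonneg_left (H.ρ_le k) hNR) hθ.le
      have a2 := mul_le_mul_of_nonneg_left (a1.trans H.θ2) (abs_nonneg (T.ρ t))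
      linarith
    linarith [key t k, key t' k']

/-- Top arcs of different top blocks. -/
theorem top_cmp {t t' : T.Blk} (ht : t ≠ t') (η η' : Bool) (k k' : C.Blk) {u : ℝ}
    (hu : |u| ≤ M) :
    θ * T.f (T.sym t' (idx k')) (T.X θ t' η' u) ≤ θ * T.f (T.sym t (idx k)) (T.X θ t' η' u) +
      ζ / 4 * (T.X θ t' η' u - T.X θ t η (C.P k)) ^ 2 := by
  have hM := H.M1
  have hθ := H.θ_pos
  have hθ1 := H.θ_le
  have hθ2 : θ ^ 2 ≤ 1 := by nlinarith
  have bnd : ∀ (k : C.Blk) {a γ : ℝ}, |a - κ' (idx k)| ≤ θ ^ 2 → |γ - e' (idx k)| ≤ θ ^ 2 →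
      |a| ≤ 2 * M ∧ |γ| ≤ 3 * M := fun k a γ ha hγ => by
    rw [H.hκ'] at ha
    rw [H.he'] at hγ
    have h1 := H.Mσ k
    have h2 : |θ * τ k| ≤ M := by
      rw [abs_mul, abs_of_pos hθ]
      nlinarith [H.Mτ k, abs_nonneg (τ k)]
    rw [abs_le] at ha hγ h1 h2 ⊢
    rw [abs_le]
    refine ⟨⟨?_, ?_⟩, ?_, ?_⟩ <;> linarith
  obtain ⟨a, β, γ, ha, hβ, hγ, h⟩ := H.hT.shape t (idx k)
  obtain ⟨a', β', γ', ha', hβ', hγ', h'⟩ := H.hT.shape t' (idx k')
  have hs := H.s_le η' hu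
  have hc := H.hT.chain t t' ht _ hs
  have e' := h' (sg η' * (θ * u - 1))
  change T.f _ (T.X θ t' η' u) = T.L t' (T.X θ t' η' u) + _ at e'
  change T.L t' (T.X θ t' η' u) + _ ≤ T.L t (T.X θ t' η' u) + M * (T.X θ t' η' u - _) ^ 2 at hc
  have n1 := H.X_near t' η' hu
  have n2 := H.X_near t η (H.P_le k)
  set x := T.X θ t' η' u with hx
  set y := T.X θ t η (C.P k) with hy
  have hρ := H.hT.ρ_ne t
  have e1 := h ((x - T.P t) / T.ρ t)
  rw [show T.P t + T.ρ t * ((x - T.P t) / T.ρ t) = x by field_simp; ring] at e1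
  have e2 : T.ρ t ^ 2 * (a * ((x - T.P t) / T.ρ t) ^ 2 + β * ((x - T.P t) / T.ρ t) + γ) =
      a * (x - T.P t) ^ 2 + β * T.ρ t * (x - T.P t) + γ * T.ρ t ^ 2 := by
    field_simp
  rw [e2] at e1
  have s1 := H.hT.sep t t' ht
  have s2 : |T.P t - T.P t'| ≤ |x - T.P t| + |x - T.P t'| := by
    have := abs_add_le (-(x - T.P t)) (x - T.P t')
    rwa [abs_neg, show -(x - T.P t) + (x - T.P t') = T.P t - T.P t' by ring] at this
  have r1 := abs_nonneg (T.ρ t)
  have r2 := abs_nonneg (T.ρ t')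
  have s3 : |T.ρ t| + |T.ρ t'| ≤ |x - T.P t| := by linarith
  have c1 := top_num hM hs s3 (bnd k ha hγ).1 (hβ.trans hθ2) (bnd k ha hγ).2 (bnd k' ha' hγ').1
    (hβ'.trans hθ2) (bnd k' ha' hγ').2 hc
  rw [← e', ← e1] at c1
  have s4 : |x - T.P t| ≤ |x - y| + |y - T.P t| := abs_sub_le _ _ _
  have s5 : |x - T.P t| ≤ 2 * |x - y| := by linarith
  have s6 : (x - T.P t) ^ 2 ≤ 4 * (x - y) ^ 2 := by
    rw [← sq_abs (x - T.P t), ← sq_abs (x - y)]
    linarith only [pow_le_pow_left₀ (abs_nonneg (x - T.P t)) s5 2]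
  have m5 : M ≤ M ^ 5 := by
    simpa using pow_le_pow_right₀ hM (show 1 ≤ 5 by norm_num)
  have q1 : θ * (96 * M) ≤ ζ / 4 := by
    have := mul_le_mul_of_nonneg_left m5 hθ.le
    linarith [H.θ1, H.ε1_ζ]
  have q2 := mul_le_mul_of_nonneg_left c1 hθ.le
  have q3 := mul_le_mul_of_nonneg_left s6 (show 0 ≤ θ * (24 * M) by positivity)
  have q4 := mul_le_mul_of_nonneg_right q1 (sq_nonneg (x - y))
  linarith

end StepHyp

end Pool.Agent.Work.MP_8a5de9_co
end

-- merged part: Pool.Agent.Work.MP_8a5de9_co.LBStep3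
section
/-! The combined family satisfies the invariants, and the induction. -/

namespace Pool.Agent.Work.MP_8a5de9_co

variable {j B : ℕ}

namespace StepHyp

variable {C : Conf j} {T : Conf B} {idx : C.Blk → Fin B} {κ0 e0 : Fin j → ℝ}
  {κ' e' : Fin B → ℝ} {σ τ : C.Blk → ℝ} {κ e κb ζ ε ε1 R N M θ : ℝ}
  (H : StepHyp C T idx κ0 e0 κ' e' σ τ κ e κb ζ ε ε1 R N M θ)

include H

theorem chain (b b' : (comb C T idx κ θ).Blk) (hb : b ≠ b') (s : ℝ) (hs : |s| ≤ R) :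
    (comb C T idx κ θ).L b' ((comb C T idx κ θ).P b' + (comb C T idx κ θ).ρ b' * s) +
        (κ + ζ) * ((comb C T idx κ θ).ρ b' * s) ^ 2 ≤
      (comb C T idx κ θ).L b ((comb C T idx κ θ).P b' + (comb C T idx κ θ).ρ b' * s) +
        (κ + ζ) * ((comb C T idx κ θ).P b' + (comb C T idx κ θ).ρ b' * s -
          (comb C T idx κ θ).P b) ^ 2 := by
  have hsep := H.sep b b' hb
  obtain ⟨t, η, k⟩ := b
  obtain ⟨t', η', k'⟩ := b'
  obtain ⟨a, β, γ, ha, hβ, hγ, h⟩ := H.shape_last t η k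
  obtain ⟨a', β', γ', ha', hβ', hγ', h'⟩ := H.shape_last t' η' k'
  have hpt := comb_pt C T idx κ θ t' η' k' s
  have hp0 := comb_pt C T idx κ θ t η k
  have hρ : (comb C T idx κ θ).ρ (t, η, k) ≠ 0 := by
    rw [← abs_pos, H.abs_ρ]
    have := H.θ_pos
    have := abs_pos.2 (H.hT.ρ_ne t)
    have := abs_pos.2 (H.hC.ρ_ne k)
    positivity
  have hP0 : (comb C T idx κ θ).P (t, η, k) = T.X θ t η (C.P k) := rfl
  generalize (comb C T idx κ θ).P (t, η, k) = P0 at *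
  generalize (comb C T idx κ θ).ρ (t, η, k) = ρ0 at *
  generalize (comb C T idx κ θ).L (t, η, k) = L0 at *
  generalize (comb C T idx κ θ).P (t', η', k') = P1 at *
  generalize (comb C T idx κ θ).ρ (t', η', k') = ρ1 at *
  generalize (comb C T idx κ θ).L (t', η', k') = L1 at *
  set x := P1 + ρ1 * s with hx
  have e1 := h ((x - P0) / ρ0)
  rw [← hp0, show P0 + ρ0 * ((x - P0) / ρ0) = x by field_simp; ring] at e1
  have e2 : ρ0 ^ 2 * (a * ((x - P0) / ρ0) ^ 2 + β * ((x - P0) / ρ0) + γ) =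
      a * (x - P0) ^ 2 + β * ρ0 * (x - P0) + γ * ρ0 ^ 2 := by
    field_simp
  rw [e2] at e1
  have e3 := h' s
  rw [← hpt] at e3
  have hh : N * (|ρ0| + |ρ1|) ≤ |x - P0| := by
    have e4 := abs_add_le (-(x - P0)) (ρ1 * s)
    rw [abs_neg, abs_mul, show -(x - P0) + ρ1 * s = P0 - P1 by rw [hx]; ring] at e4
    linarith only [e4, hsep, mul_le_mul_of_nonneg_left hs (abs_nonneg ρ1),
      mul_nonneg H.R_pos.le (abs_nonneg ρ0)]
  have hE : ∀ {γ : ℝ}, |γ - e| ≤ ε1 → |γ| ≤ |e| + 1 := fun {γ} hγ => by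
    have := abs_add_le (γ - e) e
    rw [sub_add_cancel] at this
    linarith [H.ε1_one]
  refine chain_num H.ζ_pos H.N1 H.N3 hs hh (ha.trans H.ε1_ζ) (hβ.trans H.ε1_one) (hE hγ)
    (ha'.trans H.ε1_one) (hβ'.trans H.ε1_one) (hE hγ') ?_
  rw [← e1, ← e3]
  by_cases ht : t = t'
  · subst ht
    have c1 := mul_le_mul_of_nonneg_left (H.cmp_le t η' k' (idx k) hs) H.θ_pos.le
    rw [← hpt] at c1
    have : 0 ≤ ζ / 4 * (x - P0) ^ 2 := by
      have := H.ζ_pos
      positivity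
    linarith
  · have c1 := H.top_cmp ht η η' k k' (H.win_le k' hs)
    rw [← hpt, ← hP0] at c1
    linarith

theorem above (b : (comb C T idx κ θ).Blk) (s : ℝ) (hs : |s| ≤ R) (a : (comb C T idx κ θ).Sym)
    (ha : ∀ l, a ≠ (comb C T idx κ θ).sym b l)
    (hd : |(comb C T idx κ θ).P b + (comb C T idx κ θ).ρ b * s - (comb C T idx κ θ).c a| ≤
      (comb C T idx κ θ).r a) :
    ∃ l, (comb C T idx κ θ).f ((comb C T idx κ θ).sym b l)
        ((comb C T idx κ θ).P b + (comb C T idx κ θ).ρ b * s) <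
      (comb C T idx κ θ).f a ((comb C T idx κ θ).P b + (comb C T idx κ θ).ρ b * s) := by
  obtain ⟨t, η, k⟩ := b
  rw [comb_pt] at hd ⊢
  have hθ := H.θ_pos
  have hu := H.win_le k hs
  rcases a with ⟨t', η', a⟩ | g
  · change |_ - T.X θ t' η' (C.c a)| ≤ θ * |T.ρ t'| * C.r a at hd
    have hρ' := abs_pos.2 (H.hT.ρ_ne t')
    by_cases h : (t, η) = (t', η')
    · obtain ⟨rfl, rfl⟩ := Prod.mk.inj h
      rw [T.abs_X_sub hθ] at hd
      obtain ⟨l, hl⟩ := H.hC.above k s hs a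
        (fun l hl => ha l.castSucc (by rw [comb_sym_cast, hl]))
        (le_of_mul_le_mul_left hd (by positivity))
      refine ⟨l.castSucc, ?_⟩
      rw [comb_sym_cast, H.f_inl, H.f_inl]
      linarith [mul_lt_mul_of_pos_left hl (H.δ_pos t)]
    · exfalso
      set x := T.X θ t η (C.P k + C.ρ k * s) with hx
      have e1 := T.X_U hθ.ne' (H.hT.ρ_ne t') η' x
      rw [← e1, T.abs_X_sub hθ] at hd
      have h1 := le_of_mul_le_mul_left hd (by positivity)
      have h2 : |T.U θ t' η' x| ≤ M := by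
        have := abs_add_le (T.U θ t' η' x - C.c a) (C.c a)
        rw [sub_add_cancel] at this
        linarith [H.Mc a]
      have h3 := H.far h hu h2
      rw [e1, ← hx, sub_self, abs_zero] at h3
      linarith [abs_nonneg (T.ρ t)]
  · refine ⟨Fin.last j, ?_⟩
    rw [comb_sym_last, comb_f_inr, comb_f_inr]
    have key : T.f (T.sym t (idx k)) (T.X θ t η (C.P k + C.ρ k * s)) <
        T.f g (T.X θ t η (C.P k + C.ρ k * s)) := by
      by_cases hg : ∃ l, g = T.sym t l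
      · obtain ⟨l, rfl⟩ := hg
        obtain ⟨k', rfl⟩ := H.surj l
        refine H.cmp t η (fun hk => ha (Fin.last j) ?_) hs
        rw [comb_sym_last, hk]
      · push Not at hg
        obtain ⟨l, hl⟩ := H.hT.above t _ (H.s_le η hu) g hg hd
        exact (H.cmp_le t η k l hs).trans_lt hl
    linarith [mul_lt_mul_of_pos_left key hθ]

theorem good : (comb C T idx κ θ).Good (Fin.snoc κ0 κ) (Fin.snoc e0 e) (κ + ζ) ε R (N + R) where
  quad := by
    rintro (⟨t, η, a⟩ | g)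
    · obtain ⟨A, B', D, h⟩ := H.hC.quad a
      obtain ⟨y, m, h'⟩ := H.hT.lin t
      let p := sg η / T.ρ t / θ
      let q := (1 - T.P t / T.ρ t * sg η) / θ
      have hU : ∀ x, T.U θ t η x = p * x + q := fun x => by
        simp only [Conf.U, p, q]
        ring
      refine ⟨(θ * T.ρ t) ^ 2 * (A * p ^ 2),
        2 * κ * T.X θ t η 0 + θ * m + (θ * T.ρ t) ^ 2 * (2 * A * p * q + B' * p),
        -κ * T.X θ t η 0 ^ 2 + θ * y + (θ * T.ρ t) ^ 2 * (A * q ^ 2 + B' * q + D), fun x => ?_⟩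
      simp only [comb, Sum.elim_inl, Conf.Lam, h, h', hU]
      ring
    · obtain ⟨A, B', D, h⟩ := H.hT.quad g
      refine ⟨κ + θ * A, θ * B', θ * D, fun x => ?_⟩
      rw [comb_f_inr, h]
      ring
  lin := by
    rintro ⟨t, η, k⟩
    obtain ⟨y0, m0, h⟩ := H.hC.lin k
    obtain ⟨y, m, h'⟩ := H.hT.lin t
    let p := sg η / T.ρ t / θ
    let q := (1 - T.P t / T.ρ t * sg η) / θ
    have hU : ∀ x, T.U θ t η x = p * x + q := fun x => by
      simp only [Conf.U, p, q]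
      ring
    refine ⟨-κ * T.X θ t η 0 ^ 2 + θ * y + (θ * T.ρ t) ^ 2 * (y0 + m0 * q),
      2 * κ * T.X θ t η 0 + θ * m + (θ * T.ρ t) ^ 2 * (m0 * p), fun x => ?_⟩
    simp only [comb, Conf.Lam, h, h', hU]
    ring
  r_pos := by
    rintro (⟨t, η, a⟩ | g)
    · change 0 < θ * |T.ρ t| * C.r a
      have := H.θ_pos
      have := abs_pos.2 (H.hT.ρ_ne t)
      have := H.hC.r_pos a
      positivity
    · exact H.hT.r_pos g
  ρ_ne := by
    rintro ⟨t, η, k⟩
    rw [← abs_pos, H.abs_ρ]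
    have := H.θ_pos
    have := abs_pos.2 (H.hT.ρ_ne t)
    have := abs_pos.2 (H.hC.ρ_ne k)
    positivity
  shape := by
    rintro ⟨t, η, k⟩ l
    induction l using Fin.lastCases with
    | last =>
      obtain ⟨a, β, γ, ha, hβ, hγ, h⟩ := H.shape_last t η k
      refine ⟨a, β, γ, by simpa using ha.trans H.ε1_le, hβ.trans H.ε1_le,
        by simpa using hγ.trans H.ε1_le, fun s => ?_⟩
      rw [comb_pt, comb_sym_last, comb_f_inr, h]
    | cast l =>
      obtain ⟨a, β, γ, ha, hβ, hγ, h⟩ := H.hC.shape k l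
      refine ⟨a, β, γ, by simpa using ha, hβ, by simpa using hγ, fun s => ?_⟩
      rw [comb_pt, comb_sym_cast, H.f_inl, H.L_at, comb_ρ_sq, h]
      ring
  dom := by
    rintro ⟨t, η, k⟩ l s hs
    rw [comb_pt]
    induction l using Fin.lastCases with
    | last =>
      rw [comb_sym_last]
      exact H.hT.dom t (idx k) _ (H.s_le η (H.win_le k hs))
    | cast l =>
      rw [comb_sym_cast]
      change |_ - T.X θ t η (C.c (C.sym k l))| < θ * |T.ρ t| * C.r (C.sym k l)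
      rw [T.abs_X_sub H.θ_pos]
      have := H.θ_pos
      have := abs_pos.2 (H.hT.ρ_ne t)
      exact mul_lt_mul_of_pos_left (H.hC.dom k l s hs) (by positivity)
  above := H.above
  sep := H.sep
  chain := H.chain

end StepHyp

theorem Conf.Good.mono_sep {C : Conf j} {κ e : Fin j → ℝ} {κs ε R Λ Λ' : ℝ}
    (h : C.Good κ e κs ε R Λ) (hΛ : Λ' ≤ Λ) : C.Good κ e κs ε R Λ' :=
  { h with
    sep := fun b b' hb => (mul_le_mul_of_nonneg_right hΛ (by positivity)).trans (h.sep b b' hb) }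

theorem exists_bound {α : Type} [Finite α] (g : α → ℝ) : ∃ M, 1 ≤ M ∧ ∀ a, g a ≤ M := by
  obtain ⟨M, hM⟩ := (Set.finite_range g).bddAbove
  exact ⟨max 1 M, le_max_left _ _, fun a => (hM ⟨a, rfl⟩).trans (le_max_right _ _)⟩

theorem exists_conf : ∀ (i j : ℕ) (κ e : Fin j → ℝ) (κs ε R Λ : ℝ), StrictMono κ →
    (∀ l, κ l < κs) → 0 < ε → 0 < R → 0 < Λ → ∃ C : Conf j, C.Good κ e κs ε R Λ ∧
      Fintype.card C.Blk = nB i j ∧ Fintype.card C.Sym * 2 ^ i = j * nB i j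
  | 0, j, κ, e, κs, ε, R, Λ, _, _, hε, hR, _ =>
    ⟨Conf.single κ e R, Conf.single_good κ e κs Λ hε hR, by simp [Conf.single, nB_zero],
      by rw [nB_zero, pow_zero, mul_one, mul_one]; exact Fintype.card_fin j⟩
  | i + 1, 0, κ, e, κs, ε, R, Λ, _, _, hε, hR, _ =>
    ⟨Conf.single κ e R, Conf.single_good κ e κs Λ hε hR, by simp [Conf.single, nB_succ_zero],
      by simp [Conf.single]⟩
  | i + 1, j + 1, κ, e, κs, ε, R, Λ, hκ, hκs, hε, hR, hΛ => by
    classical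
    set k := κ (Fin.last j) with hk
    set ej := e (Fin.last j) with hej
    obtain ⟨κb, hκb, hκb'⟩ : ∃ κb, κb < k ∧ ∀ l : Fin j, κ l.castSucc < κb := by
      rcases j with _ | j
      · exact ⟨k - 1, by linarith, fun l => l.elim0⟩
      · have h1 : κ (Fin.last j).castSucc < k := hκ (Fin.castSucc_lt_last _)
        refine ⟨(κ (Fin.last j).castSucc + k) / 2, by linarith, fun l => ?_⟩
        have h2 : κ l.castSucc ≤ κ (Fin.last j).castSucc :=
          hκ.monotone (Fin.castSucc_le_castSucc_iff.2 (Fin.le_last l))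
        linarith
    have hζ : 0 < κs - k := sub_pos.2 (hκs _)
    obtain ⟨N, N1, NR, NΛ, N2, N3⟩ := exists_N (e := ej) hκb hζ hR hΛ
    obtain ⟨C, hC, cB, cS⟩ := exists_conf (i + 1) j (fun l => κ l.castSucc)
      (fun l => e l.castSucc) κb ε R (N + R) (fun a b h => hκ (Fin.castSucc_lt_castSucc_iff.2 h))
      hκb' hε hR (by linarith)
    choose y m hym using hC.lin
    let σ : C.Blk → ℝ := fun b => m b - 2 * k * C.P b
    let τ : C.Blk → ℝ := fun b => y b + k * C.P b ^ 2 + ej * C.ρ b ^ 2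
    have hG : ∀ b u, C.L b u + k * (u - C.P b) ^ 2 + ej * C.ρ b ^ 2 =
        k * u ^ 2 + σ b * u + τ b := fun b u => by
      simp only [hym, σ, τ]
      ring
    have hlt : ∀ b b', b ≠ b' → σ b * C.P b + τ b < σ b' * C.P b + τ b' := fun b b' hb => by
      have h0 : |(0 : ℝ)| ≤ R := by simpa using hR.le
      have hsep := hC.sep b b' hb
      have c1 := cmp_num (e := ej) (ρ := C.ρ b) (ρ' := C.ρ b') (h := C.P b + C.ρ b * 0 - C.P b')
        hκb NR hR.le N2 h0 (by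
          rw [mul_zero, add_zero]
          have := abs_nonneg (C.ρ b)
          have := abs_nonneg (C.ρ b')
          nlinarith) (hC.chain b' b hb.symm 0 h0)
      rw [mul_zero, add_zero] at c1
      have g1 := hG b (C.P b)
      have g2 := hG b' (C.P b)
      have := hC.ρ_ne b
      have : 0 < C.ρ b ^ 2 := by positivity
      rw [sub_self] at g1
      linarith
    have hinj : Function.Injective fun b => -σ b / 2 := fun b b' h => by
      by_contra hb
      have h1 := hlt b b' hb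
      have h2 := hlt b' b (Ne.symm hb)
      have h3 : σ b = σ b' := by
        simp only at h
        linarith
      rw [h3] at h1 h2
      linarith
    let _ : LinearOrder C.Blk := LinearOrder.lift' _ hinj
    let E := monoEquivOfFin C.Blk cB
    obtain ⟨M, M1, hM⟩ := exists_bound (α := C.Blk ⊕ C.Blk ⊕ C.Blk ⊕ C.Blk ⊕ C.Sym)
      (Sum.elim (fun b => |C.P b| + (R + 1) * |C.ρ b|) (Sum.elim (fun b => |C.ρ b|⁻¹)
        (Sum.elim (fun b => |σ b|) (Sum.elim (fun b => |τ b|) fun a => |C.c a| + C.r a))))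
    have hε1 : 0 < min ε (min 1 ((κs - k) / 4)) := lt_min hε (lt_min one_pos (by linarith))
    obtain ⟨θ1, hθ1, hθ1'⟩ := exists_theta (Z := 96 * M ^ 5) (by positivity) hε1
    have hNM : 0 ≤ (N + R) * M := by
      have : 0 ≤ N + R := by linarith
      positivity
    obtain ⟨θ2, hθ2, hθ2'⟩ := exists_theta hNM (show (0 : ℝ) < 1 / 2 by norm_num)
    set θ := min θ1 θ2 with hθ
    have hθ0 : 0 < θ := lt_min hθ1 hθ2
    obtain ⟨T, hT, cB', cS'⟩ := exists_conf i (nB (i + 1) j) (fun l => -σ (E l) / 2)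
      (fun l => σ (E l) / 2 + θ * τ (E l)) M (θ ^ 2) 2 6 (fun a b h => E.strictMono h)
      (fun l => by
        have h1 : |σ (E l)| ≤ M := hM (Sum.inr (Sum.inr (Sum.inl _)))
        have := neg_le_abs (σ (E l))
        linarith) (by positivity) two_pos (by norm_num)
    have H : StepHyp C T E.symm (fun l => κ l.castSucc) (fun l => e l.castSucc)
        (fun l => -σ (E l) / 2) (fun l => σ (E l) / 2 + θ * τ (E l)) σ τ k ej κb (κs - k) ε
        (min ε (min 1 ((κs - k) / 4))) R N M θ :=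
      { hC := hC
        hT := hT
        surj := E.symm.surjective
        hG := hG
        hκ' := fun b => by simp
        he' := fun b => by simp
        κb_lt := hκb
        ζ_pos := hζ
        R_pos := hR
        N1 := N1
        NR := NR
        N2 := N2
        N3 := N3
        M1 := M1
        MP := fun b => hM (Sum.inl b)
        Mρ := fun b => by
          have h1 : |C.ρ b|⁻¹ ≤ M := hM (Sum.inr (Sum.inl b))
          have h2 := abs_pos.2 (hC.ρ_ne b)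
          rwa [inv_le_iff_one_le_mul₀ h2] at h1
        Mσ := fun b => hM (Sum.inr (Sum.inr (Sum.inl b)))
        Mτ := fun b => hM (Sum.inr (Sum.inr (Sum.inr (Sum.inl b))))
        Mc := fun a => hM (Sum.inr (Sum.inr (Sum.inr (Sum.inr a))))
        θ_pos := hθ0
        ε1_le := min_le_left _ _
        ε1_one := (min_le_right _ _).trans (min_le_left _ _)
        ε1_ζ := (min_le_right _ _).trans (min_le_right _ _)
        θ1 := (mul_le_mul_of_nonneg_right (min_le_left _ _) (by positivity)).trans_lt hθ1'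
        θ2 := ((mul_le_mul_of_nonneg_right (min_le_right _ _) hNM).trans_lt hθ2').le }
    refine ⟨comb C T E.symm k θ, ?_, ?_, ?_⟩
    · have h := H.good.mono_sep (show Λ ≤ N + R by linarith)
      rw [add_sub_cancel] at h
      have e1 : (Fin.snoc (fun l => κ l.castSucc) k : Fin (j + 1) → ℝ) = κ := Fin.snoc_init_self κ
      have e2 : (Fin.snoc (fun l => e l.castSucc) ej : Fin (j + 1) → ℝ) = e := Fin.snoc_init_self e
      rwa [e1, e2] at h
    · change Fintype.card (T.Blk × Bool × C.Blk) = _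
      rw [Fintype.card_prod, Fintype.card_prod, cB, cB', nB_succ_succ, Fintype.card_bool]
      ring
    · change Fintype.card ((T.Blk × Bool × C.Sym) ⊕ T.Sym) * _ = _
      rw [Fintype.card_sum, Fintype.card_prod, Fintype.card_prod, cB', nB_succ_succ,
        Fintype.card_bool]
      have : (nB i (nB (i + 1) j) * (2 * Fintype.card C.Sym) + Fintype.card T.Sym) * 2 ^ (i + 1) =
          nB i (nB (i + 1) j) * 2 * (Fintype.card C.Sym * 2 ^ (i + 1)) +
            Fintype.card T.Sym * 2 ^ i * 2 := by ring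
      rw [this, cS, cS']
      ring

end Pool.Agent.Work.MP_8a5de9_co
end

-- merged part: Pool.Agent.Work.MP_8a5de9_co.LBPlane
section
/-! Families of parabolic arcs whose lower envelope has many transversal breakpoints. -/

namespace Pool.Agent.Work.MP_8a5de9_co

/-- A quadratic function. -/
def qv (A B D x : ℝ) : ℝ := A * x ^ 2 + B * x + D

/-- Parabolic arcs with designated breakpoints `x b` of the lower envelope. -/
structure Plane where
  Sym : Type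
  Blk : Type
  [fS : Fintype Sym]
  [fB : Fintype Blk]
  A : Sym → ℝ
  B : Sym → ℝ
  D : Sym → ℝ
  c : Sym → ℝ
  r : Sym → ℝ
  x : Blk → ℝ
  a0 : Blk → Sym
  a1 : Blk → Sym
  r_pos : ∀ a, 0 < r a
  inj : Function.Injective x
  val_eq : ∀ b, qv (A (a0 b)) (B (a0 b)) (D (a0 b)) (x b) = qv (A (a1 b)) (B (a1 b)) (D (a1 b)) (x b)
  slope : ∀ b, 2 * A (a0 b) * x b + B (a0 b) ≠ 2 * A (a1 b) * x b + B (a1 b)
  in0 : ∀ b, |x b - c (a0 b)| < r (a0 b)
  in1 : ∀ b, |x b - c (a1 b)| < r (a1 b)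
  above : ∀ b a, a ≠ a0 b → a ≠ a1 b → |x b - c a| ≤ r a →
    qv (A (a0 b)) (B (a0 b)) (D (a0 b)) (x b) < qv (A a) (B a) (D a) (x b)

attribute [instance] Plane.fS Plane.fB

theorem exists_root {a β γ : ℝ} (ha : |a - 1| ≤ 1 / 5) (hβ : |β| ≤ 1 / 5) (hγ : |γ + 1| ≤ 1 / 5) :
    ∃ s, |s| ≤ 2 ∧ a * s ^ 2 + β * s + γ = 0 ∧ 2 * a * s + β ≠ 0 := by
  rw [abs_le] at ha hβ hγ
  have hc : ContinuousOn (fun s : ℝ => a * s ^ 2 + β * s + γ) (Set.Icc 0 2) := by fun_prop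
  obtain ⟨s, hs, h⟩ := intermediate_value_Icc (show (0 : ℝ) ≤ 2 by norm_num) hc
    (show (0 : ℝ) ∈ _ from ⟨by linarith, by linarith⟩)
  simp only at h
  refine ⟨s, abs_le.2 ⟨by linarith [hs.1], hs.2⟩, h, fun h0 => ?_⟩
  have h1 : a * s ^ 2 - γ = 0 := by linear_combination s * h0 - h
  nlinarith [sq_nonneg s]

theorem slope_of_eq {A B D A' B' D' P ρ a β γ s : ℝ}
    (h : ∀ s, qv A' B' D' (P + ρ * s) - qv A B D (P + ρ * s) = ρ ^ 2 * (a * s ^ 2 + β * s + γ))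
    (hρ : ρ ≠ 0) (hs : 2 * a * s + β ≠ 0) :
    2 * A * (P + ρ * s) + B ≠ 2 * A' * (P + ρ * s) + B' := fun h0 => by
  have h1 := h (s + 1)
  have h2 := h (s - 1)
  simp only [qv] at h1 h2
  have h3 : ρ ^ 2 * (2 * (2 * a * s + β)) = 0 := by linear_combination h2 - h1 - 2 * ρ * h0
  exact hs (by simpa [hρ] using h3)

theorem exists_plane0 (i : ℕ) : ∃ P : Plane, Fintype.card P.Blk = nB i 2 ∧
    Fintype.card P.Sym * 2 ^ i = 2 * nB i 2 := by
  obtain ⟨C, hC, cB, cS⟩ := exists_conf i 2 ![0, 1] ![0, -1] 2 (1 / 10) 2 3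
    (by rw [Fin.strictMono_iff_lt_succ]; intro l; fin_cases l; simp)
    (fun l => by fin_cases l <;> simp) (by norm_num) (by norm_num) (by norm_num)
  choose A B D hq using hC.quad
  have hq' : ∀ a x, C.f a x = qv (A a) (B a) (D a) x := hq
  have key : ∀ b, ∃ s, |s| ≤ 2 ∧
      C.f (C.sym b 0) (C.P b + C.ρ b * s) = C.f (C.sym b 1) (C.P b + C.ρ b * s) ∧
      2 * A (C.sym b 0) * (C.P b + C.ρ b * s) + B (C.sym b 0) ≠
        2 * A (C.sym b 1) * (C.P b + C.ρ b * s) + B (C.sym b 1) := fun b => by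
    obtain ⟨a, β, γ, ha, hβ, hγ, h⟩ := hC.shape b 0
    obtain ⟨a', β', γ', ha', hβ', hγ', h'⟩ := hC.shape b 1
    simp only [Matrix.cons_val_zero, Matrix.cons_val_one, sub_zero, sub_neg_eq_add] at ha hγ ha' hγ'
    rw [abs_le] at ha hβ hγ ha' hβ' hγ'
    obtain ⟨s, hs, h1, h2⟩ := exists_root (a := a' - a) (β := β' - β) (γ := γ' - γ)
      (abs_le.2 ⟨by linarith, by linarith⟩) (abs_le.2 ⟨by linarith, by linarith⟩)
      (abs_le.2 ⟨by linarith, by linarith⟩)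
    refine ⟨s, hs, ?_, slope_of_eq (D := D (C.sym b 0)) (D' := D (C.sym b 1)) (γ := γ' - γ)
      (fun s => ?_) (hC.ρ_ne b) h2⟩
    · rw [h, h']
      linear_combination -(C.ρ b ^ 2) * h1
    · rw [← hq', ← hq', h, h']
      ring
  choose s hs h1 h2 using key
  refine ⟨{ Sym := C.Sym, Blk := C.Blk, A := A, B := B, D := D, c := C.c, r := C.r
            x := fun b => C.P b + C.ρ b * s b, a0 := fun b => C.sym b 0
            a1 := fun b => C.sym b 1, r_pos := hC.r_pos, inj := fun b b' h => ?_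
            val_eq := fun b => by rw [← hq', ← hq']; exact h1 b
            slope := h2, in0 := fun b => hC.dom b 0 _ (hs b), in1 := fun b => hC.dom b 1 _ (hs b)
            above := fun b a ha0 ha1 hd => ?_ }, cB, cS⟩
  · by_contra hb
    have e1 := hC.sep b b' hb
    have e2 : C.P b - C.P b' = C.ρ b' * s b' + -(C.ρ b * s b) := by
      simp only at h
      linarith
    have e3 := abs_add_le (C.ρ b' * s b') (-(C.ρ b * s b))
    rw [← e2, abs_neg, abs_mul, abs_mul] at e3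
    have p1 := abs_pos.2 (hC.ρ_ne b)
    have p2 := abs_pos.2 (hC.ρ_ne b')
    nlinarith [hs b, hs b']
  · obtain ⟨l, hl⟩ := hC.above b _ (hs b) a (fun l => by fin_cases l; exacts [ha0, ha1]) hd
    rw [← hq', ← hq']
    fin_cases l
    · exact hl
    · rw [h1 b]
      exact hl

/-- `T` translated copies and `p` further arcs. -/
noncomputable def Plane.rep (P : Plane) (T p : ℕ) (M : ℝ) (M1 : 1 ≤ M)
    (hM : ∀ a, |P.c a| + P.r a ≤ M) : Plane where
  Sym := (Fin T × P.Sym) ⊕ Fin p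
  Blk := Fin T × P.Blk
  A := Sum.elim (fun a => P.A a.2) fun _ => 0
  B := Sum.elim (fun a => P.B a.2 - 2 * P.A a.2 * (3 * M * (a.1 : ℕ))) fun _ => 0
  D := Sum.elim (fun a => qv (P.A a.2) (P.B a.2) (P.D a.2) (-(3 * M * (a.1 : ℕ)))) fun _ => 0
  c := Sum.elim (fun a => P.c a.2 + 3 * M * (a.1 : ℕ)) fun _ => -(3 * M)
  r := Sum.elim (fun a => P.r a.2) fun _ => 1
  x b := P.x b.2 + 3 * M * (b.1 : ℕ)
  a0 b := Sum.inl (b.1, P.a0 b.2)
  a1 b := Sum.inl (b.1, P.a1 b.2)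
  r_pos := by
    rintro (a | a)
    exacts [P.r_pos _, one_pos]
  inj := by
    rintro ⟨t, b⟩ ⟨t', b'⟩ h
    simp only at h
    have hx : ∀ b, |P.x b| ≤ M := fun b => by
      have := abs_add_le (P.x b - P.c (P.a0 b)) (P.c (P.a0 b))
      rw [sub_add_cancel] at this
      linarith [P.in0 b, hM (P.a0 b)]
    have h1 := abs_le.1 (hx b)
    have h2 := abs_le.1 (hx b')
    have ht : t = t' := by
      by_contra ht
      rcases lt_or_gt_of_ne (fun h => ht (Fin.ext h) : (t : ℕ) ≠ t') with h3 | h3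
      · have : ((t : ℕ) : ℝ) + 1 ≤ (t' : ℕ) := by exact_mod_cast h3
        nlinarith
      · have : ((t' : ℕ) : ℝ) + 1 ≤ (t : ℕ) := by exact_mod_cast h3
        nlinarith
    subst ht
    rw [P.inj (add_right_cancel h)]
  val_eq b := by
    have := P.val_eq b.2
    simp only [Sum.elim_inl, qv] at this ⊢
    linear_combination this
  slope b h := P.slope b.2 (by
    simp only [Sum.elim_inl] at h
    linear_combination h)
  in0 b := by simpa using P.in0 b.2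
  in1 b := by simpa using P.in1 b.2
  above := by
    rintro ⟨t, b⟩ a h0 h1 hd
    have hx : |P.x b| ≤ M := by
      have := abs_add_le (P.x b - P.c (P.a0 b)) (P.c (P.a0 b))
      rw [sub_add_cancel] at this
      linarith [P.in0 b, hM (P.a0 b)]
    rw [abs_le] at hx
    rcases a with ⟨t', a⟩ | a
    · simp only [Sum.elim_inl] at hd ⊢
      have ht : t' = t := by
        by_contra ht
        have h4 := hM a
        have h5 := le_abs_self (P.c a)
        have h6 := neg_abs_le (P.c a)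
        rw [abs_le] at hd
        rcases lt_or_gt_of_ne (fun h => ht (Fin.ext h) : (t' : ℕ) ≠ t) with h3 | h3
        · have : ((t' : ℕ) : ℝ) + 1 ≤ (t : ℕ) := by exact_mod_cast h3
          nlinarith
        · have : ((t : ℕ) : ℝ) + 1 ≤ (t' : ℕ) := by exact_mod_cast h3
          nlinarith
      subst ht
      have := P.above b a (fun h => h0 (by rw [h])) (fun h => h1 (by rw [h])) (by simpa using hd)
      simp only [qv] at this ⊢
      linarith
    · exfalso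
      simp only [Sum.elim_inr] at hd
      rw [abs_le] at hd
      have : (0 : ℝ) ≤ M * (t : ℕ) := by positivity
      linarith

theorem exists_plane {n i : ℕ} (h : 2 * nB i 2 ≤ n) :
    ∃ P : Plane, Fintype.card P.Sym = n ∧ n * 2 ^ i ≤ 4 * Fintype.card P.Blk := by
  obtain ⟨P, cB, cS⟩ := exists_plane0 i
  obtain ⟨M, M1, hM⟩ := exists_bound fun a => |P.c a| + P.r a
  set n0 := Fintype.card P.Sym with hn0
  have hB := nB_pos i 2
  have h2 : 0 < 2 ^ i := by positivity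
  have hpos : 0 < n0 := by
    rcases Nat.eq_zero_or_pos n0 with h0 | h0
    · rw [h0] at cS
      omega
    · exact h0
  have hle : n0 ≤ n := by nlinarith
  refine ⟨P.rep (n / n0) (n % n0) M M1 hM, ?_, ?_⟩
  · change Fintype.card ((Fin (n / n0) × P.Sym) ⊕ Fin (n % n0)) = n
    rw [Fintype.card_sum, Fintype.card_prod, Fintype.card_fin, Fintype.card_fin]
    exact Nat.div_add_mod' n n0
  · change _ ≤ 4 * Fintype.card (Fin (n / n0) × P.Blk)
    rw [Fintype.card_prod, Fintype.card_fin, cB]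
    have h3 : 1 ≤ n / n0 := (Nat.one_le_div_iff hpos).2 hle
    have h4 := Nat.div_add_mod' n n0
    have h5 := Nat.mod_lt n hpos
    have h6 : n ≤ 2 * (n / n0 * n0) := by nlinarith
    calc n * 2 ^ i ≤ 2 * (n / n0 * n0) * 2 ^ i := Nat.mul_le_mul_right _ h6
      _ = 2 * (n / n0) * (n0 * 2 ^ i) := by ring
      _ = 4 * (n / n0 * nB i 2) := by rw [cS]; ring

end Pool.Agent.Work.MP_8a5de9_co
end

-- merged part: Pool.Agent.Work.MP_8a5de9_co.LBLift
section
/-! Parabolic cylinders and hanging walls. -/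

namespace Pool.Agent.Work.MP_8a5de9_co

open Set MvPolynomial

variable {d : ℕ}

/-- The parabolic cylinder over an arc. -/
noncomputable def cyl (d : ℕ) (A B D : ℝ) : MvPolynomial (Fin (d + 2)) ℝ :=
  X 1 - (C A * X 0 ^ 2 + C B * X 0 + C D)

/-- The slab over the domain of an arc. -/
noncomputable def slab (d : ℕ) (c r : ℝ) : MvPolynomial (Fin (d + 2)) ℝ :=
  C (r ^ 2) - (X 0 - C c) ^ 2

/-- A coordinate hyperplane. -/
noncomputable def wall (k : Fin d) (r : ℝ) : MvPolynomial (Fin d) ℝ := X k - C r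

theorem eval_cyl (A B D : ℝ) (x : Fin (d + 2) → ℝ) :
    eval x (cyl d A B D) = x 1 - qv A B D (x 0) := by simp [cyl, qv]

theorem eval_slab (c r : ℝ) (x : Fin (d + 2) → ℝ) :
    eval x (slab d c r) = r ^ 2 - (x 0 - c) ^ 2 := by simp [slab]

theorem eval_wall (k : Fin d) (r : ℝ) (x : Fin d → ℝ) : eval x (wall k r) = x k - r := by
  simp [wall]

theorem deg_wall (k : Fin d) (r : ℝ) : (wall k r).totalDegree ≤ 1 :=
  (totalDegree_sub _ _).trans (max_le (by simp) (by simp))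

theorem deg_slab (c r : ℝ) : (slab d c r).totalDegree ≤ 2 :=
  (totalDegree_sub _ _).trans (max_le (by rw [totalDegree_C]; omega)
    ((totalDegree_pow _ _).trans (Nat.mul_le_mul_left 2 (deg_wall 0 c))))

theorem deg_cyl (A B D : ℝ) : (cyl d A B D).totalDegree ≤ 2 := by
  refine (totalDegree_sub _ _).trans (max_le (by simp) ((totalDegree_add _ _).trans
    (max_le ((totalDegree_add _ _).trans (max_le ?_ ?_)) (by simp))))
  · exact (totalDegree_mul _ _).trans (by simp)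
  · exact (totalDegree_mul _ _).trans (by simp)

theorem diff_wall (k : Fin d) (r : ℝ) (x u : Fin d → ℝ) : diff (wall k r) x u = u k := by
  have h : HasFDerivAt (fun y : Fin d → ℝ => y k - r)
      (ContinuousLinearMap.proj k : (Fin d → ℝ) →L[ℝ] ℝ) x := (hasFDerivAt_apply k x).sub_const r
  simp only [diff, eval_wall, h.fderiv, ContinuousLinearMap.proj_apply]

theorem diff_cyl (A B D : ℝ) (x u : Fin (d + 2) → ℝ) :
    diff (cyl d A B D) x u = u 1 - (2 * A * x 0 + B) * u 0 := by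
  have h0 : HasDerivAt (qv A B D) (2 * A * x 0 + B) (x 0) := by
    have := (((hasDerivAt_pow 2 (x 0)).const_mul A).add
      ((hasDerivAt_id (x 0)).const_mul B)).add_const D
    refine HasDerivAt.congr_deriv (f := qv A B D) this ?_
    norm_num
    ring
  have h := (hasFDerivAt_apply (𝕜 := ℝ) 1 x).sub
    (h0.comp_hasFDerivAt x (hasFDerivAt_apply (𝕜 := ℝ) 0 x))
  have h' : HasFDerivAt (fun y : Fin (d + 2) → ℝ => y 1 - qv A B D (y 0)) _ x := h
  simp only [diff, eval_cyl, h'.fderiv]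
  simp

namespace Plane

variable (P : Plane) (d n : ℕ)

/-- The hypersurfaces. -/
noncomputable def PP : P.Sym ⊕ Fin d × Fin n → MvPolynomial (Fin (d + 2)) ℝ :=
  Sum.elim (fun a => cyl d (P.A a) (P.B a) (P.D a)) fun m => wall m.1.succ.succ (m.2 : ℕ)

/-- The boundary conditions. -/
noncomputable def QQ (H : ℝ) : P.Sym ⊕ Fin d × Fin n → MvPolynomial (Fin (d + 2)) ℝ :=
  Sum.elim (fun a => slab d (P.c a) (P.r a)) fun _ => wall 1 (-H)

/-- The height of a breakpoint. -/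
def ht (b : P.Blk) : ℝ := qv (P.A (P.a0 b)) (P.B (P.a0 b)) (P.D (P.a0 b)) (P.x b)

theorem mem_inl (H : ℝ) (a : P.Sym) (x : Fin (d + 2) → ℝ) :
    x ∈ patch (P.PP d n (Sum.inl a)) (P.QQ d n H (Sum.inl a)) ↔
      x 1 = qv (P.A a) (P.B a) (P.D a) (x 0) ∧ |x 0 - P.c a| ≤ P.r a := by
  simp only [patch, PP, QQ, Sum.elim_inl, mem_ofPred_eq, eval_cyl, eval_slab, sub_eq_zero,
    sub_nonneg, sq_le_sq, abs_of_pos (P.r_pos a)]

theorem mem_inr (H : ℝ) (m : Fin d × Fin n) (x : Fin (d + 2) → ℝ) :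
    x ∈ patch (P.PP d n (Sum.inr m)) (P.QQ d n H (Sum.inr m)) ↔
      x m.1.succ.succ = (m.2 : ℕ) ∧ -H ≤ x 1 := by
  simp only [patch, PP, QQ, Sum.elim_inr, mem_ofPred_eq, eval_wall, sub_eq_zero, sub_nonneg]

theorem exists_H : ∃ H : ℝ, 1 ≤ H ∧
    ∀ a x, |x - P.c a| ≤ P.r a → -H < qv (P.A a) (P.B a) (P.D a) x := by
  obtain ⟨M, -, hM⟩ := exists_bound fun a => |P.c a| + P.r a
  obtain ⟨H, H1, hH⟩ := exists_bound fun a => |P.A a| * M ^ 2 + |P.B a| * M + |P.D a|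
  refine ⟨H + 1, by linarith, fun a x hx => ?_⟩
  have h1 : |x| ≤ M := by
    have := abs_add_le (x - P.c a) (P.c a)
    rw [sub_add_cancel] at this
    linarith [hM a]
  have h2 := abs_quad_le (a := P.A a) (β := P.B a) (γ := P.D a) le_rfl le_rfl le_rfl h1
  have h3 := neg_abs_le (P.A a * x ^ 2 + P.B a * x + P.D a)
  unfold qv
  linarith [hH a]

theorem ht_le (b : P.Blk) (a : P.Sym) (h : |P.x b - P.c a| ≤ P.r a) :
    P.ht b ≤ qv (P.A a) (P.B a) (P.D a) (P.x b) := by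
  by_cases h0 : a = P.a0 b
  · rw [h0]
    exact le_rfl
  · by_cases h1 : a = P.a1 b
    · rw [h1]
      exact (P.val_eq b).le
    · exact (P.above b a h0 h1 h).le

theorem lift {b : ℕ} (hb : 2 ≤ b) :
    ∃ (Pr Qr : P.Sym ⊕ Fin d × Fin n → MvPolynomial (Fin (d + 2)) ℝ) (z : Fin (d + 2) → ℝ),
    (∀ i, (Pr i).totalDegree ≤ 2 ∧ (Qr i).totalDegree ≤ 2) ∧
    ∃ ε > 0, ∀ P' Q', (∀ i, Near b ε (Pr i) (P' i)) → (∀ i, Near b ε (Qr i) (Q' i)) →
      (∀ i, IsProper (P' i) (Q' i)) ∧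
        ∃ S : Finset (Fin (d + 2) → ℝ), S.card = Fintype.card P.Blk * n ^ d ∧
          ∀ x ∈ S, IsVertex P' Q' x ∧ x ∈ frontier (cell P' Q' z) := by
  obtain ⟨H, H1, hH⟩ := P.exists_H
  have hht : ∀ b, -H < P.ht b := fun b => hH _ _ (P.in0 b).le
  have hdeg : ∀ i, (P.PP d n i).totalDegree ≤ 2 ∧ (P.QQ d n H i).totalDegree ≤ 2 := by
    rintro (a | m)
    exacts [⟨deg_cyl _ _ _, deg_slab _ _⟩,
      ⟨(deg_wall _ _).trans one_le_two, (deg_wall _ _).trans one_le_two⟩]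
  refine ⟨P.PP d n, P.QQ d n H, Fin.cons 0 (Fin.cons (-H - 1) 0), hdeg, ?_⟩
  have key := poly_stable (b := b) (P := P.PP d n) (Q := P.QQ d n H) (V := P.Blk × (Fin d → Fin n))
    (v0 := fun a => Fin.cons (P.x a.1) (Fin.cons (P.ht a.1) fun m => (a.2 m : ℕ)))
    (φ := fun a => Fin.cons (Sum.inl (P.a0 a.1))
      (Fin.cons (Sum.inl (P.a1 a.1)) fun m => Sum.inr (m, a.2 m)))
    (w := Fin.cons 0 (Fin.cons (-1) fun _ => 1)) (z := Fin.cons 0 (Fin.cons (-H - 1) 0))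
    (fun i => (hdeg i).1.trans hb) (fun i => (hdeg i).2.trans hb) ?_ ?_ ?_ ?_ ?_ ?_ ?_
  · simpa using key
  · rintro (a | m)
    · refine ⟨Fin.cons (P.c a) (Fin.cons (qv (P.A a) (P.B a) (P.D a) (P.c a)) 0), ?_, ?_,
        fun h => ?_⟩
      · simp [PP, eval_cyl]
      · simpa [QQ, eval_slab] using pow_pos (P.r_pos a) 2
      · have := congrArg (fun f : (Fin (d + 2) → ℝ) →L[ℝ] ℝ => f (Fin.cons 0 (Fin.cons 1 0))) h
        simp [PP, diff_cyl] at this
    · refine ⟨fun _ => (m.2 : ℕ), by simp [PP, eval_wall], ?_, fun h => ?_⟩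
      · simp only [QQ, Sum.elim_inr, eval_wall]
        have : (0 : ℝ) ≤ (m.2 : ℕ) := Nat.cast_nonneg _
        linarith
      · have := congrArg (fun f : (Fin (d + 2) → ℝ) →L[ℝ] ℝ => f fun _ => 1) h
        simp [PP, diff_wall] at this
  · rintro ⟨b, ρ⟩ ⟨b', ρ'⟩ h
    have h0 := congrFun h 0
    simp only [Fin.cons_zero] at h0
    refine Prod.ext (P.inj h0) (funext fun m => Fin.ext ?_)
    have h1 := congrFun h m.succ.succ
    simpa using h1
  · rintro ⟨b, ρ⟩ (a | ⟨m, r⟩)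
    · rw [mem_inl]
      simp only [Fin.cons_zero, Fin.cons_one, mem_range, Fin.exists_fin_succ, Fin.cons_succ,
        Sum.inl.injEq, reduceCtorEq, exists_false, or_false]
      constructor
      · rintro ⟨h1, h2⟩
        by_contra h
        push Not at h
        exact (P.above b a h.1.symm h.2.symm h2).ne h1
      · rintro (rfl | rfl)
        exacts [⟨rfl, (P.in0 b).le⟩, ⟨P.val_eq b, (P.in1 b).le⟩]
    · rw [mem_inr]
      simp only [Fin.cons_zero, Fin.cons_one, mem_range, Fin.exists_fin_succ, Fin.cons_succ,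
        Sum.inr.injEq, reduceCtorEq, false_or, Prod.mk.injEq, Nat.cast_inj, exists_eq_left,
        (hht b).le, and_true, Fin.val_inj]
  · rintro ⟨b, ρ⟩ k
    have hs : ∀ a, |P.x b - P.c a| < P.r a → (P.x b - P.c a) ^ 2 < P.r a ^ 2 := fun a h => by
      rwa [sq_lt_sq, abs_of_pos (P.r_pos a)]
    refine Fin.cases ?_ (fun k => Fin.cases ?_ (fun m => ?_) k) k
    · simpa [QQ, eval_slab] using hs _ (P.in0 b)
    · simpa [QQ, eval_slab] using hs _ (P.in1 b)
    · simp only [Fin.cons_succ, QQ, Sum.elim_inr, eval_wall, Fin.cons_one, Fin.cons_zero]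
      linarith [hht b]
  · rintro ⟨b, ρ⟩ t
    have hs := sub_ne_zero.2 (P.slope b).symm
    set s0 := 2 * P.A (P.a0 b) * P.x b + P.B (P.a0 b) with hs0
    set s1 := 2 * P.A (P.a1 b) * P.x b + P.B (P.a1 b) with hs1
    refine ⟨Fin.cons ((t 0 - t 1) / (s1 - s0))
      (Fin.cons (t 0 + s0 * ((t 0 - t 1) / (s1 - s0))) fun m => t m.succ.succ), fun k => ?_⟩
    refine Fin.cases ?_ (fun k => Fin.cases ?_ (fun m => ?_) k) k
    · simp [PP, diff_cyl, ← hs0]
    · simp only [Fin.cons_zero, PP, Sum.elim_inl, diff_cyl, Fin.cons_one, ← hs1,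
        Fin.succ_zero_eq_one]
      field_simp
      ring
    · simp [PP, diff_wall]
  · rintro ⟨b, ρ⟩ k
    refine Fin.cases ?_ (fun k => Fin.cases ?_ (fun m => ?_) k) k
    · simp [PP, diff_cyl]
    · simp [PP, diff_cyl]
    · simp [PP, diff_wall]
  · rintro ⟨b, ρ⟩ τ h0 h1
    refine JoinedIn.trans (y := Fin.cons (P.x b) (Fin.cons (-H - 1) fun m => (ρ m : ℕ) + τ))
      (JoinedIn.of_segment_subset ?_) (JoinedIn.of_segment_subset ?_)
    · rintro x ⟨s, t, hs, ht, hst, rfl⟩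
      obtain rfl : t = 1 - s := by linarith
      simp only [compl_iUnion, mem_iInter, mem_compl_iff]
      rintro (a | ⟨m, r⟩)
      · rw [mem_inl]
        rintro ⟨g1, g2⟩
        simp only [Pi.add_apply, Pi.smul_apply, Fin.cons_zero, Fin.cons_one, smul_eq_mul,
          mul_zero, add_zero] at g1 g2
        rw [show s * P.x b + (1 - s) * P.x b = P.x b by ring] at g1 g2
        have g3 := P.ht_le b a g2
        have g4 := hht b
        nlinarith
      · rw [mem_inr]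
        rintro ⟨g1, -⟩
        simp only [Pi.add_apply, Pi.smul_apply, Fin.cons_succ, smul_eq_mul, mul_one] at g1
        rw [show s * (((ρ m : ℕ) : ℝ) + τ) + (1 - s) * ((ρ m : ℕ) + τ) = (ρ m : ℕ) + τ by ring]
          at g1
        have g2 : (ρ m : ℕ) < r := by exact_mod_cast (show ((ρ m : ℕ) : ℝ) < (r : ℕ) by linarith)
        have g3 : ((ρ m : ℕ) : ℝ) + 1 ≤ (r : ℕ) := by exact_mod_cast g2
        linarith
    · rintro x ⟨s, t, hs, ht, hst, rfl⟩
      obtain rfl : t = 1 - s := by linarith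
      simp only [compl_iUnion, mem_iInter, mem_compl_iff]
      rintro (a | ⟨m, r⟩)
      · rw [mem_inl]
        rintro ⟨g1, g2⟩
        have g3 := hH a _ g2
        rw [← g1] at g3
        simp only [Pi.add_apply, Pi.smul_apply, Fin.cons_zero, Fin.cons_one, smul_eq_mul] at g3
        linarith
      · rw [mem_inr]
        rintro ⟨-, g3⟩
        simp only [Pi.add_apply, Pi.smul_apply, Fin.cons_zero, Fin.cons_one, smul_eq_mul] at g3
        linarith

end Plane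

end Pool.Agent.Work.MP_8a5de9_co
end
end
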