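import Mathlib
import Pool.Agent.Work.MP_cbf770_co.Sample

-- merged part: Pool.Agent.Work.MP_8a5de9_co.UPlA
section
/-!
# Planar obstacles, vertical walls, convex regions

An obstacle `j` is the part of the line `y = τ j x` over a closed interval `I j` (possibly empty or
unbounded).  For a set `S` of obstacles, a vertical wall is erected at every endpoint, up to the
next obstacles of `S`.  `O S` is the complement of the obstacles and walls; `Rel S p q` says that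
the segment from `p` to `q` lies in `O S`.

`isOpen_O`: obstacles are closed; if `q ∈ O S` has the abscissa of an endpoint then the blocking
obstacle does not pass through `q`, so it also blocks the points near `q` with this abscissa.
-/

open Set Filter Topology

namespace SC

/-- Obstacles in general position. -/
structure Pl (J : Type) where
  sl : J → ℝ
  ic : J → ℝ
  I : J → Set ℝ
  cl : ∀ j, IsClosed (I j)
  oc : ∀ j, OrdConnected (I j)
  g0 : ∀ j j' x, j ≠ j' → (I j).Nonempty → (I j').Nonempty →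
    sl j * x + ic j = sl j' * x + ic j' → sl j ≠ sl j'
  g1 : ∀ j j' x, j ≠ j' → x ∈ frontier (I j) → x ∈ I j' → sl j * x + ic j ≠ sl j' * x + ic j'
  g2 : ∀ j j' x, x ∈ frontier (I j) → x ∈ frontier (I j') → j = j'
  g3 : ∀ j j' k k' x, x ∈ I j → x ∈ I j' → x ∈ I k → x ∈ I k' → sl j' < sl j → sl k' < sl k →
    sl j * x + ic j = sl j' * x + ic j' → sl k * x + ic k = sl k' * x + ic k' → j = k ∧ j' = k'

namespace Pl

variable {J : Type} (π : Pl J)

/-- The height of the line number `j`. -/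
def τ (j : J) (x : ℝ) : ℝ := π.sl j * x + π.ic j

/-- The obstacle number `j`. -/
def seg (j : J) : Set (ℝ × ℝ) := {q | q.1 ∈ π.I j ∧ q.2 = π.τ j q.1}

theorem UPlA_sub (j : J) : frontier (π.I j) ⊆ {sInf (π.I j), sSup (π.I j)} := by
  intro x hx
  have h1 : x ∈ π.I j := (π.cl j).frontier_subset hx
  by_cases h2 : x ∈ lowerBounds (π.I j)
  · exact Or.inl (IsLeast.csInf_eq ⟨h1, h2⟩).symm
  by_cases h3 : x ∈ upperBounds (π.I j)
  · exact Or.inr (IsGreatest.csSup_eq ⟨h1, h3⟩).symm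
  simp only [mem_lowerBounds, mem_upperBounds, not_forall, not_le] at h2 h3
  obtain ⟨a, ha, h4⟩ := h2
  obtain ⟨b, hb, h5⟩ := h3
  exact absurd (mem_interior_iff_mem_nhds.2
    (mem_of_superset (Icc_mem_nhds h4 h5) ((π.oc j).out ha hb))) hx.2

theorem finite_frontier (j : J) : (frontier (π.I j)).Finite := by
  exact (toFinite _).subset (π.UPlA_sub j)

/-- The abscissae of the endpoints. -/
noncomputable def En (j : J) : Finset ℝ := (π.finite_frontier j).toFinset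

theorem mem_En {j : J} {x : ℝ} : x ∈ π.En j ↔ x ∈ frontier (π.I j) := by simp [En]

theorem card_En (j : J) : (π.En j).card ≤ 2 := by
  refine le_trans (Finset.card_le_card (t := {sInf (π.I j), sSup (π.I j)}) fun x hx => ?_)
    Finset.card_le_two
  simpa using π.UPlA_sub j (π.mem_En.1 hx)

/-- The complement of the obstacles and the walls. -/
def O (S : Finset J) : Set (ℝ × ℝ) :=
  {q | (∀ j ∈ S, q ∉ π.seg j) ∧ ∀ j ∈ S, q.1 ∈ π.En j →
    ∃ j' ∈ S, j' ≠ j ∧ q.1 ∈ π.I j' ∧ π.τ j' q.1 ∈ uIcc q.2 (π.τ j q.1)}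

/-- `p` sees `q`. -/
def Rel (S : Finset J) (p q : ℝ × ℝ) : Prop := segment ℝ p q ⊆ π.O S

/-- The region of `p`. -/
def Reg (S : Finset J) (p : ℝ × ℝ) : Set (ℝ × ℝ) := {q | π.Rel S p q}

variable {π} {S : Finset J} {p q r : ℝ × ℝ}

theorem isClosed_seg (j : J) : IsClosed (π.seg j) := by
  refine ((π.cl j).preimage continuous_fst).inter (isClosed_eq continuous_snd ?_)
  unfold τ
  fun_prop

theorem isOpen_O (S : Finset J) : IsOpen (π.O S) := by
  refine isOpen_iff_mem_nhds.2 fun q hq => Eventually.and ?_ ?_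
  · exact (eventually_all_finset S).2 fun j hj =>
      (isClosed_seg j).isOpen_compl.mem_nhds (hq.1 j hj)
  refine (eventually_all_finset S).2 fun j hj => ?_
  have h1 : ∀ᶠ q' : ℝ × ℝ in 𝓝 q, q'.1 ∈ π.En j → q'.1 = q.1 := by
    have h2 : IsClosed ((π.En j : Set ℝ) \ {q.1}) :=
      ((π.En j).finite_toSet.subset diff_subset).isClosed
    filter_upwards [(h2.preimage continuous_fst).isOpen_compl.mem_nhds fun h => h.2 rfl]
      with q' h3 h4
    by_contra h5
    exact h3 ⟨h4, h5⟩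
  by_cases h2 : q.1 ∈ π.En j
  · obtain ⟨j', hj', hne, h3, h4⟩ := hq.2 j hj h2
    have h5 : q.2 ≠ π.τ j' q.1 := fun e => hq.1 j' hj' ⟨h3, e⟩
    have h6 : ∀ᶠ q' : ℝ × ℝ in 𝓝 q, π.τ j' q.1 ∈ uIcc q'.2 (π.τ j q.1) := by
      rcases mem_uIcc.1 h4 with h7 | h7
      · filter_upwards [continuous_snd.continuousAt.eventually_lt continuousAt_const
          (lt_of_le_of_ne h7.1 h5)] with q' h8
        exact mem_uIcc.2 (Or.inl ⟨h8.le, h7.2⟩)
      · filter_upwards [continuousAt_const.eventually_lt continuous_snd.continuousAt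
          (lt_of_le_of_ne h7.2 h5.symm)] with q' h8
        exact mem_uIcc.2 (Or.inr ⟨h7.1, h8.le⟩)
    filter_upwards [h1, h6] with q' h7 h8 h9
    rw [h7 h9]
    exact ⟨j', hj', hne, h3, h8⟩
  · filter_upwards [h1] with q' h7 h9
    exact absurd (h7 h9 ▸ h9) h2

theorem Rel.refl (h : p ∈ π.O S) : π.Rel S p p := by
  simpa [Rel] using h

theorem Rel.symm (h : π.Rel S p q) : π.Rel S q p := by
  rwa [Rel, segment_symm]

theorem Rel.left (h : π.Rel S p q) : p ∈ π.O S := h (left_mem_segment _ _ _)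

theorem Rel.right (h : π.Rel S p q) : q ∈ π.O S := h (right_mem_segment _ _ _)

theorem Rel.disjoint (h : π.Rel S p q) {j : J} (hj : j ∈ S) :
    Disjoint (segment ℝ p q) (π.seg j) :=
  disjoint_left.2 fun _ hy => (h hy).1 j hj

theorem Reg_sub (S : Finset J) (p : ℝ × ℝ) : π.Reg S p ⊆ π.O S := fun _ h => Rel.right h

end Pl

end SC
end

-- merged part: Pool.Agent.Work.MP_8a5de9_co.UPl
section
/-!
# Regions are convex

`Rel.trans`.  Let `Δ` be the triangle `p q r`; if it is degenerate, `[p, r] ⊆ [p, q] ∪ [q, r]` or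
the like.  Otherwise use barycentric coordinates, `h` = the coordinate of `q`.  Claim: no obstacle
of `S` meets `Δ`.  Otherwise maximise `h` on the compact set `Δ ∩ ⋃ seg j`, and among the maximisers
the abscissa; the point `u ∈ seg j` found is not on the sides `[p, q]`, `[q, r]`, so the coordinates
of `p` and `r` at `u` are positive and one can move a little in every direction that does not
decrease `h`.  Hence `u.1` is an endpoint of `I j` (else move along the obstacle).  Move vertically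
from `u` in a direction that does not decrease `h` until a point `y` of `[p, q] ∪ [q, r]` is
reached.  No other obstacle of `S` meets the vertical segment from `u` to `y`: at `u` by `g1`; if
`h` grows strictly, by maximality; if `h` is constant on vertical lines (`p.1 = r.1`) such a point
is again a maximiser of both, so an endpoint with the same abscissa, which `g2` excludes.  So `y`
lies on a wall, a contradiction.  Finally if a point `y₀` of `[p, r]` lies on the wall of the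
endpoint `e`, go vertically from `y₀` to a point `y₁` of `[p, q] ∪ [q, r]` inside `Δ`; no obstacle
meets `Δ`, so `y₁` lies on the same wall.
-/

open Set Filter Topology

namespace SC

namespace Pl

variable {J : Type} {π : Pl J} {S : Finset J} {p q r : ℝ × ℝ}

theorem UPl_line (x v : ℝ × ℝ) {a b t : ℝ} (h : t ∈ uIcc a b) :
    x + t • v ∈ segment ℝ (x + a • v) (x + b • v) := by
  rw [← segment_eq_uIcc] at h
  obtain ⟨u, w, hu, hw, huw, rfl⟩ := h
  refine ⟨u, w, hu, hw, huw, ?_⟩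
  have : u = 1 - w := by linarith
  subst this
  simp only [smul_eq_mul]
  module

/-- Barycentric coordinates. -/
theorem UPl_bary {p q r : ℝ × ℝ}
    (hD : (q.1 - p.1) * (r.2 - p.2) - (q.2 - p.2) * (r.1 - p.1) ≠ 0) :
    ∃ A B C A' B' C' : ℝ × ℝ → ℝ, Continuous A ∧ Continuous B ∧ Continuous C ∧
      (∀ u, A u + B u + C u = 1) ∧ (∀ u, A u • p + B u • q + C u • r = u) ∧
      (∀ u v (s : ℝ), A (u + s • v) = A u + s * A' v ∧ B (u + s • v) = B u + s * B' v ∧
        C (u + s • v) = C u + s * C' v) ∧ (∀ v, B' (-v) = -B' v) ∧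
      ∀ u ∈ segment ℝ p r, 0 ≤ A u ∧ B u = 0 ∧ 0 ≤ C u := by
  set D := (q.1 - p.1) * (r.2 - p.2) - (q.2 - p.2) * (r.1 - p.1) with hDD
  refine ⟨fun u => 1 - ((u.1 - p.1) * (r.2 - p.2) - (u.2 - p.2) * (r.1 - p.1)) / D -
      ((q.1 - p.1) * (u.2 - p.2) - (q.2 - p.2) * (u.1 - p.1)) / D,
    fun u => ((u.1 - p.1) * (r.2 - p.2) - (u.2 - p.2) * (r.1 - p.1)) / D,
    fun u => ((q.1 - p.1) * (u.2 - p.2) - (q.2 - p.2) * (u.1 - p.1)) / D,
    fun v => -(v.1 * (r.2 - p.2) - v.2 * (r.1 - p.1)) / D -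
      ((q.1 - p.1) * v.2 - (q.2 - p.2) * v.1) / D,
    fun v => (v.1 * (r.2 - p.2) - v.2 * (r.1 - p.1)) / D,
    fun v => ((q.1 - p.1) * v.2 - (q.2 - p.2) * v.1) / D,
    by fun_prop, by fun_prop, by fun_prop, fun u => by ring, fun u => ?_, fun u v s => ?_,
    fun v => ?_, ?_⟩
  · refine Prod.ext ?_ ?_
    · simp only [Prod.fst_add, Prod.smul_fst, smul_eq_mul]
      field_simp
      rw [hDD]
      ring
    · simp only [Prod.snd_add, Prod.smul_snd, smul_eq_mul]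
      field_simp
      rw [hDD]
      ring
  · simp only [Prod.fst_add, Prod.smul_fst, Prod.snd_add, Prod.smul_snd, smul_eq_mul]
    exact ⟨by ring, by ring, by ring⟩
  · simp only [Prod.fst_neg, Prod.snd_neg]
    ring
  · rintro _ ⟨a, b, ha, hb, hab, rfl⟩
    have : a = 1 - b := by linarith
    subst this
    simp only [Prod.fst_add, Prod.smul_fst, Prod.snd_add, Prod.smul_snd, smul_eq_mul]
    have e1 : ((1 - b) * p.1 + b * r.1 - p.1) * (r.2 - p.2) -
      ((1 - b) * p.2 + b * r.2 - p.2) * (r.1 - p.1) = 0 := by ring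
    have e2 : (q.1 - p.1) * ((1 - b) * p.2 + b * r.2 - p.2) -
      (q.2 - p.2) * ((1 - b) * p.1 + b * r.1 - p.1) = b * D := by rw [hDD]; ring
    rw [e1, e2, zero_div, mul_div_cancel_right₀ _ hD]
    exact ⟨by linarith, rfl, hb⟩

theorem UPl_exit {a c α γ : ℝ} (ha : 0 ≤ a) (hc : 0 ≤ c) (h : α < 0 ∨ γ < 0) :
    ∃ s, 0 ≤ s ∧ 0 ≤ a + s * α ∧ 0 ≤ c + s * γ ∧ (a + s * α = 0 ∨ c + s * γ = 0) := by
  have key : ∀ {a c α γ : ℝ}, 0 ≤ a → 0 ≤ c → α < 0 → (γ < 0 → a * (-γ) ≤ c * (-α)) →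
      ∃ s, 0 ≤ s ∧ a + s * α = 0 ∧ 0 ≤ c + s * γ := by
    intro a c α γ ha hc h1 h2
    have h3 : 0 < -α := by linarith
    have h4 : a / -α * -α = a := div_mul_cancel₀ _ h3.ne'
    have h5 : 0 ≤ a / -α := div_nonneg ha h3.le
    refine ⟨a / -α, h5, by linarith, ?_⟩
    rcases lt_or_ge γ 0 with h6 | h6
    · have := h2 h6
      by_contra hn
      nlinarith
    · nlinarith
  by_cases h1 : α < 0 ∧ (γ < 0 → a * (-γ) ≤ c * (-α))
  · obtain ⟨s, s1, s2, s3⟩ := key ha hc h1.1 h1.2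
    exact ⟨s, s1, s2.ge, s3, Or.inl s2⟩
  · have h2 : γ < 0 := by
      by_contra h3
      exact h1 ⟨h.resolve_right h3, fun h4 => absurd h4 h3⟩
    obtain ⟨s, s1, s2, s3⟩ := key hc ha h2 fun h3 => by
      by_contra h4
      exact h1 ⟨h3, fun _ => (not_le.1 h4).le⟩
    exact ⟨s, s1, s3, s2.ge, Or.inr s2⟩

theorem Rel.trans (h : π.Rel S p q) (h' : π.Rel S q r) : π.Rel S p r := by
  by_cases hD : (q.1 - p.1) * (r.2 - p.2) - (q.2 - p.2) * (r.1 - p.1) = 0
  · by_cases hpr : r = p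
    · rw [hpr]
      exact Rel.refl h.left
    have hτ : ∃ τ : ℝ, q = p + τ • (r - p) := by
      by_cases h1 : r.1 - p.1 = 0
      · have h2 : r.2 - p.2 ≠ 0 := fun h2 => hpr (Prod.ext (by linarith) (by linarith))
        refine ⟨(q.2 - p.2) / (r.2 - p.2), Prod.ext ?_ ?_⟩
        · rw [h1, mul_zero, sub_zero, mul_eq_zero] at hD
          simp only [Prod.fst_add, Prod.smul_fst, Prod.fst_sub, smul_eq_mul, h1]
          linarith [hD.resolve_right h2]
        · simp only [Prod.snd_add, Prod.smul_snd, Prod.snd_sub, smul_eq_mul]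
          field_simp
          ring
      · refine ⟨(q.1 - p.1) / (r.1 - p.1), Prod.ext ?_ ?_⟩
        · simp only [Prod.fst_add, Prod.smul_fst, Prod.fst_sub, smul_eq_mul]
          field_simp
          ring
        · simp only [Prod.snd_add, Prod.smul_snd, Prod.snd_sub, smul_eq_mul]
          field_simp
          linarith
    obtain ⟨τ, hq⟩ := hτ
    rintro _ ⟨a, b, ha, hb, hab, rfl⟩
    have e : a • p + b • r = p + b • (r - p) := by
      have : a = 1 - b := by linarith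
      subst this
      module
    rw [e]
    rcases uIcc_subset_uIcc_union_uIcc (b := τ)
      (mem_uIcc.2 (Or.inl ⟨hb, by linarith⟩) : b ∈ uIcc (0 : ℝ) 1) with u | u
    · refine h ?_
      simpa [← hq] using UPl_line p (r - p) u
    · refine h' ?_
      simpa [← hq] using UPl_line p (r - p) u
  obtain ⟨A, B, C, A', B', C', cA, cB, cC, hsum, hrep, haff, hneg, hpr⟩ := UPl_bary hD
  set Δ : Set (ℝ × ℝ) := {u | 0 ≤ A u ∧ 0 ≤ B u ∧ 0 ≤ C u} with hΔ
  have hside : ∀ u ∈ Δ, A u = 0 ∨ C u = 0 → u ∈ π.O S := by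
    rintro u ⟨u1, u2, u3⟩ (h0 | h0)
    · refine h' ⟨B u, C u, u2, u3, by linarith [hsum u], ?_⟩
      simpa [h0] using hrep u
    · refine h ⟨A u, B u, u1, u2, by linarith [hsum u], ?_⟩
      simpa [h0] using hrep u
  have hvert : ∀ u ∈ Δ, ∃ y ∈ π.O S, y.1 = u.1 ∧
      ∀ η ∈ uIcc y.2 u.2, (u.1, η) ∈ Δ ∧ B u ≤ B (u.1, η) := by
    have key : ∀ u ∈ Δ, ∀ σ : ℝ, σ * σ = 1 → 0 ≤ B' (0, σ) → ∃ y ∈ π.O S, y.1 = u.1 ∧
        ∀ η ∈ uIcc y.2 u.2, (u.1, η) ∈ Δ ∧ B u ≤ B (u.1, η) := by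
      rintro u ⟨u1, u2, u3⟩ σ hσ hB
      have e0 := haff u (0, σ) 1
      have e1 : A' (0, σ) + B' (0, σ) + C' (0, σ) = 0 := by
        linarith [hsum (u + (1 : ℝ) • (0, σ)), hsum u, e0.1, e0.2.1, e0.2.2]
      have e2 : A' (0, σ) < 0 ∨ C' (0, σ) < 0 := by
        by_contra hc
        push Not at hc
        have a0 : A' (0, σ) = 0 := by linarith [hc.1, hc.2]
        have b0 : B' (0, σ) = 0 := by linarith [hc.1, hc.2]
        have c0 : C' (0, σ) = 0 := by linarith [hc.1, hc.2]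
        have := hrep (u + (1 : ℝ) • (0, σ))
        rw [e0.1, e0.2.1, e0.2.2, a0, b0, c0] at this
        simp only [mul_zero, add_zero, hrep u] at this
        have := congrArg Prod.snd this
        simp only [Prod.snd_add, Prod.smul_snd, smul_eq_mul] at this
        nlinarith
      obtain ⟨s, s0, s1, s2, s3⟩ := UPl_exit u1 u3 e2
      have e3 := haff u (0, σ) s
      refine ⟨u + s • (0, σ), hside _ ⟨e3.1 ▸ s1, by rw [e3.2.1]; positivity, e3.2.2 ▸ s2⟩
        (by rwa [e3.1, e3.2.2]), by simp, fun η hη => ?_⟩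
      rw [← segment_eq_uIcc] at hη
      obtain ⟨a, b, ha, hb, hab, rfl⟩ := hη
      have e4 : (u.1, a • (u + s • (0, σ)).2 + b • u.2) = u + (a * s) • ((0, σ) : ℝ × ℝ) := by
        refine Prod.ext (by simp) ?_
        simp only [Prod.snd_add, Prod.smul_snd, smul_eq_mul]
        linear_combination u.2 * hab
      have e5 := haff u (0, σ) (a * s)
      have e6 := mul_nonneg (mul_nonneg ha s0) hB
      rw [e4]
      refine ⟨⟨?_, ?_, ?_⟩, ?_⟩
      · rw [e5.1]; nlinarith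
      · rw [e5.2.1]; linarith
      · rw [e5.2.2]; nlinarith
      · rw [e5.2.1]; linarith
    intro u hu
    rcases le_total 0 (B' (0, 1)) with h1 | h1
    · exact key u hu 1 (by norm_num) h1
    · refine key u hu (-1) (by norm_num) ?_
      have := hneg (0, 1)
      simp only [Prod.neg_mk, neg_zero] at this
      linarith
  have hcomp : IsCompact Δ := by
    refine Metric.isCompact_of_isClosed_isBounded ((isClosed_le continuous_const cA).inter
      ((isClosed_le continuous_const cB).inter (isClosed_le continuous_const cC))) ?_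
    refine (isBounded_iff_forall_norm_le).2 ⟨‖p‖ + ‖q‖ + ‖r‖, fun u ⟨u1, u2, u3⟩ => ?_⟩
    rw [← hrep u]
    refine norm_add₃_le.trans ?_
    rw [norm_smul, norm_smul, norm_smul, Real.norm_of_nonneg u1, Real.norm_of_nonneg u2,
      Real.norm_of_nonneg u3]
    nlinarith [hsum u, norm_nonneg p, norm_nonneg q, norm_nonneg r]
  have hno : ∀ u ∈ Δ, ∀ j ∈ S, u ∉ π.seg j := by
    intro u₀ hu₀ j₀ hj₀ hs₀
    set K := Δ ∩ ⋃ j ∈ S, π.seg j with hK
    have hKc : IsCompact K := hcomp.inter_right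
      (isClosed_biUnion_finset fun j _ => isClosed_seg j)
    obtain ⟨u₁, hu₁, hm₁⟩ := hKc.exists_isMaxOn ⟨u₀, hu₀, mem_biUnion hj₀ hs₀⟩ cB.continuousOn
    obtain ⟨u, hu, hm⟩ := (hKc.inter_right
      (isClosed_le (continuous_const (y := B u₁)) cB)).exists_isMaxOn
      ⟨u₁, hu₁, le_refl (B u₁)⟩ continuous_fst.continuousOn
    have hend : ∀ v ∈ Δ, B u₁ ≤ B v → u.1 ≤ v.1 → ∀ j ∈ S, v ∈ π.seg j →
        v.1 ∈ frontier (π.I j) := by
      intro v hv h1 h2 j hj hs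
      refine ⟨subset_closure hs.1, fun hi => ?_⟩
      have a0 : 0 < A v := hv.1.lt_of_ne fun e => (hside v hv (Or.inl e.symm)).1 j hj hs
      have c0 : 0 < C v := hv.2.2.lt_of_ne fun e => (hside v hv (Or.inr e.symm)).1 j hj hs
      have hc : Continuous fun s : ℝ => v + s • ((1, π.sl j) : ℝ × ℝ) := by fun_prop
      have ht : Tendsto (fun s : ℝ => v + s • ((1, π.sl j) : ℝ × ℝ)) (𝓝 0) (𝓝 v) := by
        simpa using hc.tendsto 0
      have hev : ∀ᶠ s : ℝ in 𝓝 0, 0 ≤ s * B' (1, π.sl j) →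
          v + s • ((1, π.sl j) : ℝ × ℝ) ∈ K ∧ B u₁ ≤ B (v + s • ((1, π.sl j) : ℝ × ℝ)) := by
        filter_upwards [ht.eventually (cA.continuousAt.eventually (lt_mem_nhds a0)),
          ht.eventually (cC.continuousAt.eventually (lt_mem_nhds c0)),
          ht.eventually (continuousAt_fst.eventually (mem_interior_iff_mem_nhds.1 hi))]
          with s s1 s2 s3 s4
        have e := (haff v (1, π.sl j) s).2.1
        refine ⟨⟨⟨s1.le, by rw [e]; linarith [hv.2.1], s2.le⟩, mem_biUnion hj ⟨s3, ?_⟩⟩,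
          by rw [e]; linarith⟩
        have := hs.2
        simp only [Prod.snd_add, Prod.smul_snd, Prod.fst_add, Prod.smul_fst, smul_eq_mul, τ]
          at this ⊢
        linarith
      rcases le_or_gt 0 (B' (1, π.sl j)) with b0 | b0
      · obtain ⟨s, s1, s2⟩ := ((hev.filter_mono (nhdsWithin_le_nhds (s := Ioi 0))).and
          self_mem_nhdsWithin).exists
        replace s2 : 0 < s := s2
        have := hm (s1 (mul_nonneg s2.le b0))
        simp only [mem_ofPred_eq, Prod.fst_add, Prod.smul_fst, smul_eq_mul] at this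
        linarith
      · obtain ⟨s, s1, s2⟩ := ((hev.filter_mono (nhdsWithin_le_nhds (s := Iio 0))).and
          self_mem_nhdsWithin).exists
        have s3 := mul_pos_of_neg_of_neg (show s < 0 from s2) b0
        have := hm₁ (s1 s3.le).1
        rw [mem_ofPred_eq, (haff v (1, π.sl j) s).2.1] at this
        linarith
    obtain ⟨j, hj, hs⟩ := mem_iUnion₂.1 hu.1.2
    have hf := hend u hu.1.1 hu.2 le_rfl j hj hs
    obtain ⟨y, hy, y1, y2⟩ := hvert u hu.1.1
    obtain ⟨j', hj', hne, i1, i2⟩ := hy.2 j hj (by rw [y1]; exact π.mem_En.2 hf)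
    rw [y1] at i1 i2
    rw [← hs.2] at i2
    obtain ⟨z1, z2⟩ := y2 _ i2
    exact hne (π.g2 _ _ _ (hend _ z1 (le_trans hu.2 z2) le_rfl j' hj' ⟨i1, rfl⟩) hf)
  intro u hu
  have hu' : u ∈ Δ := ⟨(hpr u hu).1, (hpr u hu).2.1.ge, (hpr u hu).2.2⟩
  refine ⟨hno u hu', fun j hj he => ?_⟩
  obtain ⟨y, hy, y1, y2⟩ := hvert u hu'
  obtain ⟨j', hj', hne, i1, i2⟩ := hy.2 j hj (by rwa [y1])
  rw [y1] at i1 i2
  rcases uIcc_subset_uIcc_union_uIcc (b := u.2) i2 with i3 | i3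
  · exact absurd ⟨i1, rfl⟩ (hno _ (y2 _ i3).1 j' hj')
  · exact ⟨j', hj', hne, i1, i3⟩

theorem convex_Reg (S : Finset J) (p : ℝ × ℝ) : Convex ℝ (π.Reg S p) := by
  refine convex_iff_segment_subset.2 fun q hq r hr y hy => Rel.trans hq ?_
  exact ((convex_segment q r).segment_subset (left_mem_segment _ _ _) hy).trans
    ((Rel.symm hq).trans hr)

theorem isOpen_Reg (S : Finset J) (p : ℝ × ℝ) : IsOpen (π.Reg S p) := by
  refine Metric.isOpen_iff.2 fun q hq => ?_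
  obtain ⟨ε, hε, h⟩ := Metric.isOpen_iff.1 (isOpen_O S) q (Rel.right hq)
  exact ⟨ε, hε, fun y hy => Rel.trans hq
    (((convex_ball q ε).segment_subset (Metric.mem_ball_self hε) hy).trans h)⟩

theorem Reg_eq (h : q ∈ π.Reg S p) : π.Reg S q = π.Reg S p := by
  exact Set.ext fun _ => ⟨fun h' => Rel.trans h h', fun h' => (Rel.symm h).trans h'⟩

theorem Reg_disjoint (h : π.Reg S p ≠ π.Reg S q) : Disjoint (π.Reg S p) (π.Reg S q) := by
  exact disjoint_left.2 fun _ h1 h2 => h ((Reg_eq h1).symm.trans (Reg_eq h2))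

/-- A convex subset of `O S` that meets a region lies in it. -/
theorem sub_Reg {T : Set (ℝ × ℝ)} (hT : Convex ℝ T) (hO : T ⊆ π.O S) (hq : q ∈ T)
    (h : q ∈ π.Reg S p) : T ⊆ π.Reg S p := by
  exact fun y hy => Rel.trans h ((hT.segment_subset hq hy).trans hO)

end Pl

end SC
end

-- merged part: Pool.Agent.Work.MP_8a5de9_co.UAnch
section
-- merged part: Pool.Agent.Work.MP_8a5de9_co.UAnch
section
/-!
# The number of good regions

Let `κ = Reg S p` with `p ∈ Pt`.  All points of `κ` are good (`tr`), so `x₀ = inf (fst '' κ)`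
exists; `κ` is open, so `x₀` is not attained.  Let `X` be the finite set of the endpoints of the
`I j` and of the abscissae of the crossings of two lines `j ≠ j'` of `S` with nonempty intervals
(`g0`), and `δ > 0` with `X ∩ (x₀, x₀ + δ) = ∅`.  Take `q ∈ κ` with `q.1 < x₀ + δ`, let `f` be the
highest obstacle of `S` below `q` and `c` the lowest above `q` (`bd`).  An obstacle that is present
at one abscissa of the strip is present on `[x₀, x₀ + δ)`, and the vertical order of the lines does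
not change in the strip; so the trapezoid `Z = {x₀ < x < x₀ + δ, τ f < y < τ c}` lies in `O S`, hence
in `κ` (`sub_Reg`).
* If `τ f x₀ = τ c x₀` then `GM f c`, and `(f, c)` determines `κ` (`x₀` is the crossing; two such
  trapezoids meet).
* Otherwise the midpoint `w` of the left side of `Z` is not in `O S` (else a ball around `w` lies in
  `κ`).  If `w ∈ seg j` then `x₀` is an endpoint of `I j` (else `seg j` enters `Z`); if `w` lies on
  the wall of `j` then also `x₀ ∈ En j`.  In both cases `τ f x₀ ≤ τ j x₀ ≤ τ c x₀` with equality only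
  for `j = f`, respectively `j = c`.  The triple `(j, x₀, flag)`, where the flag says `j = f`,
  `j = c` or neither, determines `κ`: two trapezoids with the same triple meet just right of `x₀`.
-/

open Set Filter Topology

namespace SC

namespace Pl

variable {J : Type} (π : Pl J)

/-- `f` and `c` cross, and the wedge to the right of the crossing is good. -/
def GM (G : ℝ × ℝ → Prop) (f c : J) : Prop :=
  π.sl f < π.sl c ∧ ∃ x ∈ π.I f ∩ π.I c, π.τ f x = π.τ c x ∧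
    ∃ᶠ q in 𝓝 (x, π.τ f x), G q ∧ π.τ f q.1 < q.2 ∧ q.2 < π.τ c q.1

/-- `j` and `j'` cross, and the wedge above the crossing is good. -/
def UW (G : ℝ × ℝ → Prop) (j j' : J) : Prop :=
  π.sl j' < π.sl j ∧ ∃ x ∈ π.I j ∩ π.I j', π.τ j x = π.τ j' x ∧
    ∀ᶠ q in 𝓝 (x, π.τ j x), π.τ j q.1 < q.2 → π.τ j' q.1 < q.2 → G q

/-- A goodness predicate: constant on faces, and confined to a bounded room. -/
structure Gd (S : Finset J) (G : ℝ × ℝ → Prop) : Prop where
  tr : ∀ p q, G p → (∀ j ∈ S, Disjoint (segment ℝ p q) (π.seg j)) → G q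
  bd : ∃ M : ℝ, ∀ q, G q → M ≤ q.1 ∧ (∃ j ∈ S, q.1 ∈ π.I j ∧ π.τ j q.1 < q.2) ∧
    ∃ j ∈ S, q.1 ∈ π.I j ∧ q.2 < π.τ j q.1

open Classical in
/-- The number of regions that contain a point of `Pt`. -/
noncomputable def ph (Pt : Finset (ℝ × ℝ)) (S : Finset J) : ℕ := (Pt.image (π.Reg S)).card

theorem UAnch_cont (j : J) : Continuous (π.τ j) := by
  unfold τ; fun_prop

theorem UAnch_convex (f c : J) (a u : ℝ) :
    Convex ℝ {z : ℝ × ℝ | z.1 ∈ Ioo a u ∧ π.τ f z.1 < z.2 ∧ z.2 < π.τ c z.1} := by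
  have h1 : Convex ℝ {z : ℝ × ℝ | z.1 ∈ Ioo a u} :=
    (convex_Ioo a u).is_linear_preimage (f := fun z : ℝ × ℝ => z.1) ⟨fun _ _ => rfl, fun _ _ => rfl⟩
  have lin : ∀ s : ℝ, IsLinearMap ℝ fun z : ℝ × ℝ => z.2 - s * z.1 := fun s =>
    ⟨fun x y => by simp; ring, fun r x => by simp; ring⟩
  have h2 := (convex_Ioi (π.ic f)).is_linear_preimage (lin (π.sl f))
  have h3 := (convex_Iio (π.ic c)).is_linear_preimage (lin (π.sl c))
  convert (h1.inter h2).inter h3 using 1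
  ext z
  simp only [τ, mem_ofPred_eq, mem_inter_iff, mem_preimage, mem_Ioi, mem_Iio]
  constructor
  · rintro ⟨h, h', h''⟩; exact ⟨⟨h, by linarith⟩, by linarith⟩
  · rintro ⟨⟨h, h'⟩, h''⟩; exact ⟨h, by linarith, by linarith⟩

open Classical in
/-- A strip to the right of `a` without endpoints and crossings. -/
theorem UAnch_strip (S : Finset J) (a : ℝ) : ∃ u, a < u ∧
    (∀ j ∈ S, ∀ x ∈ Ioo a u, x ∉ π.En j) ∧
    (∀ j ∈ S, ∀ x ∈ Ioo a u, x ∈ π.I j → Ico a u ⊆ π.I j) ∧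
    ∀ j ∈ S, ∀ j' ∈ S, ∀ x ∈ Ioo a u, x ∈ π.I j → x ∈ π.I j' → π.τ j x ≤ π.τ j' x →
      j = j' ∨ ∀ y ∈ Ioo a u, π.τ j y < π.τ j' y := by
  set X : Finset ℝ := S.biUnion π.En ∪
    (S ×ˢ S).image fun a => (π.ic a.2 - π.ic a.1) / (π.sl a.1 - π.sl a.2) with hX
  have h1 : ((X : Set ℝ) \ {a})ᶜ ∈ 𝓝 a :=
    (X.finite_toSet.subset sdiff_subset).isClosed.isOpen_compl.mem_nhds (by simp)
  obtain ⟨u, hu, hs⟩ := (mem_nhdsGT_iff_exists_Ioo_subset).1 (mem_nhdsWithin_of_mem_nhds h1)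
  have hs' : ∀ x ∈ Ioo a u, x ∉ X := fun x hx hX' => hs hx ⟨hX', hx.1.ne'⟩
  have e1 : ∀ j ∈ S, ∀ x ∈ Ioo a u, x ∉ π.En j := fun j hj x hx h =>
    hs' x hx (Finset.mem_union_left _ (Finset.mem_biUnion.2 ⟨j, hj, h⟩))
  refine ⟨u, hu, e1, fun j hj x hx hI => ?_, fun j hj j' hj' x hx hI hI' hle => ?_⟩
  · have : Ioo a u ⊆ interior (π.I j) := by
      refine isPreconnected_Ioo.subset_left_of_subset_union isOpen_interior
        (π.cl j).isOpen_compl (disjoint_compl_right.mono_left interior_subset) ?_ ⟨x, hx, ?_⟩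
      · intro y hy
        by_cases h : y ∈ π.I j
        · left
          by_contra h'
          exact e1 j hj y hy (π.mem_En.2 ⟨subset_closure h, h'⟩)
        · exact Or.inr h
      · by_contra h'
        exact e1 j hj x hx (π.mem_En.2 ⟨subset_closure hI, h'⟩)
    have h2 := closure_minimal (this.trans interior_subset) (π.cl j)
    rw [closure_Ioo (ne_of_lt hu)] at h2
    exact Ico_subset_Icc_self.trans h2
  · by_cases hjj : j = j'
    · exact Or.inl hjj
    right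
    have ne : ∀ y ∈ Ioo a u, π.τ j y ≠ π.τ j' y := by
      intro y hy he
      have hs := π.g0 j j' y hjj ⟨x, hI⟩ ⟨x, hI'⟩ he
      refine hs' y hy (Finset.mem_union_right _ (Finset.mem_image.2
        ⟨(j, j'), Finset.mem_product.2 ⟨hj, hj'⟩, ?_⟩))
      have : π.sl j - π.sl j' ≠ 0 := sub_ne_zero.2 hs
      rw [div_eq_iff this]
      simp only [τ] at he
      linarith
    have : Ioo a u ⊆ {y | π.τ j y < π.τ j' y} := by
      refine isPreconnected_Ioo.subset_left_of_subset_union (v := {y | π.τ j' y < π.τ j y})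
        (isOpen_lt (π.UAnch_cont j) (π.UAnch_cont j'))
        (isOpen_lt (π.UAnch_cont j') (π.UAnch_cont j)) ?_ ?_ ⟨x, hx, lt_of_le_of_ne hle (ne x hx)⟩
      · exact disjoint_left.2 fun y h h' => lt_asymm (show π.τ j y < π.τ j' y from h) h'
      · exact fun y hy => lt_or_gt_of_ne (ne y hy)
    exact fun y hy => this hy

open Classical in
/-- The trapezoid at the left end of a good region. -/
theorem UAnch_trap {S : Finset J} {G : ℝ × ℝ → Prop} (hG : π.Gd S G) {p : ℝ × ℝ}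
    (hO : p ∈ π.O S) (hP : G p) : ∃ a u f c, a < u ∧ f ∈ S ∧ c ∈ S ∧ a ∈ π.I f ∧ a ∈ π.I c ∧
      (∀ q ∈ π.Reg S p, a < q.1) ∧ (∀ x ∈ Ioo a u, π.τ f x < π.τ c x) ∧
      (∀ z : ℝ × ℝ, z.1 ∈ Ioo a u → π.τ f z.1 < z.2 → z.2 < π.τ c z.1 → z ∈ π.Reg S p) ∧
      ∀ j ∈ S, a ∈ interior (π.I j) → π.τ j a ≤ π.τ f a ∨ π.τ c a ≤ π.τ j a := by
  obtain ⟨M, hM⟩ := hG.bd
  have good : ∀ q ∈ π.Reg S p, G q := fun q hq => hG.tr p q hP fun j hj => Rel.disjoint hq hj
  have hne : (Prod.fst '' π.Reg S p).Nonempty := ⟨p.1, p, Rel.refl hO, rfl⟩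
  have hbd : BddBelow (Prod.fst '' π.Reg S p) := ⟨M, by
    rintro _ ⟨q, hq, rfl⟩; exact (hM q (good q hq)).1⟩
  set a := sInf (Prod.fst '' π.Reg S p) with ha
  have hlt : ∀ q ∈ π.Reg S p, a < q.1 := by
    intro q hq
    have h1 : Prod.fst '' π.Reg S p ∈ 𝓝 q.1 :=
      (isOpenMap_fst _ (isOpen_Reg S p)).mem_nhds ⟨q, hq, rfl⟩
    obtain ⟨x, hx, hx'⟩ := ((frequently_lt_nhds q.1).and_eventually h1).exists
    exact (csInf_le hbd hx').trans_lt hx
  obtain ⟨u, hu, e1, e2, e3⟩ := π.UAnch_strip S a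
  obtain ⟨_, ⟨q, hq, rfl⟩, hqu⟩ := exists_lt_of_csInf_lt hne hu
  have hqW : q.1 ∈ Ioo a u := ⟨hlt q hq, hqu⟩
  obtain ⟨-, ⟨f₀, hf₀⟩, c₀, hc₀⟩ := hM q (good q hq)
  obtain ⟨f, hf, hfm⟩ := Finset.exists_max_image
    (S.filter fun j => q.1 ∈ π.I j ∧ π.τ j q.1 < q.2) (fun j => π.τ j q.1)
    ⟨f₀, Finset.mem_filter.2 hf₀⟩
  obtain ⟨c, hc, hcm⟩ := Finset.exists_min_image
    (S.filter fun j => q.1 ∈ π.I j ∧ q.2 < π.τ j q.1) (fun j => π.τ j q.1)
    ⟨c₀, Finset.mem_filter.2 hc₀⟩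
  obtain ⟨hfS, hfI, hfq⟩ := Finset.mem_filter.1 hf
  obtain ⟨hcS, hcI, hcq⟩ := Finset.mem_filter.1 hc
  have fc : ∀ x ∈ Ioo a u, π.τ f x < π.τ c x := by
    rcases e3 f hfS c hcS q.1 hqW hfI hcI (hfq.trans hcq).le with h | h
    · subst h; exact absurd (hfq.trans hcq) (lt_irrefl _)
    · exact h
  have ord : ∀ j ∈ S, ∀ x ∈ Ioo a u, x ∈ π.I j →
      (∀ y ∈ Ioo a u, π.τ j y ≤ π.τ f y) ∨ ∀ y ∈ Ioo a u, π.τ c y ≤ π.τ j y := by
    intro j hj x hx hI
    have hI' : q.1 ∈ π.I j := e2 j hj x hx hI (Ioo_subset_Ico_self hqW)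
    have : π.τ j q.1 ≠ q.2 := fun h => (Reg_sub S p hq).1 j hj ⟨hI', h.symm⟩
    rcases lt_or_gt_of_ne this with h | h
    · left
      rcases e3 j hj f hfS q.1 hqW hI' hfI (hfm j (Finset.mem_filter.2 ⟨hj, hI', h⟩)) with h' | h'
      · subst h'; exact fun _ _ => le_rfl
      · exact fun y hy => (h' y hy).le
    · right
      rcases e3 c hcS j hj q.1 hqW hcI hI' (hcm j (Finset.mem_filter.2 ⟨hj, hI', h⟩)) with h' | h'
      · subst h'; exact fun _ _ => le_rfl
      · exact fun y hy => (h' y hy).le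
  have hZ : {z : ℝ × ℝ | z.1 ∈ Ioo a u ∧ π.τ f z.1 < z.2 ∧ z.2 < π.τ c z.1} ⊆ π.Reg S p := by
    refine sub_Reg (π.UAnch_convex f c a u) ?_ ⟨hqW, hfq, hcq⟩ hq
    rintro z ⟨z1, z2, z3⟩
    refine ⟨fun j hj hz => ?_, fun j hj hz => absurd hz (e1 j hj _ z1)⟩
    rcases ord j hj z.1 z1 hz.1 with h | h
    · have := h z.1 z1; rw [← hz.2] at this; linarith
    · have := h z.1 z1; rw [← hz.2] at this; linarith
  refine ⟨a, u, f, c, hu, hfS, hcS, e2 f hfS _ hqW hfI ⟨le_rfl, hu⟩,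
    e2 c hcS _ hqW hcI ⟨le_rfl, hu⟩, hlt, fc, fun z z1 z2 z3 => hZ ⟨z1, z2, z3⟩, fun j hj hI => ?_⟩
  have h1 : ∀ᶠ x in 𝓝[>] a, x ∈ π.I j :=
    mem_nhdsWithin_of_mem_nhds (mem_interior_iff_mem_nhds.1 hI)
  obtain ⟨x, hx, hx'⟩ := (h1.and (Ioo_mem_nhdsGT hu)).exists
  have hcl : a ∈ closure (Ioo a u) := by rw [closure_Ioo hu.ne]; exact ⟨le_rfl, hu.le⟩
  rcases ord j hj x hx' hx with h | h
  · exact Or.inl (le_on_closure h (π.UAnch_cont j).continuousOn (π.UAnch_cont f).continuousOn hcl)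
  · exact Or.inr (le_on_closure h (π.UAnch_cont c).continuousOn (π.UAnch_cont j).continuousOn hcl)

/-- The anchor of a good region. -/
theorem UAnch_key {S : Finset J} {G : ℝ × ℝ → Prop} (hG : π.Gd S G) {p : ℝ × ℝ}
    (hO : p ∈ π.O S) (hP : G p) :
    (∃ f ∈ S, ∃ c ∈ S, π.GM G f c ∧ ∃ a, π.τ f a = π.τ c a ∧
      ∀ᶠ x in 𝓝[>] a, (x, (π.τ f x + π.τ c x) / 2) ∈ π.Reg S p) ∨
    ∃ j ∈ S, ∃ a ∈ π.En j, ∃ s ∈ ({1, -1} : Finset ℝ),
      ∀ᶠ x in 𝓝[>] a, (x, π.τ j x + s * (x - a)) ∈ π.Reg S p := by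
  obtain ⟨a, u, f, c, hu, hf, hc, hfI, hcI, hlt, fc, hZ, hint⟩ := π.UAnch_trap hG hO hP
  have good : ∀ q ∈ π.Reg S p, G q := fun q hq => hG.tr p q hP fun j hj => Rel.disjoint hq hj
  have cf := π.UAnch_cont f
  have cc := π.UAnch_cont c
  have hW : ∀ᶠ x in 𝓝[>] a, x ∈ Ioo a u := Ioo_mem_nhdsGT hu
  have mid : ∀ᶠ x in 𝓝[>] a, (x, (π.τ f x + π.τ c x) / 2) ∈ π.Reg S p := by
    filter_upwards [hW] with x hx
    have := fc x hx
    exact hZ _ hx (by simp only; linarith) (by simp only; linarith)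
  have tend : Tendsto (fun x => (x, (π.τ f x + π.τ c x) / 2)) (𝓝[>] a)
      (𝓝 (a, (π.τ f a + π.τ c a) / 2)) :=
    (Continuous.tendsto (by fun_prop) a).mono_left nhdsWithin_le_nhds
  have hcl : a ∈ closure (Ioo a u) := by rw [closure_Ioo hu.ne]; exact ⟨le_rfl, hu.le⟩
  have hle : π.τ f a ≤ π.τ c a :=
    le_on_closure (fun x hx => (fc x hx).le) cf.continuousOn cc.continuousOn hcl
  rcases hle.eq_or_lt with he | hl
  · left
    refine ⟨f, hf, c, hc, ⟨?_, a, ⟨hfI, hcI⟩, he, ?_⟩, a, he, mid⟩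
    · obtain ⟨x, hx⟩ := hW.exists
      have := fc x hx
      simp only [τ] at this he
      nlinarith [hx.1]
    · rw [← he, add_self_div_two] at tend
      refine tend.frequently (Eventually.frequently ?_)
      filter_upwards [hW, mid] with x hx hm
      have := fc x hx
      exact ⟨good _ hm, by linarith, by linarith⟩
  right
  have up : ∀ j ∈ S, a ∈ π.En j → (j = f ∨ π.τ f a < π.τ j a) → π.τ j a < π.τ c a →
      ∃ j ∈ S, ∃ a ∈ π.En j, ∃ s ∈ ({1, -1} : Finset ℝ),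
      ∀ᶠ x in 𝓝[>] a, (x, π.τ j x + s * (x - a)) ∈ π.Reg S p := by
    intro j hj ha h1 h2
    have cj := π.UAnch_cont j
    refine ⟨j, hj, a, ha, 1, by simp, ?_⟩
    have b1 : ∀ᶠ x in 𝓝[>] a, π.τ f x ≤ π.τ j x := by
      rcases h1 with rfl | h1
      · exact Eventually.of_forall fun _ => le_rfl
      · exact ((cf.continuousAt.eventually_lt cj.continuousAt h1).filter_mono
          nhdsWithin_le_nhds).mono fun _ h => h.le
    have b2 : ∀ᶠ x in 𝓝[>] a, π.τ j x + 1 * (x - a) < π.τ c x :=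
      (ContinuousAt.eventually_lt (f := fun x => π.τ j x + 1 * (x - a)) (by fun_prop)
        cc.continuousAt (by simpa using h2)).filter_mono nhdsWithin_le_nhds
    filter_upwards [hW, b1, b2] with x hx x1 x2
    exact hZ _ hx (by simp only; linarith [hx.1]) x2
  have hw : (a, (π.τ f a + π.τ c a) / 2) ∉ π.O S := by
    intro hw
    obtain ⟨ε, hε, hb⟩ := Metric.isOpen_iff.1 (isOpen_O S) _ hw
    obtain ⟨x, x1, x2⟩ := ((tend.eventually (Metric.ball_mem_nhds _ hε)).and mid).exists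
    exact lt_irrefl a (hlt _ (sub_Reg (convex_ball _ _) hb x1 x2 (Metric.mem_ball_self hε)))
  by_cases hs : ∀ j ∈ S, (a, (π.τ f a + π.τ c a) / 2) ∉ π.seg j
  · have : ∃ j ∈ S, a ∈ π.En j ∧ ∀ j' ∈ S, j' ≠ j → a ∈ π.I j' →
        π.τ j' a ∉ uIcc ((π.τ f a + π.τ c a) / 2) (π.τ j a) := by
      by_contra hc'
      push Not at hc'
      exact hw ⟨hs, hc'⟩
    obtain ⟨j, hj, ha, hb⟩ := this
    by_cases hjc : j = c
    · subst hjc
      refine ⟨j, hj, a, ha, -1, by simp, ?_⟩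
      have b2 : ∀ᶠ x in 𝓝[>] a, π.τ f x < π.τ j x + -1 * (x - a) :=
        (ContinuousAt.eventually_lt (g := fun x => π.τ j x + -1 * (x - a)) cf.continuousAt
          (by fun_prop) (by simpa using hl)).filter_mono nhdsWithin_le_nhds
      filter_upwards [hW, b2] with x hx x2
      exact hZ _ hx x2 (by simp only; linarith [hx.1])
    · refine up j hj ha ?_ ?_
      · by_cases hjf : j = f
        · exact Or.inl hjf
        · right
          by_contra h
          exact hb f hf (Ne.symm hjf) hfI (mem_uIcc_of_ge (not_lt.1 h) (by linarith))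
      · by_contra h
        exact hb c hc (Ne.symm hjc) hcI (mem_uIcc_of_le (by linarith) (not_lt.1 h))
  · push Not at hs
    obtain ⟨j, hj, h1, h2⟩ := hs
    simp only at h1 h2
    refine up j hj (π.mem_En.2 ⟨subset_closure h1, fun h => ?_⟩) (Or.inr (by linarith))
      (by linarith)
    rcases hint j hj h with h | h <;> linarith

open Classical in
theorem ph_le {S : Finset J} {G : ℝ × ℝ → Prop} (hG : π.Gd S G) {Pt : Finset (ℝ × ℝ)}
    (hO : ∀ p ∈ Pt, p ∈ π.O S) (hP : ∀ p ∈ Pt, G p) :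
    π.ph Pt S ≤ ((S ×ˢ S).filter fun a => π.GM G a.1 a.2).card + 6 * S.card := by
  have common : ∀ {a : ℝ} {g : ℝ → ℝ × ℝ} {p q : ℝ × ℝ}, (∀ᶠ x in 𝓝[>] a, g x ∈ π.Reg S p) →
      (∀ᶠ x in 𝓝[>] a, g x ∈ π.Reg S q) → π.Reg S p = π.Reg S q := by
    intro a g p q h1 h2
    obtain ⟨x, x1, x2⟩ := (h1.and h2).exists
    rw [← Reg_eq x1, Reg_eq x2]
  let r : Set (ℝ × ℝ) → (J × J) ⊕ ((Σ _ : J, ℝ) × ℝ) → Prop := fun κ b =>
    match b with
    | Sum.inl b => ∃ a, π.τ b.1 a = π.τ b.2 a ∧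
        ∀ᶠ x in 𝓝[>] a, (x, (π.τ b.1 x + π.τ b.2 x) / 2) ∈ κ
    | Sum.inr b => ∀ᶠ x in 𝓝[>] b.1.2, (x, π.τ b.1.1 x + b.2 * (x - b.1.2)) ∈ κ
  have h := Finset.card_le_card_of_forall_subsingleton r (s := Pt.image (π.Reg S))
    (t := ((S ×ˢ S).filter fun a => π.GM G a.1 a.2).disjSum
      ((S.sigma fun j => π.En j) ×ˢ ({1, -1} : Finset ℝ))) ?_ ?_
  · refine h.trans ?_
    rw [Finset.card_disjSum, Finset.card_product, Finset.card_sigma]
    have h1 : ∑ j ∈ S, (π.En j).card ≤ S.card * 2 :=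
      (Finset.sum_le_card_nsmul _ _ 2 fun j _ => π.card_En j).trans_eq (smul_eq_mul _ _)
    have h2 : ({1, -1} : Finset ℝ).card ≤ 2 := Finset.card_le_two
    have h3 := Nat.mul_le_mul h1 h2
    omega
  · intro κ hκ
    obtain ⟨p, hp, rfl⟩ := Finset.mem_image.1 hκ
    rcases π.UAnch_key hG (hO p hp) (hP p hp) with ⟨f, hf, c, hc, h1, h2⟩ | ⟨j, hj, a, ha, s, hs, h⟩
    · exact ⟨Sum.inl (f, c), Finset.inl_mem_disjSum.2
        (Finset.mem_filter.2 ⟨Finset.mem_product.2 ⟨hf, hc⟩, h1⟩), h2⟩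
    · exact ⟨Sum.inr (⟨j, a⟩, s), Finset.inr_mem_disjSum.2
        (Finset.mem_product.2 ⟨Finset.mem_sigma.2 ⟨hj, ha⟩, hs⟩), h⟩
  · rintro b hb κ ⟨hκ, h1⟩ κ' ⟨hκ', h2⟩
    obtain ⟨p, -, rfl⟩ := Finset.mem_image.1 hκ
    obtain ⟨q, -, rfl⟩ := Finset.mem_image.1 hκ'
    rcases b with b | b
    · obtain ⟨a, a1, a2⟩ := h1
      obtain ⟨a', a1', a2'⟩ := h2
      have hs := (Finset.mem_filter.1 (Finset.inl_mem_disjSum.1 hb)).2.1
      have : a = a' := by
        simp only [τ] at a1 a1'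
        have : (π.sl b.2 - π.sl b.1) * (a - a') = 0 := by linarith
        rcases mul_eq_zero.1 this with h | h <;> linarith
      subst this
      exact common a2 a2'
    · exact common h1 h2

end Pl

end SC
end

-- merged part: Pool.Agent.Work.MP_8a5de9_co.UCut
section
/-!
# Inserting one obstacle

`sp_add`.  Let `S' = insert T S` and let `N` be the number of values of
`p ↦ (Reg S p, Reg S' p)` on `Pt`.  Clearly `sp + ph S ≤ N` (every region of `S` gives at least one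
value, a split region at least two).  To see `N ≤ ph S' + cut`, represent each value by its
leftmost point `p ∈ Pt`.  If `p` is the leftmost point of `Pt ∩ Reg S' p`, charge `Reg S' p`.
Otherwise let `p⁻` be its left neighbour in `Pt ∩ Reg S' p`; then `¬ Rel S p⁻ p`, while the segment
lies in `O S'`; so a point `y` of the segment lies on the wall of an endpoint `(j, ξ)` of `S` that is
blocked in `S'`, necessarily by `T`; so `(j, ξ)` is counted in `cut`; charge it.  If two points `p`,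
`r` charge the same `(j, ξ)` with points `y`, `y'`, then both lie beyond `T` as seen from the
endpoint (`τ T ξ ≠ τ j ξ` by `g1`), the vertical segment from `y` to `y'` lies in `O S'` (only `j`
has an endpoint at `ξ`, `g2`), so `p, r` lie in one region of `S'`, and
`p⁻.1 < ξ < p.1`, `r⁻.1 < ξ < r.1` give `p = r`.

`cut_sum`.  For an endpoint `(j, ξ)` at most one `T` above and at most one below counts it (of two
on the same side, the nearer one blocks the other).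
-/

open Set Filter Topology

namespace SC

namespace Pl

variable {J : Type} [DecidableEq J] (π : Pl J)

open Classical in
/-- The number of regions whose points are separated by the insertion of `T`. -/
noncomputable def sp (Pt : Finset (ℝ × ℝ)) (S : Finset J) (T : J) : ℕ :=
  ((Pt.image (π.Reg S)).filter fun κ =>
    ∃ q ∈ Pt, ∃ q' ∈ Pt, q ∈ κ ∧ q' ∈ κ ∧ ¬ π.Rel (insert T S) q q').card

open Classical in
/-- The number of walls of `S` that `T` cuts. -/
noncomputable def cut (S : Finset J) (T : J) : ℕ :=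
  ((S.sigma fun j => π.En j).filter fun e => e.2 ∈ π.I T ∧
    ∀ j' ∈ S, j' ≠ e.1 → e.2 ∈ π.I j' → π.τ j' e.2 ∉ uIcc (π.τ e.1 e.2) (π.τ T e.2)).card

/-- Points in general position with respect to the obstacles. -/
structure Gen (Pt : Finset (ℝ × ℝ)) : Prop where
  inj : InjOn Prod.fst (Pt : Set (ℝ × ℝ))
  off : ∀ p ∈ Pt, ∀ j, p ∉ π.seg j
  en : ∀ p ∈ Pt, ∀ j, p.1 ∉ π.En j

variable {π} {Pt : Finset (ℝ × ℝ)}

theorem Gen.mem_O (h : π.Gen Pt) (S : Finset J) {p : ℝ × ℝ} (hp : p ∈ Pt) : p ∈ π.O S :=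
  ⟨fun j _ => h.off p hp j, fun j _ hj => absurd hj (h.en p hp j)⟩

theorem UCut_self (h : π.Gen Pt) (S : Finset J) {p : ℝ × ℝ} (hp : p ∈ Pt) : p ∈ π.Reg S p :=
  Rel.refl (h.mem_O S hp)

open Classical in
theorem UCut_low (h : π.Gen Pt) (S : Finset J) (T : J) : π.sp Pt S T + π.ph Pt S ≤
    (Pt.image fun p => (π.Reg S p, π.Reg (insert T S) p)).card := by
  have h1 : ∀ v ∈ Pt.image fun p => (π.Reg S p, π.Reg (insert T S) p),
      v.1 ∈ Pt.image (π.Reg S) := by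
    intro v hv
    obtain ⟨p, hp, rfl⟩ := Finset.mem_image.1 hv
    exact Finset.mem_image_of_mem _ hp
  rw [Finset.card_eq_sum_card_fiberwise (f := Prod.fst) (t := Pt.image (π.Reg S))
    fun v hv => h1 v hv, sp, ph, Finset.card_filter, Finset.card_eq_sum_ones,
    ← Finset.sum_add_distrib]
  refine Finset.sum_le_sum fun κ hκ => ?_
  obtain ⟨p, hp, rfl⟩ := Finset.mem_image.1 hκ
  split_ifs with hs
  · obtain ⟨q, hq, q', hq', h2, h3, h4⟩ := hs
    refine Finset.one_lt_card.2 ⟨_, Finset.mem_filter.2 ⟨Finset.mem_image_of_mem _ hq, Reg_eq h2⟩,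
      _, Finset.mem_filter.2 ⟨Finset.mem_image_of_mem _ hq', Reg_eq h3⟩, fun e => h4 ?_⟩
    have h5 : π.Reg (insert T S) q = π.Reg (insert T S) q' := congrArg Prod.snd e
    have h6 := UCut_self h (insert T S) hq'
    rwa [← h5] at h6
  · exact Finset.card_pos.2 ⟨_, Finset.mem_filter.2 ⟨Finset.mem_image_of_mem _ hp, rfl⟩⟩

/-- The point `y` lies on the wall of `(j, y.1)` beyond `T`. -/
structure UCutB (π : Pl J) (S : Finset J) (T j : J) (y : ℝ × ℝ) : Prop where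
  mem : j ∈ S
  en : y.1 ∈ π.En j
  inI : y.1 ∈ π.I T
  ne : y.2 ≠ π.τ T y.1
  btw : π.τ T y.1 ∈ uIcc y.2 (π.τ j y.1)
  free : ∀ j' ∈ S, j' ≠ j → y.1 ∈ π.I j' → π.τ j' y.1 ∉ uIcc y.2 (π.τ j y.1)

theorem UCut_exists {S : Finset J} {T : J} {y : ℝ × ℝ} (h1 : y ∈ π.O (insert T S))
    (h2 : y ∉ π.O S) : ∃ j, UCutB π S T j y := by
  have h3 : ¬∀ j ∈ S, y.1 ∈ π.En j →
      ∃ j' ∈ S, j' ≠ j ∧ y.1 ∈ π.I j' ∧ π.τ j' y.1 ∈ uIcc y.2 (π.τ j y.1) :=
    fun h3 => h2 ⟨fun j hj => h1.1 j (Finset.mem_insert_of_mem hj), h3⟩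
  push Not at h3
  obtain ⟨j, hj, hen, hfree⟩ := h3
  obtain ⟨j', hj', hne, hI, hb⟩ := h1.2 j (Finset.mem_insert_of_mem hj) hen
  rcases Finset.mem_insert.1 hj' with rfl | hj'
  · exact ⟨j, hj, hen, hI, fun e => h1.1 j' (Finset.mem_insert_self _ _) ⟨hI, e⟩, hb, hfree⟩
  · exact absurd hb (hfree j' hj' hne hI)

theorem UCut_rel {S : Finset J} {T j : J} (hT : T ∉ S) {y y' : ℝ × ℝ} (h : UCutB π S T j y)
    (h' : UCutB π S T j y') (e : y.1 = y'.1) : π.Rel (insert T S) y y' := by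
  have hjT : j ≠ T := fun e' => hT (e' ▸ h.mem)
  have hne : π.τ j y.1 ≠ π.τ T y.1 := π.g1 j T y.1 hjT (π.mem_En.1 h.en) h.inI
  have b1 := h.btw
  have b2 := h'.btw
  have n1 := h.ne
  have n2 := h'.ne
  have f2 := h'.free
  rw [← e] at b2 n2 f2
  intro z hz
  have hz1 : z.1 = y.1 := by
    have h1 := (Prod.segment_subset y y' hz).1
    rwa [← e, segment_same, mem_singleton_iff] at h1
  have hz2 : z.2 ∈ uIcc y.2 y'.2 := by
    have h1 := (Prod.segment_subset y y' hz).2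
    rwa [segment_eq_uIcc] at h1
  have key : z.2 ≠ π.τ T y.1 ∧ z.2 ≠ π.τ j y.1 ∧ π.τ T y.1 ∈ uIcc z.2 (π.τ j y.1) := by
    rw [mem_uIcc] at b1 b2 hz2 ⊢
    rcases lt_or_gt_of_ne hne with h1 | h1
    · have c1 : π.τ T y.1 < y.2 := lt_of_le_of_ne (by rcases b1 with b | b <;> linarith) n1.symm
      have c2 : π.τ T y.1 < y'.2 := lt_of_le_of_ne (by rcases b2 with b | b <;> linarith) n2.symm
      have c3 : π.τ T y.1 < z.2 := by rcases hz2 with b | b <;> linarith
      exact ⟨c3.ne', (h1.trans c3).ne', Or.inr ⟨h1.le, c3.le⟩⟩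
    · have c1 : y.2 < π.τ T y.1 := lt_of_le_of_ne (by rcases b1 with b | b <;> linarith) n1
      have c2 : y'.2 < π.τ T y.1 := lt_of_le_of_ne (by rcases b2 with b | b <;> linarith) n2
      have c3 : z.2 < π.τ T y.1 := by rcases hz2 with b | b <;> linarith
      exact ⟨c3.ne, (c3.trans h1).ne, Or.inl ⟨c3.le, h1.le⟩⟩
  constructor
  · rintro k hk ⟨hI, hk2⟩
    rw [hz1] at hI hk2
    rcases Finset.mem_insert.1 hk with rfl | hk
    · exact key.1 hk2
    · by_cases hkj : k = j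
      · exact key.2.1 (hkj ▸ hk2)
      · rcases uIcc_subset_uIcc_union_uIcc (b := π.τ j y.1) hz2 with h1 | h1
        · exact h.free k hk hkj hI (hk2 ▸ h1)
        · rw [uIcc_comm, hk2] at h1
          exact f2 k hk hkj hI h1
  · intro k _ hk
    rw [hz1] at hk ⊢
    obtain rfl : k = j := π.g2 k j y.1 (π.mem_En.1 hk) (π.mem_En.1 h.en)
    exact ⟨T, Finset.mem_insert_self _ _, hjT.symm, h.inI, key.2.2⟩

open Classical in
theorem UCut_up (h : π.Gen Pt) {S : Finset J} {T : J} (hT : T ∉ S) :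
    (Pt.image fun p => (π.Reg S p, π.Reg (insert T S) p)).card ≤
      π.ph Pt (insert T S) + π.cut S T := by
  set L := Pt.filter fun p => ∀ q ∈ Pt, π.Reg S q = π.Reg S p →
    π.Reg (insert T S) q = π.Reg (insert T S) p → p.1 ≤ q.1 with hL
  have h1 : (Pt.image fun p => (π.Reg S p, π.Reg (insert T S) p)).card ≤ L.card := by
    refine le_trans (Finset.card_le_card fun v hv => ?_)
      (Finset.card_image_le (f := fun p => (π.Reg S p, π.Reg (insert T S) p)))
    obtain ⟨p, hp, rfl⟩ := Finset.mem_image.1 hv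
    obtain ⟨q, hq, hmin⟩ := Finset.exists_min_image (Pt.filter fun q => π.Reg S q = π.Reg S p ∧
      π.Reg (insert T S) q = π.Reg (insert T S) p) Prod.fst
      ⟨p, Finset.mem_filter.2 ⟨hp, rfl, rfl⟩⟩
    obtain ⟨hq, e1, e2⟩ := Finset.mem_filter.1 hq
    refine Finset.mem_image.2 ⟨q, Finset.mem_filter.2 ⟨hq, fun r hr e3 e4 => ?_⟩, Prod.ext e1 e2⟩
    exact hmin r (Finset.mem_filter.2 ⟨hr, e3.trans e1, e4.trans e2⟩)
  refine h1.trans ?_
  rw [← Finset.card_filter_add_card_filter_not (s := L)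
    fun p => ∀ q ∈ Pt, q ∈ π.Reg (insert T S) p → p.1 ≤ q.1]
  refine add_le_add ?_ ?_
  · refine Finset.card_le_card_of_injOn (π.Reg (insert T S)) (fun p hp => ?_) fun p hp r hr e => ?_
    · exact Finset.mem_coe.2 (Finset.mem_image_of_mem _
        (Finset.mem_filter.1 (Finset.mem_filter.1 hp).1).1)
    · obtain ⟨hp1, hp2⟩ := Finset.mem_filter.1 hp
      obtain ⟨hr1, hr2⟩ := Finset.mem_filter.1 hr
      have hp3 := (Finset.mem_filter.1 hp1).1
      have hr3 := (Finset.mem_filter.1 hr1).1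
      exact h.inj hp3 hr3 (le_antisymm (hp2 r hr3 (e ▸ UCut_self h _ hr3))
        (hr2 p hp3 (e ▸ UCut_self h _ hp3)))
  · refine Finset.card_le_card_of_forall_subsingleton
      (fun (p : ℝ × ℝ) (e : Σ _ : J, ℝ) => ∃ y ∈ π.Reg (insert T S) p, y.1 = e.2 ∧
        UCutB π S T e.1 y ∧ e.2 < p.1 ∧
        ∀ q ∈ Pt, q ∈ π.Reg (insert T S) p → q.1 < p.1 → q.1 < e.2) (fun p hp => ?_) ?_
    · obtain ⟨hp1, hp2⟩ := Finset.mem_filter.1 hp
      obtain ⟨hp3, hp4⟩ := Finset.mem_filter.1 hp1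
      push Not at hp2
      obtain ⟨q₀, hq₀, hq₁, hq₂⟩ := hp2
      obtain ⟨q, hq, hmax⟩ := Finset.exists_max_image (Pt.filter fun q =>
        q ∈ π.Reg (insert T S) p ∧ q.1 < p.1) Prod.fst ⟨q₀, Finset.mem_filter.2 ⟨hq₀, hq₁, hq₂⟩⟩
      obtain ⟨hq, hq1, hq2⟩ := Finset.mem_filter.1 hq
      have h2 : ¬π.Rel S p q := fun h2 => (hp4 q hq (Reg_eq h2) (Reg_eq hq1)).not_gt hq2
      obtain ⟨y, hy, hyO⟩ := not_subset.1 h2
      obtain ⟨j, hj⟩ := UCut_exists (hq1 hy) hyO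
      have h3 : y.1 ∈ Icc q.1 p.1 := by
        have h4 := (Prod.segment_subset p q hy).1
        rwa [segment_symm, segment_eq_Icc hq2.le] at h4
      refine ⟨⟨j, y.1⟩, Finset.mem_filter.2 ⟨Finset.mem_sigma.2 ⟨hj.mem, hj.en⟩, hj.inI,
        fun j' hj' hne hI hb => hj.free j' hj' hne hI ?_⟩, y,
        (convex_Reg _ p).segment_subset (UCut_self h _ hp3) hq1 hy, rfl, hj,
        lt_of_le_of_ne h3.2 fun e => h.en p hp3 j (e ▸ hj.en), fun r hr hr1 hr2 => ?_⟩
      · exact uIcc_subset_uIcc right_mem_uIcc hj.btw hb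
      · exact (hmax r (Finset.mem_filter.2 ⟨hr, hr1, hr2⟩)).trans_lt
          (lt_of_le_of_ne h3.1 fun e => h.en q hq j (e ▸ hj.en))
    · rintro e - p ⟨hp, y, hy, e1, hB, hl, hn⟩ r ⟨hr, y', hy', e1', hB', hl', hn'⟩
      have hp3 := (Finset.mem_filter.1 (Finset.mem_filter.1 hp).1).1
      have hr3 := (Finset.mem_filter.1 (Finset.mem_filter.1 hr).1).1
      have h2 : π.Reg (insert T S) p = π.Reg (insert T S) r :=
        (Reg_eq hy).symm.trans ((Reg_eq (UCut_rel hT hB hB' (e1.trans e1'.symm))).symm.trans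
          (Reg_eq hy'))
      refine h.inj hp3 hr3 (le_antisymm (not_lt.1 fun hlt => ?_) (not_lt.1 fun hlt => ?_))
      · exact lt_asymm hl' (hn r hr3 (h2 ▸ UCut_self h _ hr3) hlt)
      · exact lt_asymm hl (hn' p hp3 (h2 ▸ UCut_self h _ hp3) hlt)

theorem sp_add (h : π.Gen Pt) {S : Finset J} {T : J} (hT : T ∉ S) :
    π.sp Pt S T + π.ph Pt S ≤ π.ph Pt (insert T S) + π.cut S T := by
  exact (UCut_low h S T).trans (UCut_up h hT)

theorem cut_sum (π : Pl J) {S R : Finset J} (hR : R ⊆ S) :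
    ∑ T ∈ R, π.cut (S.erase T) T ≤ 4 * S.card := by
  classical
  let P : J → (Σ _ : J, ℝ) → Prop := fun T e => e.1 ≠ T ∧ e.2 ∈ π.I T ∧
    ∀ j' ∈ S, j' ≠ T → j' ≠ e.1 → e.2 ∈ π.I j' → π.τ j' e.2 ∉ uIcc (π.τ e.1 e.2) (π.τ T e.2)
  have h1 : ∀ T ∈ R, π.cut (S.erase T) T ≤ ((S.sigma fun j => π.En j).filter (P T)).card := by
    intro T _
    unfold cut
    refine Finset.card_le_card fun e he => ?_
    obtain ⟨h2, h3, h4⟩ := Finset.mem_filter.1 he
    obtain ⟨h5, h6⟩ := Finset.mem_sigma.1 h2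
    exact Finset.mem_filter.2 ⟨Finset.mem_sigma.2 ⟨Finset.mem_of_mem_erase h5, h6⟩,
      Finset.ne_of_mem_erase h5, h3, fun j' hj' hne => h4 j' (Finset.mem_erase.2 ⟨hne, hj'⟩)⟩
  have h2 : ∀ e ∈ S.sigma fun j => π.En j, (R.filter fun T => P T e).card ≤ 2 := by
    intro e _
    rw [← Fintype.card_prop, ← Finset.card_univ]
    refine Finset.card_le_card_of_injOn (fun T => π.τ T e.2 < π.τ e.1 e.2)
      (fun _ _ => Finset.mem_coe.2 (Finset.mem_univ _)) fun T hT T' hT' hs => ?_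
    obtain ⟨hT1, hT2, hT3, hT4⟩ := Finset.mem_filter.1 hT
    obtain ⟨hT1', hT2', hT3', hT4'⟩ := Finset.mem_filter.1 hT'
    by_contra hne
    have h3 := hT4 T' (hR hT1') (Ne.symm hne) hT2'.symm hT3'
    have h4 := hT4' T (hR hT1) hne hT2.symm hT3
    have h5 : π.τ T e.2 < π.τ e.1 e.2 ↔ π.τ T' e.2 < π.τ e.1 e.2 := iff_of_eq hs
    rw [mem_uIcc] at h3 h4
    push Not at h3 h4
    by_cases h6 : π.τ T e.2 < π.τ e.1 e.2
    · have h7 := h5.1 h6
      rcases le_total (π.τ T e.2) (π.τ T' e.2) with h8 | h8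
      · linarith [h3.2 h8]
      · linarith [h4.2 h8]
    · have h7 := mt h5.2 h6
      push Not at h6 h7
      linarith [h3.1 h7, h4.1 h6]
  calc ∑ T ∈ R, π.cut (S.erase T) T
      ≤ ∑ T ∈ R, ((S.sigma fun j => π.En j).filter (P T)).card := Finset.sum_le_sum h1
    _ = ∑ e ∈ S.sigma fun j => π.En j, (R.filter fun T => P T e).card := by
        simp only [Finset.card_filter]
        exact Finset.sum_comm
    _ ≤ ∑ _e ∈ S.sigma fun j => π.En j, 2 := Finset.sum_le_sum h2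
    _ = (∑ j ∈ S, (π.En j).card) * 2 := by rw [Finset.sum_const, Finset.card_sigma, smul_eq_mul]
    _ ≤ (∑ _j ∈ S, 2) * 2 := Nat.mul_le_mul_right _ (Finset.sum_le_sum fun j _ => π.card_En j)
    _ = 4 * S.card := by
        rw [Finset.sum_const, smul_eq_mul]
        ring

end Pl

end SC
end

-- merged part: Pool.Agent.Work.MP_8a5de9_co.UArcA
section
/-!
# Common tangents of disjoint convex sets form a planar graph

`planar_cont`: number the vertices by the rank of their abscissa (`Finset.orderEmbOfFin` of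
`Vx.image Prod.fst`) and apply `Pool.Agent.Work.MP_cbf770_co.planar` with `h e k = f e (x k)`; a sign
change in a strip gives a common point strictly inside the strip (intermediate value theorem).
-/

open Set

namespace SC

theorem UArcA_enum (Vx : Finset (ℝ × ℝ)) (hinj : InjOn Prod.fst (Vx : Set (ℝ × ℝ))) :
    ∃ (p : ℕ → ℝ × ℝ) (rk : ℝ × ℝ → ℕ), (∀ k, k < Vx.card → p k ∈ Vx) ∧
      (∀ v ∈ Vx, rk v < Vx.card ∧ p (rk v) = v) ∧
      (∀ i j, i < j → j < Vx.card → (p i).1 < (p j).1) := by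
  classical
  have hX : (Vx.image Prod.fst).card = Vx.card := Finset.card_image_of_injOn hinj
  let o := (Vx.image Prod.fst).orderEmbOfFin hX
  have h1 : ∀ k : Fin Vx.card, ∃ v ∈ Vx, v.1 = o k := fun k =>
    Finset.mem_image.mp (Finset.orderEmbOfFin_mem _ hX k)
  choose q hq hq' using h1
  have h2 : ∀ v : ℝ × ℝ, ∃ k : ℕ, v ∈ Vx → ∃ h : k < Vx.card, q ⟨k, h⟩ = v := by
    intro v
    by_cases hv : v ∈ Vx
    · have : v.1 ∈ range o := by
        rw [Finset.range_orderEmbOfFin]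
        exact Finset.mem_coe.mpr (Finset.mem_image_of_mem _ hv)
      obtain ⟨k, hk⟩ := this
      exact ⟨k, fun _ => ⟨k.2, hinj (hq k) hv ((hq' k).trans hk)⟩⟩
    · exact ⟨0, fun h => absurd h hv⟩
  choose rk hrk using h2
  refine ⟨fun k => if h : k < Vx.card then q ⟨k, h⟩ else 0, rk, ?_, ?_, ?_⟩
  · intro k hk
    simp only [dif_pos hk]
    exact hq _
  · intro v hv
    obtain ⟨h, e⟩ := hrk v hv
    refine ⟨h, ?_⟩
    simp only [dif_pos h]
    exact e
  · intro i j hij hj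
    have hi : i < Vx.card := hij.trans hj
    simp only [dif_pos hi, dif_pos hj]
    rw [hq', hq']
    exact o.strictMono (Fin.mk_lt_mk.mpr hij)

theorem UArcA_ivt {g : ℝ → ℝ} {a b : ℝ} (hab : a < b) (hg : ContinuousOn g (Icc a b))
    (h : g a * g b < 0) : ∃ x, a < x ∧ x < b ∧ g x = 0 := by
  rcases lt_or_gt_of_ne (show g a ≠ 0 by rintro h0; simp [h0] at h) with ha | ha
  · have hb : 0 < g b := by
      by_contra hb
      push Not at hb
      nlinarith
    obtain ⟨x, hx, e⟩ := intermediate_value_Ioo hab.le hg (show (0 : ℝ) ∈ Ioo (g a) (g b) from ⟨ha, hb⟩)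
    exact ⟨x, hx.1, hx.2, e⟩
  · have hb : g b < 0 := by
      by_contra hb
      push Not at hb
      nlinarith
    obtain ⟨x, hx, e⟩ := intermediate_value_Ioo' hab.le hg (show (0 : ℝ) ∈ Ioo (g b) (g a) from ⟨hb, ha⟩)
    exact ⟨x, hx.1, hx.2, e⟩

theorem planar_cont {ε : Type} (Vx : Finset (ℝ × ℝ)) (hinj : InjOn Prod.fst (Vx : Set (ℝ × ℝ)))
    (Ed : Finset ε) (l r : ε → ℝ × ℝ) (f : ε → ℝ → ℝ)
    (hv : ∀ e ∈ Ed, l e ∈ Vx ∧ r e ∈ Vx ∧ (l e).1 < (r e).1 ∧ f e (l e).1 = (l e).2 ∧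
      f e (r e).1 = (r e).2 ∧ ContinuousOn (f e) (Icc (l e).1 (r e).1))
    (hav : ∀ e ∈ Ed, ∀ v ∈ Vx, (l e).1 < v.1 → v.1 < (r e).1 → f e v.1 ≠ v.2)
    (hne : ∀ e ∈ Ed, ∀ e' ∈ Ed, e ≠ e' → ∀ x, (l e).1 < x → x < (r e).1 → (l e').1 < x →
      x < (r e').1 → f e x ≠ f e' x)
    (hsimp : ∀ e ∈ Ed, ∀ e' ∈ Ed, l e = l e' → r e = r e' → e = e') :
    Ed.card ≤ 3 * Vx.card := by
  classical
  obtain ⟨p, rk, hp, hrk, hmono⟩ := UArcA_enum Vx hinj
  have hle : ∀ i j, i ≤ j → j < Vx.card → (p i).1 ≤ (p j).1 := by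
    intro i j hij hj
    rcases hij.eq_or_lt with rfl | h
    · exact le_rfl
    · exact (hmono i j h hj).le
  have hL : ∀ e ∈ Ed, rk (l e) < Vx.card ∧ p (rk (l e)) = l e := fun e he => hrk _ (hv e he).1
  have hR : ∀ e ∈ Ed, rk (r e) < Vx.card ∧ p (rk (r e)) = r e := fun e he => hrk _ (hv e he).2.1
  have hin : ∀ e ∈ Ed, ∀ k, rk (l e) < k → k < rk (r e) →
      (l e).1 < (p k).1 ∧ (p k).1 < (r e).1 := by
    intro e he k h1 h2
    have a := hmono _ _ h1 (h2.trans (hR e he).1)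
    have b := hmono _ _ h2 (hR e he).1
    rw [(hL e he).2] at a
    rw [(hR e he).2] at b
    exact ⟨a, b⟩
  have hin' : ∀ e ∈ Ed, ∀ i, rk (l e) ≤ i → i < rk (r e) →
      (l e).1 ≤ (p i).1 ∧ (p (i + 1)).1 ≤ (r e).1 := by
    intro e he k h1 h2
    have a := hle _ _ h1 (h2.trans (hR e he).1)
    have b := hle (k + 1) _ h2 (hR e he).1
    rw [(hL e he).2] at a
    rw [(hR e he).2] at b
    exact ⟨a, b⟩
  have key := Pool.Agent.Work.MP_cbf770_co.planar (E := Ed) (S := Finset.range Vx.card)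
    (l := fun e => rk (l e)) (r := fun e => rk (r e)) (y := fun k => (p k).2)
    (h := fun e k => f e (p k).1) ?_ ?_ ?_ ?_
  · simpa using key
  · refine ⟨?_, ?_, ?_, ?_, ?_⟩
    · intro e he
      by_contra hc
      push Not at hc
      have a := hle _ _ hc (hL e he).1
      rw [(hL e he).2, (hR e he).2] at a
      exact absurd (hv e he).2.2.1 (not_lt.mpr a)
    · intro e he
      rw [(hL e he).2]
      exact (hv e he).2.2.2.1
    · intro e he
      rw [(hR e he).2]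
      exact (hv e he).2.2.2.2.1
    · intro e he k h1 h2
      obtain ⟨a, b⟩ := hin e he k h1 h2
      exact hav e he _ (hp k (h2.trans (hR e he).1)) a b
    · intro e he e' he' hee k h1 h2 h3 h4
      obtain ⟨a, b⟩ := hin e he k h1 h2
      obtain ⟨a', b'⟩ := hin e' he' k h3 h4
      exact hne e he e' he' hee _ a b a' b'
  · intro e he
    exact ⟨Finset.mem_range.mpr (hL e he).1, Finset.mem_range.mpr (hR e he).1⟩
  · intro e he e' he' h1 h2
    refine hsimp e he e' he' ?_ ?_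
    · rw [← (hL e he).2, ← (hL e' he').2]
      exact congrArg p h1
    · rw [← (hR e he).2, ← (hR e' he').2]
      exact congrArg p h2
  · intro e he e' he' i hc
    have hee : e ≠ e' := by
      rintro rfl
      exact Pool.Agent.Work.MP_cbf770_co.not_Cr_self e i hc
    obtain ⟨c1, c2, c3, c4, c5⟩ := hc
    obtain ⟨a, b⟩ := hin' e he i c1 c2
    obtain ⟨a', b'⟩ := hin' e' he' i c3 c4
    have hi : (p i).1 < (p (i + 1)).1 :=
      hmono i (i + 1) (Nat.lt_succ_self i) (lt_of_le_of_lt c2 (hR e he).1)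
    have hcont : ContinuousOn (fun x => f e x - f e' x) (Icc (p i).1 (p (i + 1)).1) :=
      ((hv e he).2.2.2.2.2.mono (Icc_subset_Icc a b)).sub
        ((hv e' he').2.2.2.2.2.mono (Icc_subset_Icc a' b'))
    obtain ⟨x, hx1, hx2, hx⟩ := UArcA_ivt hi hcont c5
    exact hne e he e' he' hee x (a.trans_lt hx1) (hx2.trans_le b) (a'.trans_lt hx1)
      (hx2.trans_le b') (sub_eq_zero.mp hx)

/-- The convex hull of a class. -/
def hull {κ : Type} (Pt : Finset (ℝ × ℝ)) (cls : ℝ × ℝ → κ) (k : κ) : Set (ℝ × ℝ) :=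
  convexHull ℝ {p | p ∈ Pt ∧ cls p = k}

/-- Points on rails (lines), divided into classes with disjoint hulls. -/
structure LK (ι κ : Type) where
  Pt : Finset (ℝ × ℝ)
  t : ℝ × ℝ → ι
  rs : ι → ℝ
  ri : ι → ℝ
  cls : ℝ × ℝ → κ
  inj : InjOn Prod.fst (Pt : Set (ℝ × ℝ))
  on : ∀ p ∈ Pt, p.2 = rs (t p) * p.1 + ri (t p)
  off : ∀ p ∈ Pt, ∀ q ∈ Pt, t q ≠ t p → q.2 ≠ rs (t p) * q.1 + ri (t p)
  disj : ∀ k k', k ≠ k' → Disjoint (hull Pt cls k) (hull Pt cls k')

/-- Two consecutive points of one rail. -/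
structure Link {ι : Type} (Pt : Finset (ℝ × ℝ)) (t : ℝ × ℝ → ι) (a : (ℝ × ℝ) × ℝ × ℝ) : Prop where
  m1 : a.1 ∈ Pt
  m2 : a.2 ∈ Pt
  same : t a.2 = t a.1
  lt : a.1.1 < a.2.1
  next : ∀ q ∈ Pt, t q = t a.1 → ¬ (a.1.1 < q.1 ∧ q.1 < a.2.1)

namespace LK

variable {ι κ : Type} (L : LK ι κ)

/-- A link that is a common tangent from below of two classes and misses all other hulls. -/
structure Clean (a : (ℝ × ℝ) × ℝ × ℝ) : Prop where
  link : Link L.Pt L.t a
  ne : L.cls a.1 ≠ L.cls a.2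
  above : ∀ q ∈ L.Pt, L.cls q = L.cls a.1 ∨ L.cls q = L.cls a.2 →
    L.rs (L.t a.1) * q.1 + L.ri (L.t a.1) ≤ q.2
  third : ∀ k, k ≠ L.cls a.1 → k ≠ L.cls a.2 → Disjoint (segment ℝ a.1 a.2) (hull L.Pt L.cls k)

end LK

end SC
end

-- merged part: Pool.Agent.Work.MP_8a5de9_co.UMark
section
/-!
# Marked points

`exists_mk`.  Let `X` be the finite set of all endpoints and of all abscissae where two lines
`j ≠ j'` with nonempty intervals cross (`g0`: at most one for each pair); let `2 δ > 0` be at most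
the distance of any two different elements of `X`.  For a pair `(T, T')` with `UW G (e T) (e T')`
and crossing abscissa `x ∈ X` put `m = (x + δ, τ (e T) (x + δ))` and `p = m + (0, ε)`, `t p = T`.
By `g3` different pairs have different `x`, so the points have different abscissae; `x + δ ∉ X`, so
`m` lies on no other line with nonempty interval.  By `g1`, `x` is not an endpoint of `I (e T)` or
`I (e T')`, hence `[x - 2 δ, x + 2 δ]` lies in both intervals.  All the remaining properties hold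
for small `ε > 0` (finitely many conditions, use `∀ᶠ ε in 𝓝[>] 0` or an explicit minimum):
* `G p`: on `(x, x + δ]` the functions `τ j - τ (e T)` have constant signs; take `q` very near the
  crossing, right of it and just above `e T` (so above `e T'`); the segment from `q` to `p` lies above
  `e T` and below the lines that are above `e T`;
* `h1`: if `γ` is a lower bound for the distances of the `m` from the other lines, the segment from
  `r` to `q` crosses the line of `T` at a parameter `≤ ε / γ`, so within horizontal distance `δ`;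
* `h2`: for `p'` coming from `(T, T')` with crossing `x'` the line of `T'` is below the rail at `x'`
  and above it at `x' - δ ≥ p.1`;
* `h3`: the rails cross at an abscissa `x* ∈ X`, so `p.1 + δ ≤ x* ≤ p'.1 - δ` and the same for
  `q, q'`; the line of `t q` meets the rail of `t p` within distance `δ` of `x*`.

`card_links`: every point that is not the last one on its rail is the tail of a link.
-/

open Set Filter Topology

namespace SC

theorem UMark_small {c : ℝ} (hc : 0 < c) (K : ℝ) : ∀ᶠ ε in 𝓝[>] (0 : ℝ), K * ε < c := by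
  have : Tendsto (fun ε : ℝ => K * ε) (𝓝 0) (𝓝 (K * 0)) := tendsto_id.const_mul K
  rw [mul_zero] at this
  exact (this.eventually (gt_mem_nhds hc)).filter_mono nhdsWithin_le_nhds

theorem UMark_gap (X : Finset ℝ) : ∃ δ > 0, ∀ x ∈ X, ∀ y ∈ X, x < y → x + 2 * δ ≤ y := by
  have : ∀ᶠ δ in 𝓝[>] (0 : ℝ), ∀ x ∈ X, ∀ y ∈ X, x < y → x + 2 * δ ≤ y := by
    refine (eventually_all_finset X).2 fun x _ => (eventually_all_finset X).2 fun y _ => ?_
    by_cases h : x < y
    · filter_upwards [UMark_small (sub_pos.2 h) 2] with δ hδ _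
      linarith
    · exact .of_forall fun _ h' => absurd h' h
  obtain ⟨δ, h1, h2⟩ := (this.and self_mem_nhdsWithin).exists
  exact ⟨δ, h2, h1⟩

theorem UMark_rail {s c : ℝ} {p p' y : ℝ × ℝ} (hp : p.2 = s * p.1 + c) (hp' : p'.2 = s * p'.1 + c) :
    y ∈ segment ℝ p p' → y.1 ∈ uIcc p.1 p'.1 ∧ y.2 = s * y.1 + c := by
  rintro ⟨a, b, ha, hb, hab, rfl⟩
  refine ⟨?_, ?_⟩
  · rw [← segment_eq_uIcc]
    exact ⟨a, b, ha, hb, hab, rfl⟩
  · simp only [Prod.snd_add, Prod.smul_snd, Prod.fst_add, Prod.smul_fst, smul_eq_mul, hp, hp']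
    linear_combination c * hab

theorem UMark_rail' {s c x : ℝ} {p p' : ℝ × ℝ} (hp : p.2 = s * p.1 + c)
    (hp' : p'.2 = s * p'.1 + c) (hx : x ∈ uIcc p.1 p'.1) : (x, s * x + c) ∈ segment ℝ p p' := by
  rw [← segment_eq_uIcc] at hx
  obtain ⟨a, b, ha, hb, hab, rfl⟩ := hx
  refine ⟨a, b, ha, hb, hab, Prod.ext rfl ?_⟩
  simp only [Prod.snd_add, Prod.smul_snd, smul_eq_mul, hp, hp']
  linear_combination c * hab

theorem UMark_Icc {I : Set ℝ} (hI : IsClosed I) {x δ : ℝ} (hδ : 0 < δ) (hx : x ∈ I)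
    (h : ∀ y ∈ frontier I, y + δ ≤ x ∨ x + δ ≤ y) : Icc (x - δ) (x + δ) ⊆ I := by
  have hin : ∀ y ∈ Ioo (x - δ) (x + δ), y ∈ I → y ∈ interior I := fun y hy hyI => by
    by_contra hc
    rcases h y ⟨subset_closure hyI, hc⟩ with h | h <;> linarith [hy.1, hy.2]
  have h1 : Ioo (x - δ) (x + δ) ⊆ interior I :=
    isPreconnected_Ioo.subset_of_closure_inter_subset isOpen_interior
      ⟨x, ⟨by linarith, by linarith⟩, hin x ⟨by linarith, by linarith⟩ hx⟩
      fun y hy => hin y hy.2 (hI.closure_subset_iff.2 interior_subset hy.1)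
  rw [← closure_Ioo (by linarith : x - δ ≠ x + δ)]
  exact hI.closure_subset_iff.2 (h1.trans interior_subset)

namespace Pl

variable {J ι : Type} [Fintype J] [DecidableEq J] [DecidableEq ι]

/-- Marked points; the rail of `T` is the line of `e T` raised by `ε`. -/
structure Mk (π : Pl J) (e : ι ↪ J) (G₀ : Finset ι) where
  Pt : Finset (ℝ × ℝ)
  t : ℝ × ℝ → ι
  ε : ℝ
  gen : π.Gen Pt
  mem : ∀ p ∈ Pt, t p ∈ G₀
  on : ∀ p ∈ Pt, p.2 = π.τ (e (t p)) p.1 + ε
  off : ∀ p ∈ Pt, ∀ q ∈ Pt, t q ≠ t p → q.2 ≠ π.τ (e (t p)) q.1 + ε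
  h1 : ∀ p ∈ Pt, ∀ p' ∈ Pt, t p' = t p → ∀ r ∈ segment ℝ p p', ∀ q ∈ Pt,
    q.2 < π.τ (e (t p)) q.1 + ε → ¬ Disjoint (segment ℝ r q) (π.seg (e (t p)))
  h2 : ∀ a, Link Pt t a → ∃ T ∈ G₀, ¬ Disjoint (segment ℝ a.1 a.2) (π.seg (e T))
  h3 : ∀ a b, Link Pt t a → Link Pt t b → t b.1 ≠ t a.1 →
    ¬ Disjoint (segment ℝ a.1 a.2) (segment ℝ b.1 b.2) →
      ¬ Disjoint (segment ℝ a.1 a.2) (π.seg (e (t b.1)))

open Classical in
theorem exists_mk [Nonempty ι] (π : Pl J) (e : ι ↪ J) (G₀ : Finset ι) {G : ℝ × ℝ → Prop}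
    (htr : ∀ p q, G p → (∀ j, Disjoint (segment ℝ p q) (π.seg j)) → G q) :
    ∃ M : Mk π e G₀, (∀ p ∈ M.Pt, G p) ∧
      ((G₀ ×ˢ G₀).filter fun a => π.UW G (e a.1) (e a.2)).card ≤ M.Pt.card := by
  set X : Finset ℝ := Finset.univ.biUnion π.En ∪ (Finset.univ : Finset (J × J)).image
    fun a => (π.ic a.2 - π.ic a.1) / (π.sl a.1 - π.sl a.2) with hX
  have hX1 : ∀ j, ∀ ξ ∈ π.En j, ξ ∈ X := fun j ξ h =>
    Finset.mem_union_left _ (Finset.mem_biUnion.2 ⟨j, Finset.mem_univ _, h⟩)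
  have hX2 : ∀ j j' x, j ≠ j' → (π.I j).Nonempty → (π.I j').Nonempty → π.τ j x = π.τ j' x →
      x ∈ X := fun j j' x h h1 h2 h3 => by
    refine Finset.mem_union_right _ (Finset.mem_image.2 ⟨(j, j'), Finset.mem_univ _, ?_⟩)
    have h4 := sub_ne_zero.2 (π.g0 j j' x h h1 h2 h3)
    unfold τ at h3
    field_simp
    linarith
  obtain ⟨δ, hδ, hgap⟩ := UMark_gap X
  set A := (G₀ ×ˢ G₀).filter fun a => π.UW G (e a.1) (e a.2) with hA
  have hex : ∀ a ∈ A, ∃ x ∈ π.I (e a.1) ∩ π.I (e a.2), π.τ (e a.1) x = π.τ (e a.2) x ∧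
      ∀ᶠ q in 𝓝 (x, π.τ (e a.1) x), π.τ (e a.1) q.1 < q.2 → π.τ (e a.2) q.1 < q.2 → G q :=
    fun a ha => (Finset.mem_filter.1 ha).2.2
  choose! xa hI hτ hev using hex
  have hsl : ∀ a ∈ A, π.sl (e a.2) < π.sl (e a.1) := fun a ha => (Finset.mem_filter.1 ha).2.1
  have hG0 : ∀ a ∈ A, a.1 ∈ G₀ ∧ a.2 ∈ G₀ := fun a ha =>
    Finset.mem_product.1 (Finset.mem_filter.1 ha).1
  have hne : ∀ a ∈ A, e a.1 ≠ e a.2 := fun a ha h => (hsl a ha).ne' (by rw [h])
  have hn1 : ∀ a ∈ A, (π.I (e a.1)).Nonempty := fun a ha => ⟨_, (hI a ha).1⟩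
  have hxX : ∀ a ∈ A, xa a ∈ X := fun a ha =>
    hX2 _ _ _ (hne a ha) (hn1 a ha) ⟨_, (hI a ha).2⟩ (hτ a ha)
  have hinj : ∀ a ∈ A, ∀ a' ∈ A, xa a = xa a' → a = a' := fun a ha a' ha' h => by
    have := π.g3 (e a.1) (e a.2) (e a'.1) (e a'.2) (xa a) (hI a ha).1 (hI a ha).2
      (h ▸ (hI a' ha').1) (h ▸ (hI a' ha').2) (hsl a ha) (hsl a' ha') (hτ a ha) (h ▸ hτ a' ha')
    exact Prod.ext (e.injective this.1) (e.injective this.2)
  have hIcc : ∀ j x, x ∈ X → x ∈ π.I j → x ∉ frontier (π.I j) →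
      Icc (x - 2 * δ) (x + 2 * δ) ⊆ π.I j := fun j x hx h1 h2 =>
    UMark_Icc (π.cl j) (by linarith) h1 fun y hy => by
      rcases lt_trichotomy y x with h | h | h
      · exact Or.inl (hgap y (hX1 j y (π.mem_En.2 hy)) x hx h)
      · exact absurd (h ▸ hy) h2
      · exact Or.inr (hgap x hx y (hX1 j y (π.mem_En.2 hy)) h)
  have hI1 : ∀ a ∈ A, Icc (xa a - 2 * δ) (xa a + 2 * δ) ⊆ π.I (e a.1) := fun a ha =>
    hIcc _ _ (hxX a ha) (hI a ha).1 fun h => π.g1 _ _ _ (hne a ha) h (hI a ha).2 (hτ a ha)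
  have hI2 : ∀ a ∈ A, Icc (xa a - 2 * δ) (xa a + 2 * δ) ⊆ π.I (e a.2) := fun a ha =>
    hIcc _ _ (hxX a ha) (hI a ha).2 fun h =>
      π.g1 _ _ _ (hne a ha).symm h (hI a ha).1 (hτ a ha).symm
  have hnX : ∀ a ∈ A, ∀ y, xa a < y → y ≤ xa a + δ → y ∉ X := fun a ha y h1 h2 h => by
    linarith [hgap _ (hxX a ha) y h h1]
  have hoff : ∀ a ∈ A, ∀ j, j ≠ e a.1 → (π.I j).Nonempty →
      π.τ j (xa a + δ) ≠ π.τ (e a.1) (xa a + δ) := fun a ha j hj hn h =>
    hnX a ha _ (by linarith) le_rfl (hX2 _ _ _ hj hn (hn1 a ha) h)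
  have hcont : ∀ j, Continuous (π.τ j) := fun j => by unfold τ; fun_prop
  have hsg : ∀ a ∈ A, ∀ j j', (π.I j).Nonempty → (π.I j').Nonempty →
      π.τ j (xa a + δ) < π.τ j' (xa a + δ) → π.τ j (xa a) ≤ π.τ j' (xa a) :=
    fun a ha j j' h1 h2 h => by
      by_contra hc
      have := intermediate_value_Ioo (f := fun x => π.τ j' x - π.τ j x)
        (by linarith : xa a ≤ xa a + δ) ((hcont j').sub (hcont j)).continuousOn
        (mem_Ioo.2 ⟨by linarith [not_le.1 hc], by linarith⟩ : (0 : ℝ) ∈ _)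
      obtain ⟨y, hy, hy0⟩ := this
      exact hnX a ha y hy.1 hy.2.le (hX2 j j' y (fun h' => h.ne (by rw [h'])) h1 h2
        (by linarith [show π.τ j' y - π.τ j y = 0 from hy0]))
  have hsm : ∀ᶠ ε in 𝓝[>] (0 : ℝ),
      (∀ a ∈ A, ∀ a' ∈ A, ∀ j j', π.τ j (xa a' + δ) < π.τ j' (xa a' + δ) →
        ε < π.τ j' (xa a' + δ) - π.τ j (xa a' + δ) ∧
          |xa a - xa a'| * ε < δ * (π.τ j' (xa a' + δ) - π.τ j (xa a' + δ))) ∧
      ∀ j j', π.sl j < π.sl j' → ε < δ * (π.sl j' - π.sl j) := by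
    refine Eventually.and ((eventually_all_finset A).2 fun a _ =>
      (eventually_all_finset A).2 fun a' _ => eventually_all.2 fun j => eventually_all.2 fun j' => ?_)
      (eventually_all.2 fun j => eventually_all.2 fun j' => ?_)
    · by_cases h : π.τ j (xa a' + δ) < π.τ j' (xa a' + δ)
      · filter_upwards [UMark_small (sub_pos.2 h) 1,
          UMark_small (mul_pos hδ (sub_pos.2 h)) |xa a - xa a'|] with ε h1 h2 _
        exact ⟨by linarith, h2⟩
      · exact .of_forall fun _ h' => absurd h' h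
    · by_cases h : π.sl j < π.sl j'
      · filter_upwards [UMark_small (mul_pos hδ (sub_pos.2 h)) 1] with ε h1 _
        linarith
      · exact .of_forall fun _ h' => absurd h' h
  obtain ⟨ε, ⟨c1, c3⟩, hε⟩ := (hsm.and self_mem_nhdsWithin).exists
  replace hε : 0 < ε := hε
  set pt : ι × ι → ℝ × ℝ := fun a => (xa a + δ, π.τ (e a.1) (xa a + δ) + ε) with hpt
  set t : ℝ × ℝ → ι := fun p => (Classical.epsilon fun a : ι × ι => a ∈ A ∧ pt a = p).1 with ht
  have hpinj : ∀ a ∈ A, ∀ a' ∈ A, (pt a).1 = (pt a').1 → a = a' := fun a ha a' ha' h =>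
    hinj a ha a' ha' (add_right_cancel h)
  have htp : ∀ a ∈ A, t (pt a) = a.1 := fun a ha => by
    have := Classical.epsilon_spec (p := fun a' : ι × ι => a' ∈ A ∧ pt a' = pt a) ⟨a, ha, rfl⟩
    exact congrArg Prod.fst (hpinj _ this.1 a ha (congrArg Prod.fst this.2))
  have hm : ∀ p ∈ A.image pt, ∃ a ∈ A, pt a = p := fun p hp => Finset.mem_image.1 hp
  have hp1 : ∀ a, (pt a).1 = xa a + δ := fun _ => rfl
  have hrail : ∀ a : ι × ι, (pt a).2 = π.sl (e a.1) * (pt a).1 + (π.ic (e a.1) + ε) := fun a => by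
    simp only [hpt, τ]
    ring
  -- the half-open segment from the crossing to the marked point misses all obstacles
  have hfree : ∀ a ∈ A, ∀ s : ℝ, 0 < s → s ≤ 1 → ∀ j,
      (xa a + s * δ, π.τ (e a.1) (xa a + s * δ) + s * ε) ∉ π.seg j := by
    rintro a ha s hs0 hs1 j ⟨h1, h2⟩
    dsimp only at h1 h2
    by_cases hj : j = e a.1
    · rw [hj] at h2
      nlinarith
    have e1 : ∀ k, π.τ k (xa a + s * δ) = (1 - s) * π.τ k (xa a) + s * π.τ k (xa a + δ) :=
      fun k => by unfold τ; ring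
    rw [e1, e1] at h2
    rcases lt_or_gt_of_ne (hoff a ha j hj ⟨_, h1⟩) with h | h
    · nlinarith [hsg a ha _ _ ⟨_, h1⟩ (hn1 a ha) h]
    · nlinarith [hsg a ha _ _ (hn1 a ha) ⟨_, h1⟩ h, (c1 a ha a ha _ _ h).1]
  refine ⟨⟨A.image pt, t, ε, ⟨?_, ?_, ?_⟩, ?_, ?_, ?_, ?_, ?_, ?_⟩, ?_, ?_⟩
  · intro p hp q hq h
    obtain ⟨a, ha, rfl⟩ := hm p hp
    obtain ⟨a', ha', rfl⟩ := hm q hq
    rw [hpinj a ha a' ha' h]
  · intro p hp j
    obtain ⟨a, ha, rfl⟩ := hm p hp
    simpa using hfree a ha 1 one_pos le_rfl j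
  · intro p hp j h
    obtain ⟨a, ha, rfl⟩ := hm p hp
    exact hnX a ha _ (by linarith) le_rfl (hX1 j _ h)
  · intro p hp
    obtain ⟨a, ha, rfl⟩ := hm p hp
    rw [htp a ha]
    exact (hG0 a ha).1
  · intro p hp
    obtain ⟨a, ha, rfl⟩ := hm p hp
    rw [htp a ha]
  · intro p hp q hq h h'
    obtain ⟨a, ha, rfl⟩ := hm p hp
    obtain ⟨a', ha', rfl⟩ := hm q hq
    rw [htp a ha, htp a' ha'] at h
    rw [htp a ha] at h'
    exact hoff a' ha' (e a.1) (fun h1 => h (e.injective h1).symm) (hn1 a ha)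
      (add_right_cancel h').symm
  · intro p hp p' hp' h r hr q hq hlt
    obtain ⟨a, ha, rfl⟩ := hm p hp
    obtain ⟨a', ha', rfl⟩ := hm p' hp'
    obtain ⟨b, hb, rfl⟩ := hm q hq
    rw [htp a ha, htp a' ha'] at h
    rw [htp a ha] at hlt ⊢
    have hlt' : π.τ (e b.1) (xa b + δ) < π.τ (e a.1) (xa b + δ) := lt_of_add_lt_add_right hlt
    obtain ⟨r1, r2⟩ := UMark_rail (hrail a) (h ▸ hrail a') hr
    set D := π.τ (e a.1) (xa b + δ) - π.τ (e b.1) (xa b + δ) with hD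
    have hD0 : 0 < D := sub_pos.2 hlt'
    obtain ⟨d1, d2⟩ := c1 a ha b hb _ _ hlt'
    obtain ⟨-, d3⟩ := c1 a' ha' b hb _ _ hlt'
    have hs : ε / D ≤ 1 := (div_le_one hD0).2 d1.le
    have hs0 : 0 ≤ ε / D := div_nonneg hε.le hD0.le
    have hb1 : |r.1 - (xa b + δ)| * ε ≤ δ * D := by
      have : |r.1 - (xa b + δ)| ≤ |xa a - xa b| ∨ |r.1 - (xa b + δ)| ≤ |xa a' - xa b| := by
        rcases mem_uIcc.1 r1 with ⟨u1, u2⟩ | ⟨u1, u2⟩ <;> rw [hp1] at u1 u2 <;>
          rcases le_total r.1 (xa b + δ) with u | u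
        · left; rw [abs_of_nonpos (by linarith)]; linarith [neg_abs_le (xa a - xa b)]
        · right; rw [abs_of_nonneg (by linarith)]; linarith [le_abs_self (xa a' - xa b)]
        · right; rw [abs_of_nonpos (by linarith)]; linarith [neg_abs_le (xa a' - xa b)]
        · left; rw [abs_of_nonneg (by linarith)]; linarith [le_abs_self (xa a - xa b)]
      rcases this with u | u <;> nlinarith
    have hb2 : |ε / D * (xa b + δ - r.1)| ≤ δ := by
      rw [abs_mul, abs_of_nonneg hs0, abs_sub_comm, div_mul_eq_mul_div, div_le_iff₀ hD0]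
      linarith
    rw [not_disjoint_iff]
    refine ⟨(1 - ε / D) • r + (ε / D) • pt b, ⟨_, _, by linarith, hs0, by ring, rfl⟩, ?_, ?_⟩
    · have u1 := hI1 a ha
      have u2 := h ▸ hI1 a' ha'
      obtain ⟨v1, v2⟩ := abs_le.1 hb2
      have e1 : ((1 - ε / D) • r + (ε / D) • pt b).1 = r.1 + ε / D * (xa b + δ - r.1) := by
        simp only [Prod.fst_add, Prod.smul_fst, smul_eq_mul, hpt]
        ring
      rw [e1]
      rcases mem_uIcc.1 r1 with ⟨w1, w2⟩ | ⟨w1, w2⟩ <;> rw [hp1] at w1 w2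
      · exact (π.oc _).out (u1 ⟨by linarith, by linarith⟩ : xa a ∈ _)
          (u2 ⟨by linarith, le_rfl⟩ : xa a' + 2 * δ ∈ _) ⟨by linarith, by linarith⟩
      · exact (π.oc _).out (u2 ⟨by linarith, by linarith⟩ : xa a' ∈ _)
          (u1 ⟨by linarith, le_rfl⟩ : xa a + 2 * δ ∈ _) ⟨by linarith, by linarith⟩
    · have e2 : ε / D * D = ε := div_mul_cancel₀ _ hD0.ne'
      simp only [Prod.fst_add, Prod.smul_fst, Prod.snd_add, Prod.smul_snd, smul_eq_mul, hpt, r2]
      simp only [hD, τ] at e2 ⊢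
      linear_combination -e2
  · rintro ⟨p, p'⟩ hl
    obtain ⟨a, ha, rfl⟩ := hm p hl.m1
    obtain ⟨a', ha', rfl⟩ := hm p' hl.m2
    have h : a'.1 = a.1 := by rw [← htp a ha, ← htp a' ha']; exact hl.same
    have hlt : xa a < xa a' := lt_of_add_lt_add_right hl.lt
    have g1 := hgap _ (hxX a ha) _ (hxX a' ha') hlt
    have hs := sub_pos.2 (hsl a' ha')
    have g2 : ε / (π.sl (e a'.1) - π.sl (e a'.2)) ≤ δ :=
      (div_le_iff₀ hs).2 (c3 _ _ (hsl a' ha')).le
    have g3 : 0 ≤ ε / (π.sl (e a'.1) - π.sl (e a'.2)) := div_nonneg hε.le hs.le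
    refine ⟨a'.2, (hG0 a' ha').2, not_disjoint_iff.2 ⟨_, UMark_rail' (hrail a) (h ▸ hrail a')
      (x := xa a' - ε / (π.sl (e a'.1) - π.sl (e a'.2)))
      (mem_uIcc.2 (Or.inl ⟨by rw [hp1]; linarith, by rw [hp1]; linarith⟩)),
      hI2 a' ha' ⟨by dsimp only; linarith, by dsimp only; linarith⟩, ?_⟩⟩
    have e1 := hτ a' ha'
    have e2 := div_mul_cancel₀ ε hs.ne'
    rw [← h]
    simp only [τ] at e1 ⊢
    linear_combination e1 - e2
  · rintro ⟨p, p'⟩ ⟨q, q'⟩ hl hl' hT hx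
    obtain ⟨a, ha, rfl⟩ := hm p hl.m1
    obtain ⟨a', ha', rfl⟩ := hm p' hl.m2
    obtain ⟨b, hb, rfl⟩ := hm q hl'.m1
    obtain ⟨b', hb', rfl⟩ := hm q' hl'.m2
    have h : a'.1 = a.1 := by rw [← htp a ha, ← htp a' ha']; exact hl.same
    have h' : b'.1 = b.1 := by rw [← htp b hb, ← htp b' hb']; exact hl'.same
    dsimp only at hT hx ⊢
    rw [htp a ha, htp b hb] at hT
    rw [htp b hb]
    obtain ⟨y, y1, y2⟩ := not_disjoint_iff.1 hx
    obtain ⟨r1, r2⟩ := UMark_rail (hrail a) (h ▸ hrail a') y1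
    obtain ⟨r3, r4⟩ := UMark_rail (hrail b) (h' ▸ hrail b') y2
    have hab : e a.1 ≠ e b.1 := fun u => hT (e.injective u).symm
    have hy : π.τ (e a.1) y.1 = π.τ (e b.1) y.1 := by unfold τ; linarith
    have hyX := hX2 _ _ _ hab (hn1 a ha) (hn1 b hb) hy
    have hs := π.g0 _ _ _ hab (hn1 a ha) (hn1 b hb) hy
    have key : ∀ u ∈ A, ∀ u' ∈ A, (pt u).1 < (pt u').1 → y.1 ∈ uIcc (pt u).1 (pt u').1 →
        xa u + 2 * δ ≤ y.1 ∧ y.1 ≤ xa u' := fun u hu u' hu' hlt hm => by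
      rw [uIcc_of_le hlt.le] at hm
      obtain ⟨m1, m2⟩ := hm
      rw [hp1] at m1 m2
      exact ⟨hgap _ (hxX u hu) _ hyX (by linarith),
        not_lt.1 fun hc => hnX u' hu' _ hc m2 hyX⟩
    obtain ⟨k1, k2⟩ := key a ha a' ha' hl.lt r1
    obtain ⟨k3, k4⟩ := key b hb b' hb' hl'.lt r3
    have g2 : |ε / (π.sl (e b.1) - π.sl (e a.1))| ≤ δ := by
      rw [abs_div, abs_of_pos hε, div_le_iff₀ (abs_pos.2 (sub_ne_zero.2 hs.symm))]
      rcases lt_or_gt_of_ne hs with u | u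
      · rw [abs_of_pos (sub_pos.2 u)]
        exact (c3 _ _ u).le
      · rw [abs_sub_comm, abs_of_pos (sub_pos.2 u)]
        exact (c3 _ _ u).le
    obtain ⟨g3, g4⟩ := abs_le.1 g2
    refine not_disjoint_iff.2 ⟨_, UMark_rail' (hrail a) (h ▸ hrail a')
      (x := y.1 + ε / (π.sl (e b.1) - π.sl (e a.1)))
      (mem_uIcc.2 (Or.inl ⟨by rw [hp1]; linarith, by rw [hp1]; linarith⟩)), ?_, ?_⟩
    · exact (π.oc _).out (hI1 b hb ⟨by linarith, by linarith⟩ : xa b ∈ _)
        ((h' ▸ hI1 b' hb') ⟨by linarith, le_rfl⟩ : xa b' + 2 * δ ∈ _)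
        ⟨by dsimp only; linarith, by dsimp only; linarith⟩
    · have e2 := div_mul_cancel₀ ε (sub_ne_zero.2 hs.symm)
      simp only [τ] at hy ⊢
      linear_combination hy - e2
  · intro p hp
    obtain ⟨a, ha, rfl⟩ := hm p hp
    have hc : Continuous fun s : ℝ => (xa a + s * δ, π.τ (e a.1) (xa a + s * δ) + s * ε) := by
      have := hcont (e a.1)
      fun_prop
    have h0 : Tendsto (fun s : ℝ => (xa a + s * δ, π.τ (e a.1) (xa a + s * δ) + s * ε)) (𝓝[>] 0)
        (𝓝 (xa a, π.τ (e a.1) (xa a))) := by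
      simpa using (hc.tendsto 0).mono_left (nhdsWithin_le_nhds (s := Ioi 0))
    obtain ⟨s, ⟨h1, h2⟩, h3⟩ := (((h0.eventually (hev a ha)).and
      (UMark_small one_pos 1)).and self_mem_nhdsWithin).exists
    replace h3 : 0 < s := h3
    have h4 := mul_pos h3 hε
    have h5 := mul_pos (mul_pos h3 hδ) (sub_pos.2 (hsl a ha))
    have h6 := hτ a ha
    refine htr _ _ (h1 (by dsimp only; linarith) (by simp only [τ] at h6 ⊢; nlinarith))
      fun j => disjoint_left.2 ?_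
    rintro _ ⟨u, v, hu, hv, huv, rfl⟩ hy
    refine hfree a ha (u * s + v) (by nlinarith) (by nlinarith) j ?_
    convert hy using 1
    have : u = 1 - v := by linarith
    subst this
    refine Prod.ext ?_ ?_
    · simp only [Prod.fst_add, Prod.smul_fst, smul_eq_mul, hpt]
      ring
    · simp only [Prod.snd_add, Prod.smul_snd, smul_eq_mul, hpt, τ]
      ring
  · rw [Finset.card_image_of_injOn fun a ha a' ha' h => hpinj a ha a' ha' (congrArg Prod.fst h)]

end Pl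

open Classical in
/-- All links. -/
noncomputable def links {ι : Type} (Pt : Finset (ℝ × ℝ)) (t : ℝ × ℝ → ι) :
    Finset ((ℝ × ℝ) × ℝ × ℝ) := (Pt ×ˢ Pt).filter (Link Pt t)

theorem mem_links {ι : Type} {Pt : Finset (ℝ × ℝ)} {t : ℝ × ℝ → ι} {a : (ℝ × ℝ) × ℝ × ℝ} :
    a ∈ links Pt t ↔ Link Pt t a := by
  simp only [links, Finset.mem_filter, Finset.mem_product]
  exact ⟨fun h => h.2, fun h => ⟨⟨h.m1, h.m2⟩, h⟩⟩

theorem card_links {ι : Type} {Pt : Finset (ℝ × ℝ)} {t : ℝ × ℝ → ι} {G₀ : Finset ι}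
    (hinj : InjOn Prod.fst (Pt : Set (ℝ × ℝ))) (hm : ∀ p ∈ Pt, t p ∈ G₀) :
    Pt.card ≤ (links Pt t).card + G₀.card := by
  classical
  have hex : ∀ p ∈ Pt, (∃ q ∈ Pt, t q = t p ∧ p.1 < q.1) → ∃ q, Link Pt t (p, q) := by
    rintro p hp ⟨q, hq, h1, h2⟩
    obtain ⟨r, hr, hmin⟩ := Finset.exists_min_image
      (Pt.filter fun q => t q = t p ∧ p.1 < q.1) Prod.fst ⟨q, Finset.mem_filter.2 ⟨hq, h1, h2⟩⟩
    obtain ⟨r1, r2, r3⟩ := Finset.mem_filter.1 hr
    exact ⟨r, hp, r1, r2, r3, fun u hu h4 h5 =>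
      not_lt.2 (hmin u (Finset.mem_filter.2 ⟨hu, h4, h5.1⟩)) h5.2⟩
  rw [← Finset.card_filter_add_card_filter_not (s := Pt) fun p => ∃ q ∈ Pt, t q = t p ∧ p.1 < q.1]
  refine add_le_add ?_ ?_
  · refine Finset.card_le_card_of_surjOn Prod.fst fun p hp => ?_
    obtain ⟨h1, h2⟩ := Finset.mem_filter.1 hp
    obtain ⟨q, hq⟩ := hex p h1 h2
    exact ⟨(p, q), mem_links.2 hq, rfl⟩
  · refine Finset.card_le_card_of_injOn t (fun p hp => hm p (Finset.mem_filter.1 hp).1) ?_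
    intro p hp q hq h
    obtain ⟨h1, h2⟩ := Finset.mem_filter.1 hp
    obtain ⟨h3, h4⟩ := Finset.mem_filter.1 hq
    exact hinj h1 h3 (le_antisymm (not_lt.1 fun hc => h4 ⟨p, h1, h, hc⟩)
      (not_lt.1 fun hc => h2 ⟨q, h3, h.symm, hc⟩))

end SC
end

-- merged part: Pool.Agent.Work.MP_8a5de9_co.UArc
section
/-!
# Common tangents of disjoint convex sets form a planar graph

`core`.  The vertex of a red class is its leftmost point `L`, that of a blue class its rightmost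
point `R` (only classes that occur in `Ed` are needed).  The arc of `a = (p, p')` is the polygon
`L, p, p', R`, the graph of a continuous function on `[L.1, R.1]` (for instance the maximum of the
rail and of the affine functions through `L, p` and through `p', R`, where the rail itself is used
if `L = p` or `p' = R`; or a piecewise definition); its three pieces lie in `hull (cls p)`,
`segment p p'`, `hull (cls p')`.  Facts for `a ≠ b` in `Ed`, `b = (q, q')`:
* if `cls p = cls q` or `cls p' = cls q'` then `t p ≠ t q` (otherwise, say `p.1 < q.1`, we get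
  `p'.1 ≤ q.1`, `q.1 < q'.1` on one rail, and `p'` lies between `p` and `q`, or `q` between `p'`
  and `q'`, against `disj`), so `q` (resp. `q'`) lies strictly above the rail of `a` and conversely;
* common tail: if `p.1 < q.1`, rail `b` minus rail `a` is negative at `p.1` and positive at `q.1`,
  so positive on `[q.1, ∞)`: the middle pieces are disjoint; the first piece of `a` lies above rail
  `b` and touches it at most in `L`; two first pieces meet only in `L` (if `p` were on `[L, q]` or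
  `q` on `[L, p]` strictly inside, the supporting rail through it would contain both ends);
  symmetric for a common head;
* common tail and common head is impossible: then `p.1 < p'.1 < q.1 < q'.1` (up to exchanging
  `a, b`) and the segments `[p, q]`, `[p', q']` meet (intermediate value theorem on
  `[p'.1, q.1]`), against `disj`;
* pieces in different hulls are disjoint, a middle piece misses every third hull.
-/

open Set

namespace SC

/-- The line through two points. -/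
noncomputable def UArcLine (u v : ℝ × ℝ) (x : ℝ) : ℝ := u.2 + (v.2 - u.2) / (v.1 - u.1) * (x - u.1)

theorem UArcLine_left (u v : ℝ × ℝ) : UArcLine u v u.1 = u.2 := by simp [UArcLine]

theorem UArcLine_right {u v : ℝ × ℝ} (h : u.1 = v.1 → u = v) : UArcLine u v v.1 = v.2 := by
  by_cases e : u.1 = v.1
  · rw [← h e]; exact UArcLine_left _ _
  · have : v.1 - u.1 ≠ 0 := sub_ne_zero.2 (Ne.symm e)
    simp only [UArcLine]; field_simp; ring

theorem UArcLine_cont (u v : ℝ × ℝ) : Continuous (UArcLine u v) := by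
  unfold UArcLine; fun_prop

theorem UArcLine_mem {u v : ℝ × ℝ} {x : ℝ} (h1 : u.1 ≤ x) (h2 : x ≤ v.1) :
    (x, UArcLine u v x) ∈ segment ℝ u v := by
  by_cases e : u.1 = v.1
  · have : x = u.1 := le_antisymm (e ▸ h2) h1
    rw [this, UArcLine_left]; exact left_mem_segment _ _ _
  · have hp : 0 < v.1 - u.1 := sub_pos.2 (lt_of_le_of_ne (h1.trans h2) e)
    refine ⟨(v.1 - x) / (v.1 - u.1), (x - u.1) / (v.1 - u.1), div_nonneg (by linarith) hp.le,
      div_nonneg (by linarith) hp.le, by field_simp; ring, ?_⟩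
    ext
    · simp only [Prod.fst_add, Prod.smul_fst, smul_eq_mul]; field_simp; ring
    · simp only [Prod.snd_add, Prod.smul_snd, smul_eq_mul, UArcLine]; field_simp; ring

theorem UArc_on_mem {u v w : ℝ × ℝ} {s c : ℝ} (hu : u.2 = s * u.1 + c) (hv : v.2 = s * v.1 + c)
    (hw : w.2 = s * w.1 + c) (h1 : u.1 ≤ w.1) (h2 : w.1 ≤ v.1) : w ∈ segment ℝ u v := by
  have h := UArcLine_mem h1 h2
  have e : UArcLine u v w.1 = w.2 := by
    by_cases e : u.1 = v.1
    · have : w.1 = u.1 := le_antisymm (e ▸ h2) h1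
      rw [this, UArcLine_left, hu, hw, this]
    · have : v.1 - u.1 ≠ 0 := sub_ne_zero.2 (Ne.symm e)
      simp only [UArcLine]; rw [hu, hv, hw]; field_simp; ring
  rwa [e] at h

theorem UArc_seg {u v y : ℝ × ℝ} (h : y ∈ segment ℝ u v) :
    ∃ m : ℝ, 0 ≤ m ∧ m ≤ 1 ∧ y.1 = (1 - m) * u.1 + m * v.1 ∧ y.2 = (1 - m) * u.2 + m * v.2 := by
  obtain ⟨a, b, ha, hb, hab, rfl⟩ := h
  have : a = 1 - b := by linarith
  subst this
  exact ⟨b, hb, by linarith, by simp, by simp⟩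

/-- Two segments from a common end point meet only there. -/
theorem UArc_first {σ s c : ℝ} {A p q y : ℝ × ℝ} (h1 : σ * p.1 < σ * q.1) (h2 : σ * A.1 ≤ σ * p.1)
    (hp : p.2 = s * p.1 + c) (hA : s * A.1 + c ≤ A.2) (hq : s * q.1 + c < q.2)
    (ya : y ∈ segment ℝ A p) (yb : y ∈ segment ℝ A q) : y = A := by
  obtain ⟨l, l0, l1, lx, ly⟩ := UArc_seg ya
  obtain ⟨m, m0, m1, mx, my⟩ := UArc_seg yb
  rcases m0.eq_or_lt with rfl | m0
  · ext
    · simpa using mx
    · simpa using my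
  · exfalso
    have e1 : l * (σ * p.1 - σ * A.1) = m * (σ * q.1 - σ * A.1) := by
      have : l * (p.1 - A.1) = m * (q.1 - A.1) := by linarith
      linear_combination σ * this
    have e2 : 0 < (l - m) * (σ * p.1 - σ * A.1) := by
      have := mul_pos m0 (sub_pos.2 h1)
      linarith
    have e3 : m < l := by
      by_contra hh
      push Not at hh
      have := mul_nonneg (sub_nonneg.2 hh) (sub_nonneg.2 h2)
      linarith
    have e4 : (1 - l) * (A.2 - (s * A.1 + c)) =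
        (1 - m) * (A.2 - (s * A.1 + c)) + m * (q.2 - (s * q.1 + c)) := by
      have a1 : y.2 - (s * y.1 + c) = (1 - l) * (A.2 - (s * A.1 + c)) := by
        rw [lx, ly, hp]; ring
      have a2 : y.2 - (s * y.1 + c) =
          (1 - m) * (A.2 - (s * A.1 + c)) + m * (q.2 - (s * q.1 + c)) := by
        rw [mx, my]; ring
      linarith
    have e5 := mul_pos m0 (sub_pos.2 hq)
    have e6 := mul_nonneg (sub_pos.2 e3).le (sub_nonneg.2 hA)
    linarith

theorem UArc_rail {s c : ℝ} {q q' y : ℝ × ℝ} (hq : q.2 = s * q.1 + c) (hq' : q'.2 = s * q'.1 + c)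
    (h : y ∈ segment ℝ q q') : y.2 = s * y.1 + c := by
  obtain ⟨m, -, -, mx, my⟩ := UArc_seg h
  rw [mx, my, hq, hq']; ring

theorem UArc_above {s c : ℝ} {q q' y : ℝ × ℝ} (hq : s * q.1 + c ≤ q.2) (hq' : s * q'.1 + c ≤ q'.2)
    (h : y ∈ segment ℝ q q') : s * y.1 + c ≤ y.2 := by
  obtain ⟨m, m0, m1, mx, my⟩ := UArc_seg h
  have a := mul_nonneg (sub_nonneg.2 m1) (sub_nonneg.2 hq)
  have b := mul_nonneg m0 (sub_nonneg.2 hq')
  rw [mx, my]; linarith

theorem UArc_box {q q' y : ℝ × ℝ} (hq : q.1 ≤ q'.1) (h : y ∈ segment ℝ q q') :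
    q.1 ≤ y.1 ∧ y.1 ≤ q'.1 := by
  obtain ⟨m, m0, m1, mx, -⟩ := UArc_seg h
  have a := mul_nonneg (sub_nonneg.2 m1) (sub_nonneg.2 hq)
  have b := mul_nonneg m0 (sub_nonneg.2 hq)
  rw [mx]; constructor <;> linarith

/-- A segment above a line, with one end strictly above, touches it at most at the other end. -/
theorem UArc_touch {s c : ℝ} {A p y : ℝ × ℝ} (hA : s * A.1 + c ≤ A.2) (hp : s * p.1 + c < p.2)
    (ya : y ∈ segment ℝ A p) (hy : y.2 = s * y.1 + c) : y = A := by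
  obtain ⟨m, m0, m1, mx, my⟩ := UArc_seg ya
  rcases m0.eq_or_lt with rfl | m0
  · ext
    · simpa using mx
    · simpa using my
  · exfalso
    have a := mul_nonneg (sub_nonneg.2 m1) (sub_nonneg.2 hA)
    have b := mul_pos m0 (sub_pos.2 hp)
    rw [mx, my] at hy; linarith

theorem UArc_between {d e u v y : ℝ} (hu : d * u + e < 0) (hv : 0 < d * v + e)
    (hy : d * y + e = 0) : ¬ (u ≤ y ∧ v ≤ y) ∧ ¬ (y ≤ u ∧ y ≤ v) := by
  constructor
  · rintro ⟨h1, h2⟩
    rcases le_total 0 d with hd | hd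
    · have := mul_nonneg hd (sub_nonneg.2 h2); linarith
    · have := mul_nonneg (neg_nonneg.2 hd) (sub_nonneg.2 h1); linarith
  · rintro ⟨h1, h2⟩
    rcases le_total 0 d with hd | hd
    · have := mul_nonneg hd (sub_nonneg.2 h1); linarith
    · have := mul_nonneg (neg_nonneg.2 hd) (sub_nonneg.2 h2); linarith

theorem UArc_cross {s c s' c' : ℝ} {p p' q q' : ℝ × ℝ} (h1 : p.1 ≤ p'.1) (h2 : p'.1 ≤ q.1)
    (h3 : q.1 < q'.1) (h4 : p.1 < q.1) (a1 : s * p.1 + c ≤ p.2) (a2 : p'.2 = s * p'.1 + c)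
    (a3 : s * q.1 + c ≤ q.2) (b1 : q.2 = s' * q.1 + c') (b2 : s' * p'.1 + c' ≤ p'.2)
    (b3 : s' * q'.1 + c' ≤ q'.2) : ∃ y ∈ segment ℝ p q, y ∈ segment ℝ p' q' := by
  have hc : ContinuousOn (fun x => UArcLine p q x - UArcLine p' q' x) (Icc p'.1 q.1) :=
    ((UArcLine_cont _ _).sub (UArcLine_cont _ _)).continuousOn
  have e1 := UArc_above a1 a3 (UArcLine_mem h1 h2)
  have e2 := UArc_above b2 b3 (UArcLine_mem h2 h3.le)
  obtain ⟨x, hx, hx0⟩ := intermediate_value_Icc' h2 hc (a := p'.1) (show (0 : ℝ) ∈ _ from by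
    simp only [mem_Icc, UArcLine_left, UArcLine_right fun e => absurd e h4.ne]
    constructor <;> simp only at e1 e2 <;> linarith)
  refine ⟨(x, UArcLine p q x), UArcLine_mem (h1.trans hx.1) hx.2, ?_⟩
  have : UArcLine p q x = UArcLine p' q' x := by simp only at hx0; linarith
  rw [this]
  exact UArcLine_mem hx.1 (hx.2.trans h3.le)

namespace LK

variable {ι κ : Type} (L : LK ι κ)

theorem UArc_mem_hull {p : ℝ × ℝ} {k : κ} (hp : p ∈ L.Pt) (hk : L.cls p = k) :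
    p ∈ hull L.Pt L.cls k := subset_convexHull _ _ ⟨hp, hk⟩

theorem UArc_seg_hull {p q : ℝ × ℝ} {k : κ} (hp : p ∈ L.Pt) (hk : L.cls p = k) (hq : q ∈ L.Pt)
    (hk' : L.cls q = k) : segment ℝ p q ⊆ hull L.Pt L.cls k :=
  (convex_convexHull ℝ _).segment_subset (L.UArc_mem_hull hp hk) (L.UArc_mem_hull hq hk')

theorem UArc_same {k k' : κ} {y : ℝ × ℝ} (h : y ∈ hull L.Pt L.cls k) (h' : y ∈ hull L.Pt L.cls k') :
    k = k' := by
  by_contra hne
  exact disjoint_left.1 (L.disj k k' hne) h h'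

variable {L}

theorem Clean.UArc_on2 {a : (ℝ × ℝ) × ℝ × ℝ} (ha : L.Clean a) :
    a.2.2 = L.rs (L.t a.1) * a.2.1 + L.ri (L.t a.1) := by
  have := L.on _ ha.link.m2
  rwa [ha.link.same] at this

theorem UArc_rail_ne' {a b : (ℝ × ℝ) × ℝ × ℝ} (ha : L.Clean a) (hb : L.Clean b)
    (h : L.cls a.1 = L.cls b.1 ∨ L.cls a.2 = L.cls b.2) (hlt : a.1.1 < b.1.1) :
    L.t a.1 ≠ L.t b.1 := by
  intro e
  have h1 : a.2.1 ≤ b.1.1 := by
    by_contra hh
    exact ha.link.next _ hb.link.m1 e.symm ⟨hlt, not_le.1 hh⟩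
  have o1 := L.on _ ha.link.m1
  have o2 := ha.UArc_on2
  have o3 := L.on _ hb.link.m1
  have o4 := hb.UArc_on2
  rw [← e] at o3 o4
  rcases h with h | h
  · have := L.UArc_seg_hull ha.link.m1 rfl hb.link.m1 h.symm
      (UArc_on_mem o1 o3 o2 ha.link.lt.le h1)
    exact ha.ne (L.UArc_same this (L.UArc_mem_hull ha.link.m2 rfl))
  · have := L.UArc_seg_hull ha.link.m2 h hb.link.m2 rfl
      (UArc_on_mem o2 o4 o3 h1 hb.link.lt.le)
    exact hb.ne (L.UArc_same (L.UArc_mem_hull hb.link.m1 rfl) this)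

theorem UArc_rail_ne {a b : (ℝ × ℝ) × ℝ × ℝ} (ha : L.Clean a) (hb : L.Clean b) (hab : a ≠ b)
    (h : L.cls a.1 = L.cls b.1 ∨ L.cls a.2 = L.cls b.2) : L.t a.1 ≠ L.t b.1 := by
  rcases lt_trichotomy a.1.1 b.1.1 with hlt | heq | hlt
  · exact UArc_rail_ne' ha hb h hlt
  · exfalso
    have e : a.1 = b.1 := L.inj ha.link.m1 hb.link.m1 heq
    rcases lt_trichotomy a.2.1 b.2.1 with h2 | h2 | h2
    · exact hb.link.next _ ha.link.m2 (by rw [ha.link.same, e]) ⟨heq ▸ ha.link.lt, h2⟩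
    · exact hab (Prod.ext e (L.inj ha.link.m2 hb.link.m2 h2))
    · exact ha.link.next _ hb.link.m2 (by rw [hb.link.same, e]) ⟨heq ▸ hb.link.lt, h2⟩
  · exact (UArc_rail_ne' hb ha (h.imp Eq.symm Eq.symm) hlt).symm

theorem UArc_strict1 {a b : (ℝ × ℝ) × ℝ × ℝ} (ha : L.Clean a) (hb : L.Clean b) (hab : a ≠ b)
    (h : L.cls a.1 = L.cls b.1) : L.rs (L.t a.1) * b.1.1 + L.ri (L.t a.1) < b.1.2 :=
  lt_of_le_of_ne (ha.above _ hb.link.m1 (Or.inl h.symm))
    (L.off _ ha.link.m1 _ hb.link.m1 (UArc_rail_ne ha hb hab (Or.inl h)).symm).symm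

theorem UArc_strict2 {a b : (ℝ × ℝ) × ℝ × ℝ} (ha : L.Clean a) (hb : L.Clean b) (hab : a ≠ b)
    (h : L.cls a.2 = L.cls b.2) : L.rs (L.t a.1) * b.2.1 + L.ri (L.t a.1) < b.2.2 :=
  lt_of_le_of_ne (ha.above _ hb.link.m2 (Or.inr h.symm))
    (L.off _ ha.link.m1 _ hb.link.m2
      (by rw [hb.link.same]; exact (UArc_rail_ne ha hb hab (Or.inr h)).symm)).symm

theorem UArc_both' {a b : (ℝ × ℝ) × ℝ × ℝ} (ha : L.Clean a) (hb : L.Clean b)
    (h1 : L.cls a.1 = L.cls b.1) (h2 : L.cls a.2 = L.cls b.2) (h : a.2.1 ≤ b.1.1) : False := by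
  obtain ⟨y, y1, y2⟩ := UArc_cross ha.link.lt.le h hb.link.lt (ha.link.lt.trans_le h)
    (L.on _ ha.link.m1).ge ha.UArc_on2 (ha.above _ hb.link.m1 (Or.inl h1.symm))
    (L.on _ hb.link.m1) (hb.above _ ha.link.m2 (Or.inr h2)) hb.UArc_on2.ge
  exact ha.ne (L.UArc_same (L.UArc_seg_hull ha.link.m1 rfl hb.link.m1 h1.symm y1)
    (L.UArc_seg_hull ha.link.m2 rfl hb.link.m2 h2.symm y2))

theorem UArc_both {a b : (ℝ × ℝ) × ℝ × ℝ} (ha : L.Clean a) (hb : L.Clean b)
    (h1 : L.cls a.1 = L.cls b.1) (h2 : L.cls a.2 = L.cls b.2) : a = b := by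
  by_contra hab
  have e1 := UArc_strict1 ha hb hab h1
  have e2 := UArc_strict2 ha hb hab h2
  have e3 := UArc_strict1 hb ha (Ne.symm hab) h1.symm
  have e4 := UArc_strict2 hb ha (Ne.symm hab) h2.symm
  have o1 := L.on _ ha.link.m1
  have o2 := ha.UArc_on2
  have o3 := L.on _ hb.link.m1
  have o4 := hb.UArc_on2
  by_cases c1 : a.2.1 ≤ b.1.1
  · exact UArc_both' ha hb h1 h2 c1
  by_cases c2 : b.2.1 ≤ a.1.1
  · exact UArc_both' hb ha h1.symm h2.symm c2
  push Not at c1 c2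
  rcases le_total (L.rs (L.t a.1)) (L.rs (L.t b.1)) with hd | hd
  · have := mul_nonneg (sub_nonneg.2 hd) (sub_pos.2 c1).le
    linarith
  · have := mul_nonneg (sub_nonneg.2 hd) (sub_pos.2 c2).le
    linarith

theorem UArc_mid {a b : (ℝ × ℝ) × ℝ × ℝ} (ha : L.Clean a) (hb : L.Clean b) (hab : a ≠ b)
    (h : L.cls a.1 = L.cls b.1 ∨ L.cls a.2 = L.cls b.2) {y : ℝ × ℝ} (ya : y ∈ segment ℝ a.1 a.2)
    (yb : y ∈ segment ℝ b.1 b.2) : False := by
  have o1 := L.on _ ha.link.m1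
  have o2 := ha.UArc_on2
  have o3 := L.on _ hb.link.m1
  have o4 := hb.UArc_on2
  have r1 := UArc_rail o1 o2 ya
  have r2 := UArc_rail o3 o4 yb
  have b1 := UArc_box ha.link.lt.le ya
  have b2 := UArc_box hb.link.lt.le yb
  have hy : (L.rs (L.t b.1) - L.rs (L.t a.1)) * y.1 + (L.ri (L.t b.1) - L.ri (L.t a.1)) = 0 := by
    linarith
  rcases h with h | h
  · have e1 := UArc_strict1 ha hb hab h
    have e3 := UArc_strict1 hb ha (Ne.symm hab) h.symm
    exact (UArc_between (u := a.1.1) (v := b.1.1) (by linarith) (by linarith) hy).1 ⟨b1.1, b2.1⟩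
  · have e2 := UArc_strict2 ha hb hab h
    have e4 := UArc_strict2 hb ha (Ne.symm hab) h.symm
    exact (UArc_between (u := a.2.1) (v := b.2.1) (by linarith) (by linarith) hy).2 ⟨b1.2, b2.2⟩

variable (L)

theorem core {Ed : Finset ((ℝ × ℝ) × ℝ × ℝ)} (hE : ∀ a ∈ Ed, L.Clean a) {red blue : Finset κ}
    (hd : Disjoint red blue) (hc : ∀ a ∈ Ed, L.cls a.1 ∈ red ∧ L.cls a.2 ∈ blue)
    (hx : ∀ a ∈ Ed, ∀ b ∈ Ed, L.cls a.1 ≠ L.cls b.1 → L.cls a.2 ≠ L.cls b.2 →
      Disjoint (segment ℝ a.1 a.2) (segment ℝ b.1 b.2)) :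
    Ed.card ≤ 3 * (red.card + blue.card) := by
  classical
  have hL : ∀ k : κ, ∃ u : ℝ × ℝ, ∀ p ∈ L.Pt, L.cls p = k →
      u ∈ L.Pt ∧ L.cls u = k ∧ u.1 ≤ p.1 := by
    intro k
    rcases (L.Pt.filter fun p => L.cls p = k).eq_empty_or_nonempty with h | h
    · refine ⟨0, fun p hp hk => ?_⟩
      have : p ∈ L.Pt.filter fun p => L.cls p = k := Finset.mem_filter.2 ⟨hp, hk⟩
      rw [h] at this; simp at this
    · obtain ⟨u, hu, hm⟩ := Finset.exists_min_image _ (fun p : ℝ × ℝ => p.1) h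
      exact ⟨u, fun p hp hk => ⟨(Finset.mem_filter.1 hu).1, (Finset.mem_filter.1 hu).2,
        hm p (Finset.mem_filter.2 ⟨hp, hk⟩)⟩⟩
  have hR : ∀ k : κ, ∃ u : ℝ × ℝ, ∀ p ∈ L.Pt, L.cls p = k →
      u ∈ L.Pt ∧ L.cls u = k ∧ p.1 ≤ u.1 := by
    intro k
    rcases (L.Pt.filter fun p => L.cls p = k).eq_empty_or_nonempty with h | h
    · refine ⟨0, fun p hp hk => ?_⟩
      have : p ∈ L.Pt.filter fun p => L.cls p = k := Finset.mem_filter.2 ⟨hp, hk⟩
      rw [h] at this; simp at this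
    · obtain ⟨u, hu, hm⟩ := Finset.exists_max_image _ (fun p : ℝ × ℝ => p.1) h
      exact ⟨u, fun p hp hk => ⟨(Finset.mem_filter.1 hu).1, (Finset.mem_filter.1 hu).2,
        hm p (Finset.mem_filter.2 ⟨hp, hk⟩)⟩⟩
  choose A hA using hL
  choose B hB using hR
  have rb : ∀ {k k' : κ}, k ∈ red → k' ∈ blue → k ≠ k' := fun h h' e =>
    Finset.disjoint_left.1 hd h (e ▸ h')
  set occ : κ → Prop := fun k => ∃ p ∈ L.Pt, L.cls p = k with hocc
  set Vx : Finset (ℝ × ℝ) := (red.filter occ).image A ∪ (blue.filter occ).image B with hVx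
  have hV : ∀ v ∈ Vx, v ∈ L.Pt ∧ ((L.cls v ∈ red ∧ v = A (L.cls v)) ∨
      (L.cls v ∈ blue ∧ v = B (L.cls v))) := by
    intro v hv
    simp only [hVx, Finset.mem_union, Finset.mem_image, Finset.mem_filter] at hv
    rcases hv with ⟨k, ⟨hk, p, hp, hpk⟩, rfl⟩ | ⟨k, ⟨hk, p, hp, hpk⟩, rfl⟩
    · obtain ⟨h1, h2, -⟩ := hA k p hp hpk
      exact ⟨h1, Or.inl ⟨by rwa [h2], by rw [h2]⟩⟩
    · obtain ⟨h1, h2, -⟩ := hB k p hp hpk
      exact ⟨h1, Or.inr ⟨by rwa [h2], by rw [h2]⟩⟩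
  set f : (ℝ × ℝ) × ℝ × ℝ → ℝ → ℝ := fun a x =>
    if x ≤ a.1.1 then UArcLine (A (L.cls a.1)) a.1 x
    else if x ≤ a.2.1 then UArcLine a.1 a.2 x else UArcLine a.2 (B (L.cls a.2)) x with hf
  have hAa : ∀ a ∈ Ed, A (L.cls a.1) ∈ L.Pt ∧ L.cls (A (L.cls a.1)) = L.cls a.1 ∧
      (A (L.cls a.1)).1 ≤ a.1.1 := fun a ha => hA _ _ (hE a ha).link.m1 rfl
  have hBa : ∀ a ∈ Ed, B (L.cls a.2) ∈ L.Pt ∧ L.cls (B (L.cls a.2)) = L.cls a.2 ∧
      a.2.1 ≤ (B (L.cls a.2)).1 := fun a ha => hB _ _ (hE a ha).link.m2 rfl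
  have arc : ∀ a ∈ Ed, ∀ x, (A (L.cls a.1)).1 ≤ x → x ≤ (B (L.cls a.2)).1 →
      (x, f a x) ∈ segment ℝ (A (L.cls a.1)) a.1 ∨ (x, f a x) ∈ segment ℝ a.1 a.2 ∨
        (x, f a x) ∈ segment ℝ (B (L.cls a.2)) a.2 := by
    intro a _ x h1 h2
    simp only [hf]
    split_ifs with c1 c2
    · exact Or.inl (UArcLine_mem h1 c1)
    · exact Or.inr (Or.inl (UArcLine_mem (not_le.1 c1).le c2))
    · rw [segment_symm ℝ (B _)]
      exact Or.inr (Or.inr (UArcLine_mem (not_le.1 c2).le h2))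
  have s1 : ∀ a ∈ Ed, segment ℝ (A (L.cls a.1)) a.1 ⊆ hull L.Pt L.cls (L.cls a.1) := fun a ha =>
    L.UArc_seg_hull (hAa a ha).1 (hAa a ha).2.1 (hE a ha).link.m1 rfl
  have s3 : ∀ a ∈ Ed, segment ℝ (B (L.cls a.2)) a.2 ⊆ hull L.Pt L.cls (L.cls a.2) := fun a ha =>
    L.UArc_seg_hull (hBa a ha).1 (hBa a ha).2.1 (hE a ha).link.m2 rfl
  have s2 : ∀ a ∈ Ed, ∀ k y, y ∈ segment ℝ a.1 a.2 → y ∈ hull L.Pt L.cls k →
      k = L.cls a.1 ∨ k = L.cls a.2 := by
    intro a ha k y h1 h2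
    by_contra hh
    push Not at hh
    exact disjoint_left.1 ((hE a ha).third k hh.1 hh.2) h1 h2
  have t12 : ∀ a ∈ Ed, ∀ b ∈ Ed, a ≠ b → ∀ y, y ∈ segment ℝ (A (L.cls a.1)) a.1 →
      y ∈ segment ℝ b.1 b.2 → y = A (L.cls a.1) := by
    intro a ha b hb hab y ya yb
    have e : L.cls a.1 = L.cls b.1 :=
      (s2 b hb _ y yb (s1 a ha ya)).resolve_right (rb (hc a ha).1 (hc b hb).2)
    exact UArc_touch ((hE b hb).above _ (hAa a ha).1 (Or.inl ((hAa a ha).2.1.trans e)))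
      (UArc_strict1 (hE b hb) (hE a ha) hab.symm e.symm) ya
      (UArc_rail (L.on _ (hE b hb).link.m1) (hE b hb).UArc_on2 yb)
  have t32 : ∀ a ∈ Ed, ∀ b ∈ Ed, a ≠ b → ∀ y, y ∈ segment ℝ (B (L.cls a.2)) a.2 →
      y ∈ segment ℝ b.1 b.2 → y = B (L.cls a.2) := by
    intro a ha b hb hab y ya yb
    have e : L.cls a.2 = L.cls b.2 :=
      (s2 b hb _ y yb (s3 a ha ya)).resolve_left (rb (hc b hb).1 (hc a ha).2).symm
    exact UArc_touch ((hE b hb).above _ (hBa a ha).1 (Or.inr ((hBa a ha).2.1.trans e)))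
      (UArc_strict2 (hE b hb) (hE a ha) hab.symm e.symm) ya
      (UArc_rail (L.on _ (hE b hb).link.m1) (hE b hb).UArc_on2 yb)
  have t11 : ∀ a ∈ Ed, ∀ b ∈ Ed, a ≠ b → a.1.1 ≤ b.1.1 → ∀ y, y ∈ segment ℝ (A (L.cls a.1)) a.1 →
      y ∈ segment ℝ (A (L.cls b.1)) b.1 → y = A (L.cls a.1) ∧ y = A (L.cls b.1) := by
    intro a ha b hb hab hle y ya yb
    have e : L.cls a.1 = L.cls b.1 := L.UArc_same (s1 a ha ya) (s1 b hb yb)
    have st := UArc_strict1 (hE a ha) (hE b hb) hab e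
    have hlt : a.1.1 < b.1.1 := by
      refine lt_of_le_of_ne hle fun h => ?_
      have := L.inj (hE a ha).link.m1 (hE b hb).link.m1 h
      have o := L.on _ (hE a ha).link.m1
      rw [← this] at st
      linarith
    rw [← e] at yb ⊢
    have := UArc_first (σ := 1) (by simpa using hlt) (by simpa using (hAa a ha).2.2)
      (L.on _ (hE a ha).link.m1) ((hE a ha).above _ (hAa a ha).1 (Or.inl (hAa a ha).2.1)) st ya yb
    exact ⟨this, this⟩
  have t33 : ∀ a ∈ Ed, ∀ b ∈ Ed, a ≠ b → b.2.1 ≤ a.2.1 → ∀ y, y ∈ segment ℝ (B (L.cls a.2)) a.2 →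
      y ∈ segment ℝ (B (L.cls b.2)) b.2 → y = B (L.cls a.2) ∧ y = B (L.cls b.2) := by
    intro a ha b hb hab hle y ya yb
    have e : L.cls a.2 = L.cls b.2 := L.UArc_same (s3 a ha ya) (s3 b hb yb)
    have st := UArc_strict2 (hE a ha) (hE b hb) hab e
    have hlt : b.2.1 < a.2.1 := by
      refine lt_of_le_of_ne hle fun h => ?_
      have := L.inj (hE b hb).link.m2 (hE a ha).link.m2 h
      have o := (hE a ha).UArc_on2
      rw [this] at st
      linarith
    rw [← e] at yb ⊢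
    have := UArc_first (σ := -1) (by simpa using hlt) (by simpa using (hBa a ha).2.2)
      (hE a ha).UArc_on2 ((hE a ha).above _ (hBa a ha).1 (Or.inr (hBa a ha).2.1)) st ya yb
    exact ⟨this, this⟩
  have key := planar_cont Vx (fun u hu v hv h => L.inj (hV u hu).1 (hV v hv).1 h) Ed
    (fun a => A (L.cls a.1)) (fun a => B (L.cls a.2)) f ?_ ?_ ?_ ?_
  · refine key.trans (Nat.mul_le_mul_left _ ((Finset.card_union_le _ _).trans ?_))
    exact add_le_add (Finset.card_image_le.trans (Finset.card_filter_le _ _))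
      (Finset.card_image_le.trans (Finset.card_filter_le _ _))
  · intro a ha
    have lk := (hE a ha).link
    have hlt := lk.lt
    refine ⟨?_, ?_, ?_, ?_, ?_, ?_⟩
    · exact Finset.mem_union_left _ (Finset.mem_image_of_mem _
        (Finset.mem_filter.2 ⟨(hc a ha).1, _, lk.m1, rfl⟩))
    · exact Finset.mem_union_right _ (Finset.mem_image_of_mem _
        (Finset.mem_filter.2 ⟨(hc a ha).2, _, lk.m2, rfl⟩))
    · exact ((hAa a ha).2.2.trans_lt hlt).trans_le (hBa a ha).2.2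
    · simp only [hf, if_pos (hAa a ha).2.2, UArcLine_left]
    · have h2 := (hBa a ha).2.2
      simp only [hf, if_neg (not_le.2 (hlt.trans_le h2))]
      split_ifs with c
      · have e := L.inj lk.m2 (hBa a ha).1 (le_antisymm h2 c)
        rw [← e]
        exact UArcLine_right fun e => absurd e hlt.ne
      · exact UArcLine_right fun e => absurd e.ge c
    · refine Continuous.continuousOn ?_
      refine Continuous.if_le (UArcLine_cont _ _) ?_ continuous_id continuous_const ?_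
      · refine Continuous.if_le (UArcLine_cont _ _) (UArcLine_cont _ _) continuous_id
          continuous_const ?_
        rintro x rfl
        rw [UArcLine_left, UArcLine_right fun e => absurd e hlt.ne]
      · rintro x rfl
        rw [if_pos hlt.le, UArcLine_left,
          UArcLine_right fun e => L.inj (hAa a ha).1 lk.m1 e]
  · intro a ha v hv h1 h2 e
    have hm := arc a ha v.1 h1.le h2.le
    rw [e] at hm
    obtain ⟨vp, hv'⟩ := hV v hv
    have vh := L.UArc_mem_hull vp rfl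
    have hk : L.cls v = L.cls a.1 ∨ L.cls v = L.cls a.2 := by
      rcases hm with hm | hm | hm
      · exact Or.inl (L.UArc_same vh (s1 a ha hm))
      · exact s2 a ha _ _ hm vh
      · exact Or.inr (L.UArc_same vh (s3 a ha hm))
    rcases hv' with ⟨c, e'⟩ | ⟨c, e'⟩
    · rw [hk.resolve_right (rb c (hc a ha).2)] at e'
      exact absurd (congrArg Prod.fst e') h1.ne'
    · rw [hk.resolve_left (rb (hc a ha).1 c).symm] at e'
      exact absurd (congrArg Prod.fst e') h2.ne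
  · intro a ha b hb hab x a1 a2 b1 b2 e
    have ma := arc a ha x a1.le a2.le
    have mb := arc b hb x b1.le b2.le
    rw [← e] at mb
    have nA : (x, f a x) ≠ A (L.cls a.1) := fun h => absurd (congrArg Prod.fst h) a1.ne'
    have nA' : (x, f a x) ≠ A (L.cls b.1) := fun h => absurd (congrArg Prod.fst h) b1.ne'
    have nB : (x, f a x) ≠ B (L.cls a.2) := fun h => absurd (congrArg Prod.fst h) a2.ne
    have nB' : (x, f a x) ≠ B (L.cls b.2) := fun h => absurd (congrArg Prod.fst h) b2.ne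
    rcases ma with ma | ma | ma <;> rcases mb with mb | mb | mb
    · rcases le_total a.1.1 b.1.1 with h | h
      · exact nA (t11 a ha b hb hab h _ ma mb).1
      · exact nA (t11 b hb a ha hab.symm h _ mb ma).2
    · exact nA (t12 a ha b hb hab _ ma mb)
    · exact rb (hc a ha).1 (hc b hb).2 (L.UArc_same (s1 a ha ma) (s3 b hb mb))
    · exact nA' (t12 b hb a ha hab.symm _ mb ma)
    · by_cases h : L.cls a.1 = L.cls b.1 ∨ L.cls a.2 = L.cls b.2
      · exact UArc_mid (hE a ha) (hE b hb) hab h ma mb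
      · push Not at h
        exact disjoint_left.1 (hx a ha b hb h.1 h.2) ma mb
    · exact nB' (t32 b hb a ha hab.symm _ mb ma)
    · exact rb (hc b hb).1 (hc a ha).2 (L.UArc_same (s1 b hb mb) (s3 a ha ma))
    · exact nB (t32 a ha b hb hab _ ma mb)
    · rcases le_total b.2.1 a.2.1 with h | h
      · exact nB (t33 a ha b hb hab h _ ma mb).1
      · exact nB (t33 b hb a ha hab.symm h _ mb ma).2
  · intro a ha b hb h1 h2
    refine UArc_both (hE a ha) (hE b hb) ?_ ?_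
    · rw [← (hAa a ha).2.1, ← (hAa b hb).2.1]; exact congrArg _ h1
    · rw [← (hBa a ha).2.1, ← (hBa b hb).2.1]; exact congrArg _ h2

end LK

end SC
end

-- merged part: Pool.Agent.Work.MP_8a5de9_co.UClean
section
/-!
# Clean links with few crossings

Let `K = Pt.image cls`, `q = 1 / (2 λ)`, `r = q (1 - q)`.  Choose a random subset `S` of
`K ×ˢ univ : Finset (κ × Bool)` (`bw`, `bern_card` of `MP_cbf770_co.Sample`); a class `k` is red if
`(k, true) ∈ S`, `(k, false) ∉ S`, blue in the opposite case.  Keep the links with a red tail and a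
blue head (probability `r ^ 2`).  Let `X` be the set of pairs `(a, b)` of links with four distinct
classes whose segments meet; for such a pair `t b.1 ≠ t a.1` (two different links of one rail share
at most an endpoint, and then two classes agree), so `|X| ≤ λ ^ 2 |Ed|`, and both links are kept
with probability `r ^ 4`.  Delete the first member of every kept pair of `X` and apply `core`:
`r ^ 2 |Ed| ≤ 3 * (2 r |K|) + r ^ 4 λ ^ 2 |Ed|`; finally `1 / (4 λ) ≤ r ≤ 1 / (2 λ)`.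
-/

open Set

namespace SC

open Pool.Agent.Work.MP_cbf770_co

/-- The class `k` has the colour `b`. -/
def UCleanCol {κ : Type} (S : Finset (κ × Bool)) (k : κ) (b : Bool) : Prop :=
  (k, b) ∈ S ∧ (k, !b) ∉ S

theorem UClean_not {κ : Type} {S : Finset (κ × Bool)} {k : κ} (h : UCleanCol S k true)
    (h' : UCleanCol S k false) : False := h.2 h'.1

open Classical in
theorem UClean_bern {κ τ : Type} (q : ℝ) (K : Finset κ) (I : Finset τ) (m : ℕ)
    (ev : Finset (κ × Bool) → τ → Prop)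
    (h : ∀ t ∈ I, ∃ A ⊆ K, A.card = m ∧ ∃ c : κ → Bool,
      ∀ S, ev S t ↔ ∀ k ∈ A, UCleanCol S k (c k)) :
    ∑ S ∈ (K ×ˢ (Finset.univ : Finset Bool)).powerset, bw q (K ×ˢ Finset.univ) S *
      ((I.filter (ev S)).card : ℝ) = (q * (1 - q)) ^ m * I.card := by
  refine bern_card q _ _ I ev fun t ht => ?_
  obtain ⟨A, hA, hm, c, hc⟩ := h t ht
  refine ⟨A ×ˢ Finset.univ, Finset.product_subset_product_left hA, fun x => x.2 = c x.1,
    fun S => (hc S).trans ⟨fun H x hx => ?_, fun H k hk => ?_⟩, ?_⟩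
  · obtain ⟨k, b⟩ := x
    obtain ⟨h1, h2⟩ := H k (Finset.mem_product.1 hx).1
    dsimp only
    cases b <;> cases e : c k <;> simp_all
  · have h1 := H (k, c k) (Finset.mem_product.2 ⟨hk, Finset.mem_univ _⟩)
    have h2 := H (k, !c k) (Finset.mem_product.2 ⟨hk, Finset.mem_univ _⟩)
    exact ⟨h1.2 rfl, fun h3 => by simpa using h2.1 h3⟩
  · rw [Finset.prod_product, ← hm, ← Finset.prod_const]
    refine Finset.prod_congr rfl fun k _ => ?_
    cases e : c k <;> simp [e, mul_comm]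

theorem UClean_arith {q l E K X : ℝ} (h1 : 1 ≤ l) (hq : q = 1 / (2 * l)) (hE : 0 ≤ E) (hK : 0 ≤ K)
    (hX : X ≤ l ^ 2 * E)
    (h : (q * (1 - q)) ^ 2 * E ≤ 3 * ((q * (1 - q)) ^ 1 * K + (q * (1 - q)) ^ 1 * K) +
      (q * (1 - q)) ^ 4 * X) : E ≤ 64 * l * K := by
  have hl : 0 < l := by linarith
  have e : q * l = 1 / 2 := by
    rw [hq]
    field_simp
  have q0 : 0 < q := by
    rw [hq]
    positivity
  have q1 : q ≤ 1 / 2 := by nlinarith
  set r := q * (1 - q) with hr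
  have r0 : 0 < r := mul_pos q0 (by linarith)
  have r1 : r * l = (1 - q) / 2 := by
    rw [hr]
    linear_combination (1 - q) * e
  have r2 : (r * l) ^ 2 ≤ 1 / 4 := by
    rw [r1]
    nlinarith
  have h2 : r ^ 4 * X ≤ r ^ 2 * E / 4 := by
    have a := mul_le_mul_of_nonneg_left hX (pow_nonneg r0.le 4)
    have b := mul_le_mul_of_nonneg_left r2 (mul_nonneg (pow_nonneg r0.le 2) hE)
    nlinarith
  have h3 : r * (r * E) ≤ r * (8 * K) := by nlinarith
  have h4 := mul_le_mul_of_nonneg_left (le_of_mul_le_mul_left h3 r0) hl.le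
  have h5 : l * (r * E) = (1 - q) / 2 * E := by
    rw [← r1]
    ring
  nlinarith [mul_nonneg hl.le hK, mul_nonneg (sub_nonneg.2 q1) hE]

namespace LK

variable {ι κ : Type} (L : LK ι κ)

theorem UClean_lt {a b : (ℝ × ℝ) × ℝ × ℝ} (ha : L.Clean a) (hb : L.Clean b)
    (e : L.t b.1 = L.t a.1) (hlt : a.1.1 < b.1.1) {y : ℝ × ℝ} (h1 : y ∈ segment ℝ a.1 a.2)
    (h2 : y ∈ segment ℝ b.1 b.2) : a.2 = b.1 := by
  have h3 : a.2.1 ≤ b.1.1 := not_lt.1 fun hh => ha.link.next _ hb.link.m1 e ⟨hlt, hh⟩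
  exact L.inj ha.link.m2 hb.link.m1
    (le_antisymm h3 ((UArc_box hb.link.lt.le h2).1.trans (UArc_box ha.link.lt.le h1).2))

theorem UClean_rail {a b : (ℝ × ℝ) × ℝ × ℝ} (ha : L.Clean a) (hb : L.Clean b)
    (h11 : L.cls a.1 ≠ L.cls b.1) (h12 : L.cls a.1 ≠ L.cls b.2) (h21 : L.cls a.2 ≠ L.cls b.1)
    (h : ¬ Disjoint (segment ℝ a.1 a.2) (segment ℝ b.1 b.2)) : L.t b.1 ≠ L.t a.1 := by
  intro e
  obtain ⟨y, h1, h2⟩ := not_disjoint_iff.1 h
  rcases lt_trichotomy a.1.1 b.1.1 with hlt | heq | hlt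
  · exact h21 (congrArg _ (L.UClean_lt ha hb e hlt h1 h2))
  · exact h11 (congrArg _ (L.inj ha.link.m1 hb.link.m1 heq))
  · exact h12 (congrArg _ (L.UClean_lt hb ha e.symm hlt h2 h1).symm)

/-- The link has a red tail and a blue head. -/
def UCleanKept (S : Finset (κ × Bool)) (a : (ℝ × ℝ) × ℝ × ℝ) : Prop :=
  UCleanCol S (L.cls a.1) true ∧ UCleanCol S (L.cls a.2) false

/-- Two links with four classes whose segments meet. -/
def UCleanCr (x : ((ℝ × ℝ) × ℝ × ℝ) × (ℝ × ℝ) × ℝ × ℝ) : Prop :=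
  L.cls x.1.1 ≠ L.cls x.2.1 ∧ L.cls x.1.1 ≠ L.cls x.2.2 ∧ L.cls x.1.2 ≠ L.cls x.2.1 ∧
    L.cls x.1.2 ≠ L.cls x.2.2 ∧ ¬ Disjoint (segment ℝ x.1.1 x.1.2) (segment ℝ x.2.1 x.2.2)

open Classical in
theorem UClean_key {Ed : Finset ((ℝ × ℝ) × ℝ × ℝ)} (hE : ∀ a ∈ Ed, L.Clean a)
    (S : Finset (κ × Bool)) : (Ed.filter (L.UCleanKept S)).card ≤
      3 * (((L.Pt.image L.cls).filter fun k => UCleanCol S k true).card +
        ((L.Pt.image L.cls).filter fun k => UCleanCol S k false).card) +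
      (((Ed ×ˢ Ed).filter L.UCleanCr).filter
        fun x => L.UCleanKept S x.1 ∧ L.UCleanKept S x.2).card := by
  refine (Finset.card_le_card_sdiff_add_card (t := (((Ed ×ˢ Ed).filter L.UCleanCr).filter
    fun x => L.UCleanKept S x.1 ∧ L.UCleanKept S x.2).image Prod.fst)).trans
    (add_le_add (core (L := L) (fun a ha => ?_) ?_ (fun a ha => ?_) fun a ha b hb h1 h2 => ?_)
      Finset.card_image_le)
  · exact hE a (Finset.mem_filter.1 (Finset.mem_sdiff.1 ha).1).1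
  · exact Finset.disjoint_left.2 fun k hk hk' =>
      UClean_not (Finset.mem_filter.1 hk).2 (Finset.mem_filter.1 hk').2
  · obtain ⟨h1, h2⟩ := Finset.mem_filter.1 (Finset.mem_sdiff.1 ha).1
    exact ⟨Finset.mem_filter.2 ⟨Finset.mem_image_of_mem _ (hE a h1).link.m1, h2.1⟩,
      Finset.mem_filter.2 ⟨Finset.mem_image_of_mem _ (hE a h1).link.m2, h2.2⟩⟩
  · obtain ⟨a1, a2⟩ := Finset.mem_filter.1 (Finset.mem_sdiff.1 ha).1
    obtain ⟨b1, b2⟩ := Finset.mem_filter.1 (Finset.mem_sdiff.1 hb).1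
    by_contra hn
    refine (Finset.mem_sdiff.1 ha).2 (Finset.mem_image.2 ⟨(a, b), Finset.mem_filter.2
      ⟨Finset.mem_filter.2 ⟨Finset.mem_product.2 ⟨a1, b1⟩, h1, fun e => ?_, fun e => ?_, h2, hn⟩,
        a2, b2⟩, rfl⟩)
    · exact UClean_not a2.1 (e ▸ b2.2)
    · exact UClean_not b2.1 (e ▸ a2.2)

open Classical in
theorem clean_card {Ed : Finset ((ℝ × ℝ) × ℝ × ℝ)} (hE : ∀ a ∈ Ed, L.Clean a) {lam : ℕ}
    (h1 : 1 ≤ lam)
    (hx : ∀ a ∈ Ed, (Ed.filter fun b => L.t b.1 ≠ L.t a.1 ∧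
      ¬ Disjoint (segment ℝ a.1 a.2) (segment ℝ b.1 b.2)).card ≤ lam ^ 2) :
    Ed.card ≤ 64 * lam * (L.Pt.image L.cls).card := by
  set K := L.Pt.image L.cls with hK
  set X := (Ed ×ˢ Ed).filter L.UCleanCr with hX
  set q : ℝ := 1 / (2 * lam) with hq
  have hl : (1 : ℝ) ≤ lam := by exact_mod_cast h1
  have q0 : 0 ≤ q := by positivity
  have q1 : q ≤ 1 := (div_le_one (by positivity)).2 (by linarith)
  have m1 : ∀ a ∈ Ed, L.cls a.1 ∈ K := fun a ha => Finset.mem_image_of_mem _ (hE a ha).link.m1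
  have m2 : ∀ a ∈ Ed, L.cls a.2 ∈ K := fun a ha => Finset.mem_image_of_mem _ (hE a ha).link.m2
  have hXc : X.card ≤ lam ^ 2 * Ed.card := by
    refine Finset.card_le_mul_card_image_of_maps_to (f := Prod.fst)
      (fun x hx' => (Finset.mem_product.1 (Finset.mem_filter.1 hx').1).1) _ fun a ha =>
        (Finset.card_le_card_of_injOn Prod.snd (fun x hx' => ?_) fun x hx' y hy e => ?_).trans
          (hx a ha)
    · obtain ⟨h2, rfl⟩ := Finset.mem_filter.1 hx'
      obtain ⟨h3, c1, c2, c3, -, c5⟩ := Finset.mem_filter.1 h2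
      have h4 := (Finset.mem_product.1 h3).2
      exact Finset.mem_coe.2 (Finset.mem_filter.2
        ⟨h4, L.UClean_rail (hE _ ha) (hE _ h4) c1 c2 c3 c5, c5⟩)
    · exact Prod.ext ((Finset.mem_filter.1 hx').2.trans (Finset.mem_filter.1 hy).2.symm) e
  have e1 := UClean_bern q K Ed 2 L.UCleanKept fun a ha => by
    have n := (hE a ha).ne
    refine ⟨{L.cls a.1, L.cls a.2}, ?_, Finset.card_pair n, fun k => decide (k = L.cls a.1),
      fun S => ?_⟩
    · simp [Finset.insert_subset_iff, m1 a ha, m2 a ha]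
    · simp [UCleanKept, n.symm]
  have e2 : ∀ b : Bool, _ := fun b => UClean_bern q K K 1 (fun S k => UCleanCol S k b)
    fun k hk => ⟨{k}, by simpa using hk, rfl, fun _ => b, fun S => by simp⟩
  have e3 := UClean_bern q K X 4 (fun S x => L.UCleanKept S x.1 ∧ L.UCleanKept S x.2)
    fun x hx' => by
      obtain ⟨h3, c1, c2, c3, c4, -⟩ := Finset.mem_filter.1 hx'
      obtain ⟨ha, hb⟩ := Finset.mem_product.1 h3
      have n := (hE _ ha).ne
      have n' := (hE _ hb).ne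
      refine ⟨{L.cls x.1.1, L.cls x.1.2, L.cls x.2.1, L.cls x.2.2}, ?_, ?_,
        fun k => decide (k = L.cls x.1.1 ∨ k = L.cls x.2.1), fun S => ?_⟩
      · simp [Finset.insert_subset_iff, m1 _ ha, m2 _ ha, m1 _ hb, m2 _ hb]
      · rw [Finset.card_insert_of_notMem (by simp [n, c1, c2]),
          Finset.card_insert_of_notMem (by simp [c3, c4]), Finset.card_pair n']
      · simp [UCleanKept, n.symm, n'.symm, c2.symm, c3, and_assoc]
  have key := Finset.sum_le_sum (s := (K ×ˢ (Finset.univ : Finset Bool)).powerset) fun S _ =>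
    mul_le_mul_of_nonneg_left (Nat.cast_le (α := ℝ).2 (L.UClean_key hE S))
      (bw_nonneg q0 q1 (K ×ˢ Finset.univ) S)
  push_cast at key
  simp only [mul_add, Finset.sum_add_distrib, mul_left_comm (bw q _ _), ← Finset.mul_sum] at key
  have := UClean_arith (X := X.card) hl hq (Nat.cast_nonneg Ed.card) (Nat.cast_nonneg K.card)
    (by exact_mod_cast hXc) (by
      rw [← e1, ← e3, mul_add]
      nth_rewrite 1 [← e2 true]
      rw [← e2 false]
      convert key <;> rfl)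
  exact_mod_cast this

end LK

end SC
end

-- merged part: Pool.Agent.Work.MP_8a5de9_co.UBad
section
/-!
# Links whose ends lie in different regions

Let `S = R.map e ∪ B`, `cls = Reg S`; the hull of a class `κ` lies in the convex set `κ`
(`convex_Reg`, `Reg_eq`), so hulls are disjoint (`Reg_disjoint`) and the marked points give an `LK`.
A link `a = (p, p')` on `T = t p` that is met by an obstacle of `R` has `Reg S p ≠ Reg S p'`.  Call it
bad if `T ∉ R` and its segment meets a region `κ` counted in `sp Pt S (e T)`.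
* For given `(T, κ)` there are at most two such links: of three links of one rail the middle one
  would lie between two points of the convex set `κ`.  So there are at most `2 ∑ sp` bad links.
* A link that is not bad is clean.  `above`: if `q` lies in the region `κ` of `p` (or `p'`) strictly
  below the rail then by `h1` the segment from `p` to `q` meets `seg (e T)`; so `T ∉ R` and `κ` is
  split.  `third`: let `r` be a point of the segment in `hull κ`.  If some point `q` of `κ` lies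
  strictly below the rail then `[r, q] ⊆ κ` meets `seg (e T)` by `h1`, so `T ∉ R`, and `κ` is split,
  since otherwise `hull κ` would lie in the convex region of `q` for `insert (e T) S`.  If all
  points of `κ` lie above the rail, then `r` lies in the hull of those on the rail, which have
  `t = T` (`off`), are different from `p, p'` and not between them; so `p` lies between two of them,
  hence in `κ`.
* By `h3` a link crosses at most `|blk a|` links of other rails (for a given rail at most one: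
  two different links of the rail of `T'` through the crossing point of the two rails would share
  an endpoint, which lies on the rail of `T`, against `off`).  Apply `clean_card`.
-/

open Set

namespace SC

/-- Two different links of one rail are ordered. -/
theorem UBad_order {ι : Type} {Pt : Finset (ℝ × ℝ)} {t : ℝ × ℝ → ι}
    (hinj : InjOn Prod.fst (Pt : Set (ℝ × ℝ))) {a b : (ℝ × ℝ) × ℝ × ℝ} (ha : Link Pt t a)
    (hb : Link Pt t b) (h : t b.1 = t a.1) (hne : a ≠ b) : a.2.1 ≤ b.1.1 ∨ b.2.1 ≤ a.1.1 := by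
  rcases lt_trichotomy a.1.1 b.1.1 with h1 | h1 | h1
  · exact Or.inl (not_lt.1 fun h2 => ha.next _ hb.m1 h ⟨h1, h2⟩)
  · refine absurd (Prod.ext (hinj ha.m1 hb.m1 h1) (hinj ha.m2 hb.m2 (le_antisymm
      (not_lt.1 fun h2 => ha.next _ hb.m2 (hb.same.trans h) ⟨h1 ▸ hb.lt, h2⟩)
      (not_lt.1 fun h2 => hb.next _ ha.m2 (ha.same.trans h.symm) ⟨h1 ▸ ha.lt, h2⟩)))) hne
  · exact Or.inr (not_lt.1 fun h2 => hb.next _ ha.m1 h.symm ⟨h1, h2⟩)

/-- A closed half plane with an open ray of its boundary line. -/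
theorem UBad_convex (s c u v : ℝ) :
    Convex ℝ {q : ℝ × ℝ | s * q.1 + c ≤ q.2 ∧ (q.2 = s * q.1 + c → v < u * q.1)} := by
  rw [convex_iff_forall_pos]
  rintro x ⟨x1, x2⟩ y ⟨y1, y2⟩ a b ha hb hab
  obtain rfl : b = 1 - a := by linarith
  simp only [mem_ofPred_eq, Prod.fst_add, Prod.snd_add, Prod.smul_fst, Prod.smul_snd, smul_eq_mul]
  have e1 := mul_nonneg ha.le (sub_nonneg.2 x1)
  have e2 := mul_nonneg hb.le (sub_nonneg.2 y1)
  refine ⟨by linarith, fun h => ?_⟩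
  have e3 : a * (x.2 - (s * x.1 + c)) = 0 := by linarith
  have e4 : (1 - a) * (y.2 - (s * y.1 + c)) = 0 := by linarith
  have e5 := x2 (sub_eq_zero.1 ((mul_eq_zero.1 e3).resolve_left ha.ne'))
  have e6 := y2 (sub_eq_zero.1 ((mul_eq_zero.1 e4).resolve_left hb.ne'))
  nlinarith [mul_pos ha (sub_pos.2 e5), mul_pos hb (sub_pos.2 e6)]

namespace Pl

variable {J ι : Type} [Fintype J] [DecidableEq J] [DecidableEq ι] {π : Pl J} {e : ι ↪ J}
  {G₀ : Finset ι}

open Classical in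
/-- The obstacles that meet the link. -/
noncomputable def Mk.blk (M : Mk π e G₀) (a : (ℝ × ℝ) × ℝ × ℝ) : Finset ι :=
  G₀.filter fun T => ¬ Disjoint (segment ℝ a.1 a.2) (π.seg (e T))

omit [Fintype J] in
theorem UBad_self {Pt : Finset (ℝ × ℝ)} (h : π.Gen Pt) (S : Finset J) {p : ℝ × ℝ} (hp : p ∈ Pt) :
    p ∈ π.Reg S p := Rel.refl (h.mem_O S hp)

omit [Fintype J] in
theorem UBad_hull {Pt : Finset (ℝ × ℝ)} (h : π.Gen Pt) (S : Finset J) {k : Set (ℝ × ℝ)}
    {x : ℝ × ℝ} (hx : x ∈ hull Pt (π.Reg S) k) : x ∈ k ∧ ∃ p ∈ Pt, π.Reg S p = k := by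
  obtain ⟨p, hp, rfl⟩ := convexHull_nonempty_iff.1 ⟨x, hx⟩
  refine ⟨convexHull_min (fun q hq => ?_) (convex_Reg S p) hx, p, hp, rfl⟩
  rw [← hq.2]
  exact UBad_self h S hq.1

omit [Fintype J] [DecidableEq J] [DecidableEq ι] in
theorem Mk.UBad_on (M : Mk π e G₀) {p : ℝ × ℝ} (hp : p ∈ M.Pt) {T : ι} (h : M.t p = T) :
    p.2 = π.sl (e T) * p.1 + (π.ic (e T) + M.ε) := by
  rw [M.on p hp, h, τ, add_assoc]

omit [Fintype J] [DecidableEq J] [DecidableEq ι] in
theorem Mk.UBad_off (M : Mk π e G₀) {p q : ℝ × ℝ} (hp : p ∈ M.Pt) (hq : q ∈ M.Pt)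
    (h : q.2 = π.sl (e (M.t p)) * q.1 + (π.ic (e (M.t p)) + M.ε)) : M.t q = M.t p := by
  by_contra hc
  exact M.off p hp q hq hc (by rw [h, τ, add_assoc])

omit [Fintype J] [DecidableEq ι] in
theorem Mk.UBad_seg (M : Mk π e G₀) {a : (ℝ × ℝ) × ℝ × ℝ} (ha : Link M.Pt M.t a) {T : ι}
    (h : M.t a.1 = T) {y : ℝ × ℝ} (hy : y ∈ segment ℝ a.1 a.2) :
    a.1.1 ≤ y.1 ∧ y.1 ≤ a.2.1 ∧ y.2 = π.sl (e T) * y.1 + (π.ic (e T) + M.ε) := by
  obtain ⟨h1, h2⟩ := UMark_rail (M.UBad_on ha.m1 h) (M.UBad_on ha.m2 (ha.same.trans h)) hy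
  rw [uIcc_of_le ha.lt.le] at h1
  exact ⟨h1.1, h1.2, h2⟩

/-- The marked points, divided into the regions of `S`. -/
def Mk.UBad_lk (M : Mk π e G₀) (S : Finset J) : LK ι (Set (ℝ × ℝ)) where
  Pt := M.Pt
  t := M.t
  rs T := π.sl (e T)
  ri T := π.ic (e T) + M.ε
  cls := π.Reg S
  inj := M.gen.inj
  on _ hp := M.UBad_on hp rfl
  off _ hp _ hq h h' := h (M.UBad_off hp hq h')
  disj k k' h := disjoint_left.2 fun x hx hx' => by
    obtain ⟨h1, p, -, rfl⟩ := UBad_hull M.gen S hx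
    obtain ⟨h2, p', -, rfl⟩ := UBad_hull M.gen S hx'
    exact disjoint_left.1 (Reg_disjoint h) h1 h2

omit [Fintype J] [DecidableEq ι] in
/-- Of three links of one rail that meet a region the middle one lies in the region. -/
theorem Mk.UBad_mid (M : Mk π e G₀) (S : Finset J) {a b c : (ℝ × ℝ) × ℝ × ℝ} {T : ι}
    (ha : Link M.Pt M.t a) (hb : Link M.Pt M.t b) (hc : Link M.Pt M.t c) (ta : M.t a.1 = T)
    (tb : M.t b.1 = T) (tc : M.t c.1 = T) (p : ℝ × ℝ)
    (da : ¬ Disjoint (segment ℝ a.1 a.2) (π.Reg S p))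
    (dc : ¬ Disjoint (segment ℝ c.1 c.2) (π.Reg S p)) (h1 : a.2.1 ≤ b.1.1) (h2 : b.2.1 ≤ c.1.1) :
    π.Reg S b.1 = π.Reg S b.2 := by
  obtain ⟨x, x1, x2⟩ := not_disjoint_iff.1 da
  obtain ⟨z, z1, z2⟩ := not_disjoint_iff.1 dc
  obtain ⟨-, x3, x4⟩ := M.UBad_seg ha ta x1
  obtain ⟨z3, -, z4⟩ := M.UBad_seg hc tc z1
  have key : ∀ q ∈ M.Pt, M.t q = T → x.1 ≤ q.1 → q.1 ≤ z.1 → π.Reg S q = π.Reg S p :=
    fun q hq ht u1 u2 => by
      have h := UMark_rail' x4 z4 (mem_uIcc.2 (Or.inl ⟨u1, u2⟩))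
      rw [← M.UBad_on hq ht] at h
      exact Reg_eq ((convex_Reg S p).segment_subset x2 z2 h)
  have := hb.lt
  rw [key _ hb.m1 tb (by linarith) (by linarith),
    key _ hb.m2 (hb.same.trans tb) (by linarith) (by linarith)]

omit [Fintype J] [DecidableEq ι] in
theorem Mk.UBad_two (M : Mk π e G₀) (S : Finset J) (T : ι) (p : ℝ × ℝ)
    {A : Finset ((ℝ × ℝ) × ℝ × ℝ)} (hA : ∀ a ∈ A, Link M.Pt M.t a ∧ π.Reg S a.1 ≠ π.Reg S a.2 ∧
      M.t a.1 = T ∧ ¬ Disjoint (segment ℝ a.1 a.2) (π.Reg S p)) : A.card ≤ 2 := by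
  by_contra hc
  obtain ⟨a, ha, b, hb, c, hc, hab, hac, hbc⟩ := Finset.two_lt_card.1 (not_le.1 hc)
  obtain ⟨a1, a2, a3, a4⟩ := hA a ha
  obtain ⟨b1, b2, b3, b4⟩ := hA b hb
  obtain ⟨c1, c2, c3, c4⟩ := hA c hc
  rcases UBad_order M.gen.inj a1 b1 (b3.trans a3.symm) hab with u | u <;>
    rcases UBad_order M.gen.inj b1 c1 (c3.trans b3.symm) hbc with v | v
  · exact b2 (M.UBad_mid S a1 b1 c1 a3 b3 c3 p a4 c4 u v)
  · rcases UBad_order M.gen.inj a1 c1 (c3.trans a3.symm) hac with w | w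
    · exact c2 (M.UBad_mid S a1 c1 b1 a3 c3 b3 p a4 b4 w v)
    · exact a2 (M.UBad_mid S c1 a1 b1 c3 a3 b3 p c4 b4 w u)
  · rcases UBad_order M.gen.inj a1 c1 (c3.trans a3.symm) hac with w | w
    · exact a2 (M.UBad_mid S b1 a1 c1 b3 a3 c3 p b4 c4 u w)
    · exact c2 (M.UBad_mid S b1 c1 a1 b3 c3 a3 p b4 a4 v w)
  · exact b2 (M.UBad_mid S c1 b1 a1 c3 b3 a3 p c4 a4 v u)

omit [Fintype J] [DecidableEq ι] in
/-- A hull that meets the link and has a point below the rail is split by the obstacle. -/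
theorem Mk.UBad_key (M : Mk π e G₀) (S : Finset J) {a : (ℝ × ℝ) × ℝ × ℝ} (ha : Link M.Pt M.t a)
    {r q : ℝ × ℝ} (hr : r ∈ segment ℝ a.1 a.2) (hq : q ∈ M.Pt)
    (hk : r ∈ hull M.Pt (π.Reg S) (π.Reg S q))
    (hlt : q.2 < π.sl (e (M.t a.1)) * q.1 + (π.ic (e (M.t a.1)) + M.ε)) :
    e (M.t a.1) ∉ S ∧ ¬ Disjoint (segment ℝ a.1 a.2) (π.Reg S q) ∧ ∃ u ∈ M.Pt, ∃ u' ∈ M.Pt,
      u ∈ π.Reg S q ∧ u' ∈ π.Reg S q ∧ ¬ π.Rel (insert (e (M.t a.1)) S) u u' := by
  have h1 := M.h1 _ ha.m1 _ ha.m2 ha.same r hr q hq (by rwa [τ, add_assoc])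
  have h2 : r ∈ π.Reg S q := (UBad_hull M.gen S hk).1
  refine ⟨fun h => h1 ((Rel.symm h2).disjoint h), not_disjoint_iff.2 ⟨r, hr, h2⟩, ?_⟩
  by_contra hc
  push Not at hc
  have h3 : r ∈ π.Reg (insert (e (M.t a.1)) S) q :=
    convexHull_min (fun u (hu : u ∈ M.Pt ∧ π.Reg S u = π.Reg S q) => hc q hq u hu.1
      (UBad_self M.gen S hq) (hu.2 ▸ UBad_self M.gen S hu.1)) (convex_Reg _ q) hk
  exact h1 ((Rel.symm h3).disjoint (Finset.mem_insert_self _ _))

omit [Fintype J] [DecidableEq ι] in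
theorem Mk.UBad_clean (M : Mk π e G₀) (S : Finset J) {a : (ℝ × ℝ) × ℝ × ℝ} (ha : Link M.Pt M.t a)
    (hne : π.Reg S a.1 ≠ π.Reg S a.2)
    (h : ∀ r ∈ segment ℝ a.1 a.2, ∀ q ∈ M.Pt, r ∈ hull M.Pt (π.Reg S) (π.Reg S q) →
      π.sl (e (M.t a.1)) * q.1 + (π.ic (e (M.t a.1)) + M.ε) ≤ q.2) : (M.UBad_lk S).Clean a := by
  refine ⟨ha, hne, fun q hq hc => ?_, fun k k1 k2 => disjoint_left.2 fun r hr hk => ?_⟩
  · rcases hc with hc | hc
    · exact h _ (left_mem_segment _ _ _) q hq (subset_convexHull ℝ _ ⟨ha.m1, hc.symm⟩)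
    · exact h _ (right_mem_segment _ _ _) q hq (subset_convexHull ℝ _ ⟨ha.m2, hc.symm⟩)
  change k ≠ π.Reg S a.1 at k1
  change k ≠ π.Reg S a.2 at k2
  change r ∈ hull M.Pt (π.Reg S) k at hk
  obtain ⟨r1, r2, r3⟩ := M.UBad_seg ha rfl hr
  have hab : ∀ q ∈ M.Pt, π.Reg S q = k →
      π.sl (e (M.t a.1)) * q.1 + (π.ic (e (M.t a.1)) + M.ε) ≤ q.2 := fun q hq hc =>
    h r hr q hq (hc ▸ hk)
  have hon : ∀ q ∈ M.Pt, π.Reg S q = k →
      q.2 = π.sl (e (M.t a.1)) * q.1 + (π.ic (e (M.t a.1)) + M.ε) → q.1 < a.1.1 ∨ a.2.1 < q.1 :=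
    fun q hq hc h0 => by
      by_contra hn
      push Not at hn
      refine ha.next q hq (M.UBad_off ha.m1 hq h0) ⟨lt_of_le_of_ne hn.1 fun u => k1 ?_,
        lt_of_le_of_ne hn.2 fun u => k2 ?_⟩
      · rw [← hc, M.gen.inj ha.m1 hq u]
      · rw [← hc, M.gen.inj hq ha.m2 u]
  by_cases hl : ∃ q ∈ M.Pt, π.Reg S q = k ∧
      q.2 = π.sl (e (M.t a.1)) * q.1 + (π.ic (e (M.t a.1)) + M.ε) ∧ q.1 < a.1.1
  · by_cases hg : ∃ q ∈ M.Pt, π.Reg S q = k ∧
        q.2 = π.sl (e (M.t a.1)) * q.1 + (π.ic (e (M.t a.1)) + M.ε) ∧ a.2.1 < q.1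
    · obtain ⟨q, hq, rfl, q2, q3⟩ := hl
      obtain ⟨u, hu, u1, u2, u3⟩ := hg
      have h1 := UMark_rail' q2 u2 (mem_uIcc.2 (Or.inl ⟨q3.le, (ha.lt.trans u3).le⟩))
      rw [← M.UBad_on ha.m1 rfl] at h1
      exact k1 (Reg_eq ((convex_Reg S q).segment_subset (UBad_self M.gen S hq)
        (u1 ▸ UBad_self M.gen S hu) h1)).symm
    · have h1 := convexHull_min (fun q hq => (⟨hab q hq.1 hq.2, fun h0 => by
        have := (hon q hq.1 hq.2 h0).resolve_right fun u => hg ⟨q, hq.1, hq.2, h0, u⟩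
        linarith⟩ : q ∈ {q : ℝ × ℝ | _ ∧ (_ → -a.1.1 < -1 * q.1)})) (UBad_convex _ _ _ _) hk
      linarith [h1.2 r3]
  · have h1 := convexHull_min (fun q hq => (⟨hab q hq.1 hq.2, fun h0 => by
      have := (hon q hq.1 hq.2 h0).resolve_left fun u => hl ⟨q, hq.1, hq.2, h0, u⟩
      linarith⟩ : q ∈ {q : ℝ × ℝ | _ ∧ (_ → a.2.1 < 1 * q.1)})) (UBad_convex _ _ _ _) hk
    linarith [h1.2 r3]

omit [Fintype J] [DecidableEq ι] in
/-- A link crosses at most one link of a given other rail. -/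
theorem Mk.UBad_cross (M : Mk π e G₀) {a b c : (ℝ × ℝ) × ℝ × ℝ} (ha : Link M.Pt M.t a)
    (hb : Link M.Pt M.t b) (hc : Link M.Pt M.t c) (hT : M.t b.1 ≠ M.t a.1) (h : M.t c.1 = M.t b.1)
    (db : ¬ Disjoint (segment ℝ a.1 a.2) (segment ℝ b.1 b.2))
    (dc : ¬ Disjoint (segment ℝ a.1 a.2) (segment ℝ c.1 c.2)) : b = c := by
  by_contra hne
  obtain ⟨y, y1, y2⟩ := not_disjoint_iff.1 db
  obtain ⟨z, z1, z2⟩ := not_disjoint_iff.1 dc
  obtain ⟨-, -, y3⟩ := M.UBad_seg ha rfl y1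
  obtain ⟨-, -, z3⟩ := M.UBad_seg ha rfl z1
  obtain ⟨y4, y5, y6⟩ := M.UBad_seg hb rfl y2
  obtain ⟨z4, z5, z6⟩ := M.UBad_seg hc h z2
  have hyz : y.1 = z.1 := by
    by_contra hn
    have e1 : π.sl (e (M.t a.1)) = π.sl (e (M.t b.1)) :=
      mul_right_cancel₀ (sub_ne_zero.2 hn) (by linarith)
    refine hT (M.UBad_off ha.m1 hb.m1 ?_)
    rw [M.UBad_on hb.m1 rfl, e1]
    rw [e1] at y3
    linarith
  rcases UBad_order M.gen.inj hb hc h hne with u | u
  · refine hT (h.symm.trans (M.UBad_off ha.m1 hc.m1 ?_))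
    have e1 : c.1.1 = z.1 := by linarith
    rw [M.UBad_on hc.m1 h, e1, ← z6, z3]
  · refine hT (M.UBad_off ha.m1 hb.m1 ?_)
    have e1 : b.1.1 = y.1 := by linarith
    rw [M.UBad_on hb.m1 rfl, e1, ← y6, y3]

open Classical in
theorem Mk.links_le (M : Mk π e G₀) {B : Finset J} (hB : ∀ T ∈ G₀, e T ∉ B) {R : Finset ι}
    (hR : R ⊆ G₀) {lam : ℕ} (h1 : 1 ≤ lam) :
    ((links M.Pt M.t).filter fun a => (M.blk a).card ≤ lam ^ 2 ∧ (M.blk a ∩ R).Nonempty).card ≤
      2 * ∑ T ∈ G₀ \ R, π.sp M.Pt (R.map e ∪ B) (e T) + 64 * lam * π.ph M.Pt (R.map e ∪ B) := by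
  have _ := hB
  have _ := hR
  set S := R.map e ∪ B with hS
  set F := (links M.Pt M.t).filter fun a => (M.blk a).card ≤ lam ^ 2 ∧ (M.blk a ∩ R).Nonempty
    with hF
  have hF1 : ∀ a ∈ F, Link M.Pt M.t a := fun a ha => mem_links.1 (Finset.mem_filter.1 ha).1
  have hRS : ∀ T ∈ R, e T ∈ S := fun T hT => Finset.mem_union_left _ (Finset.mem_map_of_mem e hT)
  have hF2 : ∀ a ∈ F, π.Reg S a.1 ≠ π.Reg S a.2 := fun a ha h => by
    obtain ⟨T, hT⟩ := (Finset.mem_filter.1 ha).2.2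
    rw [Finset.mem_inter] at hT
    exact (Finset.mem_filter.1 hT.1).2
      (Rel.disjoint (h ▸ UBad_self M.gen S (hF1 a ha).m2 : a.2 ∈ π.Reg S a.1) (hRS T hT.2))
  set spl : ι → Finset (Set (ℝ × ℝ)) := fun T => (M.Pt.image (π.Reg S)).filter fun κ =>
    ∃ q ∈ M.Pt, ∃ q' ∈ M.Pt, q ∈ κ ∧ q' ∈ κ ∧ ¬ π.Rel (insert (e T) S) q q' with hspl
  set Bad : (ℝ × ℝ) × ℝ × ℝ → Prop := fun a =>
    M.t a.1 ∉ R ∧ ∃ κ ∈ spl (M.t a.1), ¬ Disjoint (segment ℝ a.1 a.2) κ with hBad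
  rw [← Finset.card_filter_add_card_filter_not (s := F) Bad]
  refine add_le_add ?_ ?_
  · calc (F.filter Bad).card ≤ ((G₀ \ R).biUnion fun T => (spl T).biUnion fun κ =>
          F.filter fun a => M.t a.1 = T ∧ ¬ Disjoint (segment ℝ a.1 a.2) κ).card := by
          refine Finset.card_le_card fun a ha => ?_
          obtain ⟨h2, h3, κ, h4, h5⟩ := Finset.mem_filter.1 ha
          exact Finset.mem_biUnion.2 ⟨_, Finset.mem_sdiff.2 ⟨M.mem _ (hF1 a h2).m1, h3⟩,
            Finset.mem_biUnion.2 ⟨κ, h4, Finset.mem_filter.2 ⟨h2, rfl, h5⟩⟩⟩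
      _ ≤ ∑ T ∈ G₀ \ R, 2 * π.sp M.Pt S (e T) := by
          refine Finset.card_biUnion_le.trans (Finset.sum_le_sum fun T _ => ?_)
          rw [mul_comm]
          refine Finset.card_biUnion_le_card_mul _ _ _ fun κ hκ => ?_
          obtain ⟨p, -, rfl⟩ := Finset.mem_image.1 (Finset.mem_filter.1 hκ).1
          refine M.UBad_two S T p fun a ha => ?_
          obtain ⟨h2, h3, h4⟩ := Finset.mem_filter.1 ha
          exact ⟨hF1 a h2, hF2 a h2, h3, h4⟩
      _ = _ := (Finset.mul_sum _ _ _).symm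
  · have key := (M.UBad_lk S).clean_card (Ed := F.filter fun a => ¬ Bad a) (fun a ha => ?_) h1
      fun a ha => ?_
    · refine key.trans (le_of_eq ?_)
      rw [ph]
      congr
    · obtain ⟨h2, h3⟩ := Finset.mem_filter.1 ha
      refine M.UBad_clean S (hF1 a h2) (hF2 a h2) fun r hr q hq hk => not_lt.1 fun hlt => h3 ?_
      obtain ⟨u1, u2, u3⟩ := M.UBad_key S (hF1 a h2) hr hq hk hlt
      exact ⟨fun h => u1 (hRS _ h), _,
        Finset.mem_filter.2 ⟨Finset.mem_image_of_mem _ hq, u3⟩, u2⟩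
    · have h2 := (Finset.mem_filter.1 ha).1
      refine le_trans (Finset.card_le_card_of_injOn (fun b => M.t b.1) (fun b hb => ?_)
        fun b hb c hc h => ?_) (Finset.mem_filter.1 h2).2.1
      · obtain ⟨b1, b2, b3⟩ := (@Finset.mem_filter _ _ (_) _ _).1 (Finset.mem_coe.1 hb)
        have b4 := hF1 b (Finset.mem_filter.1 b1).1
        exact Finset.mem_coe.2
          (Finset.mem_filter.2 ⟨M.mem _ b4.m1, M.h3 a b (hF1 a h2) b4 b2 b3⟩)
      · obtain ⟨b1, b2, b3⟩ := (@Finset.mem_filter _ _ (_) _ _).1 (Finset.mem_coe.1 hb)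
        obtain ⟨c1, -, c3⟩ := (@Finset.mem_filter _ _ (_) _ _).1 (Finset.mem_coe.1 hc)
        exact M.UBad_cross (hF1 a h2) (hF1 b (Finset.mem_filter.1 b1).1)
          (hF1 c (Finset.mem_filter.1 c1).1) b2 h.symm b3 c3

end Pl

end SC
end

-- merged part: Pool.Agent.Work.MP_8a5de9_co.USum
section
/-!
# Random sampling on doubly exponential scales

Put `Φ k = (∑ f, ∑ R ∈ powersetCard k (G f), ph f R) / C(N, k) ≤ B (k + 1)`.
Links with `|blk| ≤ 16`: `h3` with `R = G f`, `lam = 4` gives at most `256 B (N + 1)`.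
For `j ≥ 2` let `lam = 2 ^ 2 ^ j` and consider the links with `lam < |blk| ≤ lam ^ 2`; every link
with `|blk| > 16` lies in such a group, and the group is empty unless `lam < N`, so
`j ≤ log 2 (log 2 N)`.  Let `k₀ = N / lam + 1`; then `N < lam k₀ ≤ 2 N`, `2 k₀ ≤ N`.  For
`k₀ ≤ k < 2 k₀`:
* at least half of the `k`-subsets `R` meet `blk a` (`half_hit`);
* `∑ R, ∑ T ∈ G \ R, F (insert T R) T = ∑ R' of size k + 1, ∑ T ∈ R', F R' T` (`sum_insert_eq`) and
  `(k + 1) C(N, k + 1) = (N - k) C(N, k)` give, with `h1`, `h2`, `h5`,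
  `∑ sp / C(N, k) ≤ (N - k) (Φ (k + 1) - Φ k + 4 B) ≤ N (Φ (k + 1) - Φ k + 4 B)` (the bracket is
  nonnegative since the left side is).
Sum `h3` over `R`, `f` and `k`; the differences telescope:
`k₀ * links / 2 ≤ 2 N (3 B k₀ + 4 B k₀) + 64 lam * k₀ * 2 B k₀`, so `links ≤ 540 B N`.
-/

open Finset

namespace SC

variable {ι : Type} [DecidableEq ι]

theorem sum_insert_eq (G : Finset ι) (k : ℕ) (F : Finset ι → ι → ℕ) :
    ∑ R ∈ powersetCard k G, ∑ T ∈ G \ R, F (insert T R) T =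
      ∑ R ∈ powersetCard (k + 1) G, ∑ T ∈ R, F R T := by
  rw [sum_sigma', sum_sigma']
  refine sum_nbij' (fun a => ⟨insert a.2 a.1, a.2⟩) (fun a => ⟨a.1.erase a.2, a.2⟩) ?_ ?_ ?_ ?_ ?_
  · rintro ⟨R, T⟩ h
    simp only [mem_sigma, mem_powersetCard, mem_sdiff] at h ⊢
    obtain ⟨⟨h1, h2⟩, h3, h4⟩ := h
    exact ⟨⟨insert_subset h3 h1, by rw [card_insert_of_notMem h4, h2]⟩, mem_insert_self _ _⟩
  · rintro ⟨R, T⟩ h
    simp only [mem_sigma, mem_powersetCard, mem_sdiff] at h ⊢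
    obtain ⟨⟨h1, h2⟩, h3⟩ := h
    exact ⟨⟨(erase_subset _ _).trans h1, by rw [card_erase_of_mem h3, h2]; rfl⟩, h1 h3,
      notMem_erase _ _⟩
  · rintro ⟨R, T⟩ h
    simp only [mem_sigma, mem_powersetCard, mem_sdiff] at h
    simp [erase_insert h.2.2]
  · rintro ⟨R, T⟩ h
    simp only [mem_sigma, mem_powersetCard] at h
    simp [insert_erase h.2]
  · rintro ⟨R, T⟩ _
    rfl

theorem USum_choose (M a k : ℕ) : M.choose (k + 1) + a * M.choose k ≤ (M + a).choose (k + 1) := by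
  induction a with
  | zero => simp
  | succ a ih =>
    have h1 : (M + (a + 1)).choose (k + 1) = (M + a).choose k + (M + a).choose (k + 1) := by
      rw [← add_assoc, Nat.choose_succ_succ']
    have h2 : M.choose k ≤ (M + a).choose k := Nat.choose_le_choose k (Nat.le_add_right _ _)
    rw [h1]; nlinarith

/-- The subsets that meet `A` in exactly one point are at least as many as those that miss it. -/
theorem half_hit {G A : Finset ι} (hA : A ⊆ G) {k : ℕ} (hk : G.card < A.card * k) :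
    G.card.choose k ≤ 2 * ((powersetCard k G).filter fun R => (A ∩ R).Nonempty).card := by
  obtain ⟨k, rfl⟩ : ∃ k', k = k' + 1 := by
    rcases k with _ | k
    · simp at hk
    · exact ⟨k, rfl⟩
  have hm : ((powersetCard (k + 1) G).filter fun R => ¬ (A ∩ R).Nonempty) =
      powersetCard (k + 1) (G \ A) := by
    ext R
    simp only [mem_filter, mem_powersetCard, not_nonempty_iff_eq_empty, subset_sdiff,
      ← disjoint_iff_inter_eq_empty]
    constructor
    · rintro ⟨⟨h1, h2⟩, h3⟩; exact ⟨⟨h1, h3.symm⟩, h2⟩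
    · rintro ⟨⟨h1, h3⟩, h2⟩; exact ⟨⟨h1, h2⟩, h3.symm⟩
  have hs := card_filter_add_card_filter_not (s := powersetCard (k + 1) G)
    (fun R => (A ∩ R).Nonempty)
  rw [hm, card_powersetCard, card_powersetCard] at hs
  have hc : (G \ A).card + A.card = G.card := card_sdiff_add_card_eq_card hA
  set M := (G \ A).card
  have h1 := USum_choose M A.card k
  rw [hc] at h1
  have h2 : M.choose (k + 1) * (k + 1) = M.choose k * (M - k) := Nat.choose_succ_right_eq M k
  have h3 : M.choose (k + 1) ≤ A.card * M.choose k := by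
    refine Nat.le_of_mul_le_mul_right (c := k + 1) ?_ (Nat.succ_pos k)
    rw [h2]
    calc M.choose k * (M - k) ≤ M.choose k * (A.card * (k + 1)) :=
          Nat.mul_le_mul_left _ (by omega)
      _ = A.card * M.choose k * (k + 1) := by ring
  omega

section grp

variable {φ Λ : Type} (𝓕 : Finset φ) (G : φ → Finset ι) (N b : ℕ) (B : ℝ)
    (Lk : φ → Finset Λ) (blk : φ → Λ → Finset ι) (ph : φ → Finset ι → ℕ)
    (cut sp : φ → Finset ι → ι → ℕ)

/-- The splitting count in terms of the numbers of regions. -/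
theorem USum_sp (hN : ∀ f ∈ 𝓕, (G f).card = N)
    (h1 : ∀ f ∈ 𝓕, ∀ R ⊆ G f, ∀ T ∈ G f, T ∉ R →
      sp f R T + ph f R ≤ ph f (insert T R) + cut f R T)
    (h2 : ∀ f ∈ 𝓕, ∀ R ⊆ G f, ∑ T ∈ R, cut f (R.erase T) T ≤ 4 * (R.card + b)) (k : ℕ) :
    (∑ f ∈ 𝓕, ∑ R ∈ powersetCard k (G f), ∑ T ∈ G f \ R, sp f R T) +
      (N - k) * ∑ f ∈ 𝓕, ∑ R ∈ powersetCard k (G f), ph f R ≤
    (k + 1) * (∑ f ∈ 𝓕, ∑ R ∈ powersetCard (k + 1) (G f), ph f R) +
      4 * (𝓕.card * (b + 1)) * ((k + 1) * N.choose (k + 1)) := by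
  have e : 4 * (𝓕.card * (b + 1)) * ((k + 1) * N.choose (k + 1)) =
      ∑ _f ∈ 𝓕, 4 * (b + 1) * ((k + 1) * N.choose (k + 1)) := by
    rw [sum_const, smul_eq_mul]; ring
  rw [e, mul_sum, mul_sum, ← sum_add_distrib, ← sum_add_distrib]
  refine sum_le_sum fun f hf => ?_
  have a1 : ∑ R ∈ powersetCard k (G f), ∑ T ∈ G f \ R, ph f (insert T R) =
      (k + 1) * ∑ R ∈ powersetCard (k + 1) (G f), ph f R := by
    rw [sum_insert_eq (G f) k fun R _ => ph f R, mul_sum]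
    refine sum_congr rfl fun R hR => ?_
    rw [sum_const, smul_eq_mul, (mem_powersetCard.1 hR).2]
  have a2 : ∑ R ∈ powersetCard k (G f), ∑ T ∈ G f \ R, cut f R T ≤
      4 * (b + 1) * ((k + 1) * N.choose (k + 1)) := by
    have : ∑ R ∈ powersetCard k (G f), ∑ T ∈ G f \ R, cut f R T =
        ∑ R ∈ powersetCard (k + 1) (G f), ∑ T ∈ R, cut f (R.erase T) T := by
      rw [← sum_insert_eq (G f) k fun R T => cut f (R.erase T) T]
      refine sum_congr rfl fun R _ => sum_congr rfl fun T hT => ?_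
      rw [erase_insert (mem_sdiff.1 hT).2]
    rw [this]
    calc ∑ R ∈ powersetCard (k + 1) (G f), ∑ T ∈ R, cut f (R.erase T) T
        ≤ ∑ _R ∈ powersetCard (k + 1) (G f), 4 * (b + 1) * (k + 1) := by
          refine sum_le_sum fun R hR => ?_
          have := h2 f hf R (mem_powersetCard.1 hR).1
          rw [(mem_powersetCard.1 hR).2] at this
          nlinarith [Nat.zero_le (b * k)]
      _ = 4 * (b + 1) * ((k + 1) * N.choose (k + 1)) := by
          rw [sum_const, smul_eq_mul, card_powersetCard, hN f hf]; ring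
  rw [← a1, mul_sum, ← sum_add_distrib]
  refine le_trans ?_ (Nat.add_le_add_left a2 _)
  rw [← sum_add_distrib]
  refine sum_le_sum fun R hR => ?_
  obtain ⟨hR1, hR2⟩ := mem_powersetCard.1 hR
  have : (N - k) * ph f R = ∑ _T ∈ G f \ R, ph f R := by
    rw [sum_const, smul_eq_mul, card_sdiff_of_subset hR1, hN f hf, hR2]
  rw [this, ← sum_add_distrib, ← sum_add_distrib]
  exact sum_le_sum fun T hT => h1 f hf R hR1 T (mem_sdiff.1 hT).1 (mem_sdiff.1 hT).2

/-- The links of one group are hit by half of the samples. -/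
theorem USum_hit (hN : ∀ f ∈ 𝓕, (G f).card = N)
    (hb : ∀ f ∈ 𝓕, ∀ a ∈ Lk f, blk f a ⊆ G f ∧ (blk f a).Nonempty)
    (h3 : ∀ f ∈ 𝓕, ∀ R ⊆ G f, ∀ lam : ℕ, 1 ≤ lam →
      ((Lk f).filter fun a => (blk f a).card ≤ lam ^ 2 ∧ (blk f a ∩ R).Nonempty).card ≤
        2 * ∑ T ∈ G f \ R, sp f R T + 64 * lam * ph f R)
    {lam k : ℕ} (hl : 1 ≤ lam) (hk : N < lam * k) :
    (∑ f ∈ 𝓕, ((Lk f).filter fun a => lam < (blk f a).card ∧ (blk f a).card ≤ lam ^ 2).card) *
      N.choose k ≤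
    4 * (∑ f ∈ 𝓕, ∑ R ∈ powersetCard k (G f), ∑ T ∈ G f \ R, sp f R T) +
      128 * lam * ∑ f ∈ 𝓕, ∑ R ∈ powersetCard k (G f), ph f R := by
  rw [sum_mul, mul_sum, mul_sum, ← sum_add_distrib]
  refine sum_le_sum fun f hf => ?_
  set A := (Lk f).filter fun a => lam < (blk f a).card ∧ (blk f a).card ≤ lam ^ 2 with hA
  calc A.card * N.choose k
      = ∑ _a ∈ A, N.choose k := by rw [sum_const, smul_eq_mul]
    _ ≤ ∑ a ∈ A, 2 * ((powersetCard k (G f)).filter fun R => (blk f a ∩ R).Nonempty).card := by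
        refine sum_le_sum fun a ha => ?_
        obtain ⟨ha1, ha2, -⟩ := mem_filter.1 ha
        rw [← hN f hf]
        refine half_hit (hb f hf a ha1).1 ?_
        rw [hN f hf]
        exact hk.trans_le (Nat.mul_le_mul_right _ ha2.le)
    _ = 2 * ∑ R ∈ powersetCard k (G f), (A.filter fun a => (blk f a ∩ R).Nonempty).card := by
        rw [← mul_sum]
        congr 1
        simp only [card_filter]
        exact sum_comm
    _ ≤ 2 * ∑ R ∈ powersetCard k (G f),
          (2 * ∑ T ∈ G f \ R, sp f R T + 64 * lam * ph f R) := by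
        refine Nat.mul_le_mul_left _ (sum_le_sum fun R hR => ?_)
        refine le_trans (card_le_card ?_) (h3 f hf R (mem_powersetCard.1 hR).1 lam hl)
        intro a ha
        obtain ⟨ha, ha'⟩ := mem_filter.1 ha
        obtain ⟨ha1, -, ha3⟩ := mem_filter.1 ha
        exact mem_filter.2 ⟨ha1, ha3, ha'⟩
    _ = _ := by
        rw [sum_add_distrib, ← mul_sum, ← mul_sum]; ring

theorem USum_grp (hN : ∀ f ∈ 𝓕, (G f).card = N)
    (hb : ∀ f ∈ 𝓕, ∀ a ∈ Lk f, blk f a ⊆ G f ∧ (blk f a).Nonempty)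
    (h1 : ∀ f ∈ 𝓕, ∀ R ⊆ G f, ∀ T ∈ G f, T ∉ R →
      sp f R T + ph f R ≤ ph f (insert T R) + cut f R T)
    (h2 : ∀ f ∈ 𝓕, ∀ R ⊆ G f, ∑ T ∈ R, cut f (R.erase T) T ≤ 4 * (R.card + b))
    (h3 : ∀ f ∈ 𝓕, ∀ R ⊆ G f, ∀ lam : ℕ, 1 ≤ lam →
      ((Lk f).filter fun a => (blk f a).card ≤ lam ^ 2 ∧ (blk f a ∩ R).Nonempty).card ≤
        2 * ∑ T ∈ G f \ R, sp f R T + 64 * lam * ph f R)
    (h4 : ∀ k ≤ N, ((∑ f ∈ 𝓕, ∑ R ∈ powersetCard k (G f), ph f R : ℕ) : ℝ) ≤
      B * (k + 1) * N.choose k)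
    (h5 : (𝓕.card : ℝ) * (b + 1) ≤ B) {lam : ℕ} (hl : 16 ≤ lam) (hlN : lam < N) :
    ((∑ f ∈ 𝓕, ((Lk f).filter fun a =>
      lam < (blk f a).card ∧ (blk f a).card ≤ lam ^ 2).card : ℕ) : ℝ) ≤ 540 * B * N := by
  have hB : 0 ≤ B := le_trans (by positivity) h5
  set L : ℕ := ∑ f ∈ 𝓕, ((Lk f).filter fun a =>
      lam < (blk f a).card ∧ (blk f a).card ≤ lam ^ 2).card with hL
  set P : ℕ → ℕ := fun k => ∑ f ∈ 𝓕, ∑ R ∈ powersetCard k (G f), ph f R with hP
  set Φ : ℕ → ℝ := fun k => (P k : ℝ) / N.choose k with hΦ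
  set k₀ := N / lam + 1 with hk₀
  have e1 : N < lam * k₀ := Nat.lt_mul_div_succ N (by omega)
  have e2 : lam * k₀ ≤ 2 * N := by
    have := Nat.mul_div_le N lam
    rw [hk₀, mul_add]; omega
  have e3 : 2 * k₀ ≤ N := by
    have : N / lam ≤ N / 16 := Nat.div_le_div_left hl (by norm_num)
    omega
  have hC : ∀ k ≤ N, (0 : ℝ) < N.choose k := fun k hk => by
    exact_mod_cast Nat.choose_pos hk
  have hΦ0 : ∀ k, 0 ≤ Φ k := fun k => by positivity
  have hΦ1 : ∀ k ≤ N, Φ k ≤ B * (k + 1) := fun k hk => by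
    rw [hΦ]; exact (div_le_iff₀ (hC k hk)).2 (h4 k hk)
  have hPΦ : ∀ k ≤ N, (P k : ℝ) = Φ k * N.choose k := fun k hk => by
    rw [hΦ]; field_simp [(hC k hk).ne']
  have step : ∀ k, k₀ ≤ k → k < 2 * k₀ →
      (L : ℝ) ≤ 4 * N * (Φ (k + 1) - Φ k + 4 * B) + 512 * B * N := by
    intro k hk hk'
    have hkN : k + 1 ≤ N := by omega
    have s1 := USum_sp 𝓕 G N b ph cut sp hN h1 h2 k
    have s2 := USum_hit 𝓕 G N Lk blk ph sp hN hb h3 (lam := lam) (k := k) (by omega)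
      (e1.trans_le (Nat.mul_le_mul_left _ hk))
    set SP : ℕ := ∑ f ∈ 𝓕, ∑ R ∈ powersetCard k (G f), ∑ T ∈ G f \ R, sp f R T
    have s1' : (SP : ℝ) + ((N : ℝ) - k) * P k ≤ (k + 1) * P (k + 1) +
        4 * (𝓕.card * (b + 1)) * ((k + 1) * N.choose (k + 1)) := by
      have : ((N - k : ℕ) : ℝ) = N - k := by rw [Nat.cast_sub (by omega)]
      rw [← this]; exact_mod_cast s1
    have s2' : (L : ℝ) * N.choose k ≤ 4 * SP + 128 * lam * P k := by exact_mod_cast s2
    have c1 : ((k : ℝ) + 1) * N.choose (k + 1) = (N - k) * N.choose k := by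
      have h := Nat.choose_succ_right_eq N k
      have : ((N - k : ℕ) : ℝ) = N - k := by rw [Nat.cast_sub (by omega)]
      rw [← this, mul_comm, mul_comm ((N - k : ℕ) : ℝ)]
      exact_mod_cast h
    have hCk := hC k (by omega)
    have hNk : (0 : ℝ) < N - k := by
      have : (k : ℝ) < N := by exact_mod_cast (by omega : k < N)
      linarith
    rw [hPΦ k (by omega), hPΦ (k + 1) hkN] at s1'
    rw [hPΦ k (by omega)] at s2'
    have s3 : (SP : ℝ) ≤ (N - k) * N.choose k * (Φ (k + 1) - Φ k + 4 * B) := by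
      have t1 : ((k : ℝ) + 1) * (Φ (k + 1) * N.choose (k + 1)) =
          Φ (k + 1) * ((N - k) * N.choose k) := by rw [← c1]; ring
      have t2 : 4 * ((𝓕.card : ℝ) * (b + 1)) * ((N - k) * N.choose k) ≤
          4 * B * ((N - k) * N.choose k) := by
        have := mul_pos hNk hCk
        nlinarith
      rw [t1, c1] at s1'
      nlinarith
    have s4 : 0 ≤ Φ (k + 1) - Φ k + 4 * B := by
      have : (0 : ℝ) ≤ SP := by positivity
      exact nonneg_of_mul_nonneg_right (this.trans s3) (mul_pos hNk hCk)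
    have s5 : (SP : ℝ) ≤ N * (Φ (k + 1) - Φ k + 4 * B) * N.choose k := by
      refine s3.trans ?_
      have : (0 : ℝ) ≤ k * (N.choose k * (Φ (k + 1) - Φ k + 4 * B)) := by positivity
      nlinarith
    have s6 : (lam : ℝ) * Φ k ≤ 4 * B * N := by
      have u1 := hΦ1 k (by omega)
      have u2 : ((k : ℝ) + 1) ≤ 2 * k₀ := by exact_mod_cast (by omega : k + 1 ≤ 2 * k₀)
      have u3 : (lam : ℝ) * k₀ ≤ 2 * N := by exact_mod_cast e2
      have u4 : Φ k ≤ B * (2 * k₀) := u1.trans (mul_le_mul_of_nonneg_left u2 hB)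
      calc (lam : ℝ) * Φ k ≤ lam * (B * (2 * k₀)) := mul_le_mul_of_nonneg_left u4 (by positivity)
        _ = 2 * B * (lam * k₀) := by ring
        _ ≤ 2 * B * (2 * N) := mul_le_mul_of_nonneg_left u3 (by positivity)
        _ = 4 * B * N := by ring
    refine le_of_mul_le_mul_right ?_ hCk
    have := mul_le_mul_of_nonneg_right s6 hCk.le
    nlinarith
  have tel : ∀ m, m ≤ k₀ → (m : ℝ) * L ≤
      4 * N * (Φ (k₀ + m) - Φ k₀ + 4 * B * m) + 512 * B * N * m := by
    intro m hm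
    induction m with
    | zero => simp
    | succ m ih =>
      have i1 := ih (by omega)
      have i2 := step (k₀ + m) (by omega) (by omega)
      rw [← add_assoc]
      push_cast
      nlinarith
  have t := tel k₀ le_rfl
  have hk1 : (1 : ℝ) ≤ k₀ := by exact_mod_cast Nat.le_add_left 1 (N / lam)
  have t2 : Φ (k₀ + k₀) ≤ 3 * B * k₀ := by
    have := hΦ1 (k₀ + k₀) (by omega)
    push_cast at this
    nlinarith
  have t3 := hΦ0 k₀
  refine le_of_mul_le_mul_left (a := (k₀ : ℝ)) ?_ (by linarith)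
  have t4 : (0 : ℝ) ≤ N := by positivity
  have t5 : 4 * (N : ℝ) * (Φ (k₀ + k₀) - Φ k₀ + 4 * B * k₀) ≤ 4 * N * (7 * B * k₀) :=
    mul_le_mul_of_nonneg_left (by linarith) (by positivity)
  nlinarith

end grp

theorem USum_scale {m N : ℕ} (h : 16 < m) (hN : m ≤ N) :
    ∃ j ∈ Icc 2 (Nat.log 2 (Nat.log 2 N)), 2 ^ 2 ^ j < m ∧ m ≤ (2 ^ 2 ^ j) ^ 2 := by
  have ex : ∃ j, m ≤ 2 ^ 2 ^ (j + 1) :=
    ⟨m, (Nat.lt_two_pow_self.trans (Nat.pow_lt_pow_right (by norm_num)
      ((Nat.lt_succ_self m).trans Nat.lt_two_pow_self))).le⟩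
  classical
  have h1 := Nat.find_spec ex
  set j := Nat.find ex with hj
  have h2 : 2 ≤ j := by
    by_contra hc
    have : j = 0 ∨ j = 1 := by omega
    rcases this with h0 | h0 <;> rw [h0] at h1 <;> norm_num at h1 <;> omega
  have h3 : 2 ^ 2 ^ j < m := by
    have := Nat.find_min ex (m := j - 1) (by omega)
    rw [show j - 1 + 1 = j by omega] at this
    omega
  refine ⟨j, mem_Icc.2 ⟨h2, ?_⟩, h3, ?_⟩
  · exact Nat.le_log_of_pow_le (by norm_num)
      (Nat.le_log_of_pow_le (by norm_num) (h3.le.trans hN))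
  · rwa [← pow_mul, ← pow_succ]

theorem sample_sum {φ Λ : Type} (𝓕 : Finset φ) (G : φ → Finset ι) (N b : ℕ) (B : ℝ)
    (Lk : φ → Finset Λ) (blk : φ → Λ → Finset ι) (ph : φ → Finset ι → ℕ)
    (cut sp : φ → Finset ι → ι → ℕ) (hN : ∀ f ∈ 𝓕, (G f).card = N)
    (hb : ∀ f ∈ 𝓕, ∀ a ∈ Lk f, blk f a ⊆ G f ∧ (blk f a).Nonempty)
    (h1 : ∀ f ∈ 𝓕, ∀ R ⊆ G f, ∀ T ∈ G f, T ∉ R →
      sp f R T + ph f R ≤ ph f (insert T R) + cut f R T)
    (h2 : ∀ f ∈ 𝓕, ∀ R ⊆ G f, ∑ T ∈ R, cut f (R.erase T) T ≤ 4 * (R.card + b))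
    (h3 : ∀ f ∈ 𝓕, ∀ R ⊆ G f, ∀ lam : ℕ, 1 ≤ lam →
      ((Lk f).filter fun a => (blk f a).card ≤ lam ^ 2 ∧ (blk f a ∩ R).Nonempty).card ≤
        2 * ∑ T ∈ G f \ R, sp f R T + 64 * lam * ph f R)
    (h4 : ∀ k ≤ N, ((∑ f ∈ 𝓕, ∑ R ∈ powersetCard k (G f), ph f R : ℕ) : ℝ) ≤
      B * (k + 1) * N.choose k)
    (h5 : (𝓕.card : ℝ) * (b + 1) ≤ B) :
    ((∑ f ∈ 𝓕, (Lk f).card : ℕ) : ℝ) ≤ 1000 * B * (N + 1) * (Nat.log 2 (Nat.log 2 N) + 1) := by
  classical
  have hB : 0 ≤ B := le_trans (by positivity) h5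
  set J := Nat.log 2 (Nat.log 2 N) with hJ
  have a0 : ∑ f ∈ 𝓕, (Lk f).card ≤
      256 * (∑ f ∈ 𝓕, ∑ R ∈ powersetCard N (G f), ph f R) +
      ∑ j ∈ Icc 2 J, ∑ f ∈ 𝓕, ((Lk f).filter fun a =>
        2 ^ 2 ^ j < (blk f a).card ∧ (blk f a).card ≤ (2 ^ 2 ^ j) ^ 2).card := by
    rw [sum_comm (s := Icc 2 J), mul_sum, ← sum_add_distrib]
    refine sum_le_sum fun f hf => ?_
    have b1 := h3 f hf (G f) Subset.rfl 4 (by norm_num)
    rw [sdiff_self, bot_eq_empty, sum_empty] at b1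
    have b2 : powersetCard N (G f) = {G f} := by rw [← hN f hf, powersetCard_self]
    rw [b2, sum_singleton]
    refine le_trans (card_le_card (t := ((Lk f).filter fun a =>
        (blk f a).card ≤ 4 ^ 2 ∧ (blk f a ∩ G f).Nonempty) ∪ (Icc 2 J).biUnion fun j =>
        (Lk f).filter fun a =>
        2 ^ 2 ^ j < (blk f a).card ∧ (blk f a).card ≤ (2 ^ 2 ^ j) ^ 2) ?_) ?_
    · intro a ha
      obtain ⟨c1, c2⟩ := hb f hf a ha
      by_cases hc : (blk f a).card ≤ 4 ^ 2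
      · exact mem_union_left _ (mem_filter.2 ⟨ha, hc, by rwa [inter_eq_left.2 c1]⟩)
      · obtain ⟨j, hj, hj'⟩ := USum_scale (m := (blk f a).card) (N := N) (by omega)
          (hN f hf ▸ card_le_card c1)
        exact mem_union_right _ (mem_biUnion.2 ⟨j, hj, mem_filter.2 ⟨ha, hj'⟩⟩)
    · refine (card_union_le _ _).trans (Nat.add_le_add (by omega) card_biUnion_le)
  have a1 := h4 N le_rfl
  rw [Nat.choose_self] at a1
  have a2 : ∀ j ∈ Icc 2 J, ((∑ f ∈ 𝓕, ((Lk f).filter fun a =>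
        2 ^ 2 ^ j < (blk f a).card ∧ (blk f a).card ≤ (2 ^ 2 ^ j) ^ 2).card : ℕ) : ℝ) ≤
      540 * B * N := by
    intro j hj
    by_cases hc : 2 ^ 2 ^ j < N
    · refine USum_grp 𝓕 G N b B Lk blk ph cut sp hN hb h1 h2 h3 h4 h5 ?_ hc
      calc 16 = 2 ^ 2 ^ 2 := by norm_num
        _ ≤ 2 ^ 2 ^ j := Nat.pow_le_pow_right (by norm_num)
          (Nat.pow_le_pow_right (by norm_num) (mem_Icc.1 hj).1)
    · rw [sum_eq_zero]
      · simp only [Nat.cast_zero]; positivity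
      · intro f hf
        rw [card_eq_zero, filter_eq_empty_iff]
        rintro a ha ⟨c1, -⟩
        have := card_le_card (hb f hf a ha).1
        rw [hN f hf] at this
        omega
  have a3 := sum_le_sum a2
  rw [sum_const, nsmul_eq_mul, ← Nat.cast_sum] at a3
  have a4 : ((Icc 2 J).card : ℝ) ≤ J + 1 := by
    rw [Nat.card_Icc]; exact_mod_cast (by omega : J + 1 - 2 ≤ J + 1)
  have a5 : ((∑ f ∈ 𝓕, (Lk f).card : ℕ) : ℝ) ≤
      256 * ((∑ f ∈ 𝓕, ∑ R ∈ powersetCard N (G f), ph f R : ℕ) : ℝ) +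
      ((∑ j ∈ Icc 2 J, ∑ f ∈ 𝓕, ((Lk f).filter fun a =>
        2 ^ 2 ^ j < (blk f a).card ∧ (blk f a).card ≤ (2 ^ 2 ^ j) ^ 2).card : ℕ) : ℝ) := by
    exact_mod_cast a0
  have a6 : (0 : ℝ) ≤ B * N := by positivity
  have a7 : (0 : ℝ) ≤ J := by positivity
  have a8 := mul_le_mul_of_nonneg_right a4 (show (0 : ℝ) ≤ 540 * B * N by positivity)
  have a9 : (0 : ℝ) ≤ B * N * J := by positivity
  have a10 : (0 : ℝ) ≤ B * J := by positivity
  rw [Nat.cast_one] at a1
  nlinarith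

end SC
end

-- merged part: Pool.Agent.Work.MP_8a5de9_co.UPlMain
section
/-!
# The planar theorem for a family of planes

If `ι` is empty the left side is zero.  Otherwise, for every `f` choose marked points by `exists_mk` with `G = Gp f (G₀ f)` (`Gd.tr`), and apply
`sample_sum` with `Lk = links`, `blk = Mk.blk`, `ph f R = ph Pt (S R)`, `sp f R T = sp Pt (S R) (e T)`,
`cut f R T = cut (S R) (e T)`, where `S R = R.map e ∪ B f`; `h1` is `sp_add`, `h2` is `cut_sum`,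
`h3` is `Mk.links_le`.  For `h4`, `ph_le` gives
`ph ≤ #GM pairs in R + 2 b (k + b) + 6 (k + b)` (pairs with a member in `B f` are counted
trivially), and `(2 b + 6) (k + b) ≤ (2 b + 6) (b + 1) (k + 1)`; so use
`B + |𝓕| (2 b + 6) (b + 1)` as the constant.  Finally `card_links`.
-/

open Finset

namespace SC

open Classical in
theorem UPlMain_pairs {J ι : Type} [DecidableEq J] (e : ι ↪ J) (R : Finset ι) (B : Finset J)
    (P : J → J → Prop) :
    (((R.map e ∪ B) ×ˢ (R.map e ∪ B)).filter fun a => P a.1 a.2).card ≤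
      ((R ×ˢ R).filter fun a => P (e a.1) (e a.2)).card + 2 * B.card * (R.card + B.card) := by
  have hS : (R.map e ∪ B).card ≤ R.card + B.card := by
    simpa using card_union_le (R.map e) B
  have hsub : (((R.map e ∪ B) ×ˢ (R.map e ∪ B)).filter fun a => P a.1 a.2) ⊆
      ((R ×ˢ R).filter fun a => P (e a.1) (e a.2)).map (e.prodMap e) ∪
        (B ×ˢ (R.map e ∪ B) ∪ (R.map e ∪ B) ×ˢ B) := by
    rintro ⟨x, y⟩ h
    obtain ⟨h1, h2⟩ := mem_filter.1 h
    obtain ⟨h3, h4⟩ := mem_product.1 h1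
    rcases mem_union.1 h3 with h5 | h5
    · rcases mem_union.1 h4 with h6 | h6
      · obtain ⟨a, ha, rfl⟩ := mem_map.1 h5
        obtain ⟨b, hb, rfl⟩ := mem_map.1 h6
        exact mem_union_left _ (mem_map.2 ⟨(a, b), mem_filter.2 ⟨mem_product.2 ⟨ha, hb⟩, h2⟩, rfl⟩)
      · exact mem_union_right _ (mem_union_right _ (mem_product.2 ⟨h3, h6⟩))
    · exact mem_union_right _ (mem_union_left _ (mem_product.2 ⟨h5, h4⟩))
  refine (card_le_card hsub).trans ((card_union_le _ _).trans ?_)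
  rw [card_map]
  refine Nat.add_le_add_left ((card_union_le _ _).trans ?_) _
  rw [card_product, card_product]
  nlinarith

open Classical in
theorem planar_main {φ J ι : Type} [Fintype J] [DecidableEq J] [DecidableEq ι] (𝓕 : Finset φ)
    (π : φ → Pl J) (e : ι ↪ J) (G₀ : φ → Finset ι) (Bf : φ → Finset J) (N b : ℕ) (B : ℝ)
    (Gp : φ → Finset ι → ℝ × ℝ → Prop) (hN : ∀ f ∈ 𝓕, (G₀ f).card = N)
    (hb : ∀ f ∈ 𝓕, (Bf f).card ≤ b) (hB : ∀ f ∈ 𝓕, ∀ T ∈ G₀ f, e T ∉ Bf f)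
    (hG : ∀ f ∈ 𝓕, ∀ R ⊆ G₀ f, (π f).Gd (R.map e ∪ Bf f) (Gp f R))
    (hm : ∀ f ∈ 𝓕, ∀ R ⊆ G₀ f, ∀ p, Gp f (G₀ f) p → Gp f R p) (h0 : 0 ≤ B)
    (h4 : ∀ k ≤ N, ((∑ f ∈ 𝓕, ∑ R ∈ powersetCard k (G₀ f),
      ((R ×ˢ R).filter fun a => (π f).GM (Gp f R) (e a.1) (e a.2)).card : ℕ) : ℝ) ≤
        B * (k + 1) * N.choose k) :
    ((∑ f ∈ 𝓕, ((G₀ f ×ˢ G₀ f).filter fun a =>
      (π f).UW (Gp f (G₀ f)) (e a.1) (e a.2)).card : ℕ) : ℝ) ≤
        1001 * (B + 𝓕.card * ((2 * b + 6) * (b + 1))) * (N + 1) *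
          (Nat.log 2 (Nat.log 2 N) + 1) := by
  rcases isEmpty_or_nonempty ι with hι | hι
  · rw [sum_eq_zero fun f _ => by rw [eq_empty_of_isEmpty (G₀ f)]; simp,
      Nat.cast_zero]
    positivity
  have hex : ∀ f, ∃ M : Pl.Mk (π f) e (G₀ f), f ∈ 𝓕 → (∀ p ∈ M.Pt, Gp f (G₀ f) p) ∧
      ((G₀ f ×ˢ G₀ f).filter fun a => (π f).UW (Gp f (G₀ f)) (e a.1) (e a.2)).card ≤
        M.Pt.card := by
    intro f
    by_cases hf : f ∈ 𝓕
    · obtain ⟨M, h⟩ := Pl.exists_mk (π f) e (G₀ f) (G := Gp f (G₀ f)) fun p q hp h =>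
        (hG f hf _ Subset.rfl).tr p q hp fun j _ => h j
      exact ⟨M, fun _ => h⟩
    · obtain ⟨M, -⟩ := Pl.exists_mk (π f) e (G₀ f) (G := fun _ => True) fun _ _ _ _ => trivial
      exact ⟨M, fun h => absurd h hf⟩
  choose M hM using hex
  have hnot : ∀ f ∈ 𝓕, ∀ R : Finset ι, ∀ T ∈ G₀ f, T ∉ R → e T ∉ R.map e ∪ Bf f :=
    fun f hf R T hT h => by
      rw [mem_union, mem_map' e]
      exact fun h' => h'.elim h (hB f hf T hT)
  set B' : ℝ := B + 𝓕.card * ((2 * b + 6) * (b + 1)) with hB'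
  have h5 : (𝓕.card : ℝ) * (b + 1) ≤ B' := by
    have : (0 : ℝ) ≤ 𝓕.card * ((2 * b + 5) * (b + 1)) := by positivity
    rw [hB']
    nlinarith
  have key := sample_sum 𝓕 G₀ N b B' (fun f => links (M f).Pt (M f).t) (fun f => (M f).blk)
    (fun f R => (π f).ph (M f).Pt (R.map e ∪ Bf f))
    (fun f R T => (π f).cut (R.map e ∪ Bf f) (e T))
    (fun f R T => (π f).sp (M f).Pt (R.map e ∪ Bf f) (e T)) hN
    (fun f _ a ha => ⟨filter_subset _ _, by
      obtain ⟨T, h1, h2⟩ := (M f).h2 a (mem_links.1 ha)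
      exact ⟨T, mem_filter.2 ⟨h1, h2⟩⟩⟩)
    (fun f hf R _ T hT h => by
      rw [map_insert, insert_union]
      exact Pl.sp_add (M f).gen (hnot f hf R T hT h))
    (fun f hf R hR => by
      have h1 := (π f).cut_sum (S := R.map e ∪ Bf f) (R := R.map e) subset_union_left
      rw [sum_map] at h1
      have h2 : (R.map e ∪ Bf f).card ≤ R.card + b := by
        have := card_union_le (R.map e) (Bf f)
        rw [card_map] at this
        linarith [hb f hf]
      refine le_trans (le_of_eq (sum_congr rfl fun T hT => ?_)) (h1.trans (by omega))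
      rw [map_erase, erase_union_distrib, erase_eq_of_notMem (hB f hf T (hR hT))])
    (fun f hf R hR lam h => by
      convert (M f).links_le (hB f hf) hR h using 2)
    (fun k hk => by
      have h1 : ∀ f ∈ 𝓕, ∀ R ∈ powersetCard k (G₀ f), (π f).ph (M f).Pt (R.map e ∪ Bf f) ≤
          ((R ×ˢ R).filter fun a => (π f).GM (Gp f R) (e a.1) (e a.2)).card +
            (2 * b + 6) * (b + 1) * (k + 1) := by
        intro f hf R hR
        obtain ⟨r1, r2⟩ := mem_powersetCard.1 hR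
        have a1 := (π f).ph_le (hG f hf R r1) (Pt := (M f).Pt)
          (fun p hp => (M f).gen.mem_O _ hp) fun p hp => hm f hf R r1 p ((hM f hf).1 p hp)
        have a2 := UPlMain_pairs e R (Bf f) ((π f).GM (Gp f R))
        have a3 : (R.map e ∪ Bf f).card ≤ k + b := by
          have := card_union_le (R.map e) (Bf f)
          rw [card_map] at this
          linarith [hb f hf]
        have a4 : 2 * (Bf f).card * (R.card + (Bf f).card) ≤ 2 * b * (k + b) :=
          Nat.mul_le_mul (Nat.mul_le_mul_left _ (hb f hf)) (by linarith [hb f hf])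
        have a5 : (2 * b + 6) * (k + b) ≤ (2 * b + 6) * (b + 1) * (k + 1) := by
          rw [mul_assoc]
          exact Nat.mul_le_mul_left _ (by nlinarith)
        nlinarith
      have h2 := sum_le_sum fun f hf => sum_le_sum (h1 f hf)
      simp only [sum_add_distrib, sum_const, card_powersetCard, smul_eq_mul] at h2
      have e1 : ∑ f ∈ 𝓕, (G₀ f).card.choose k * ((2 * b + 6) * (b + 1) * (k + 1)) =
          𝓕.card * (N.choose k * ((2 * b + 6) * (b + 1) * (k + 1))) := by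
        exact sum_const_nat fun f hf => by rw [hN f hf]
      rw [e1] at h2
      have h3 := h4 k hk
      have h6 := (Nat.cast_le (α := ℝ)).2 h2
      rw [Nat.cast_add] at h6
      refine h6.trans ?_
      rw [hB']
      push_cast at h3 ⊢
      nlinarith) h5
  have h7 : ∑ f ∈ 𝓕, ((G₀ f ×ˢ G₀ f).filter fun a =>
      (π f).UW (Gp f (G₀ f)) (e a.1) (e a.2)).card ≤
        ∑ f ∈ 𝓕, (links (M f).Pt (M f).t).card + 𝓕.card * N := by
    rw [← sum_const_nat (f := fun _ => N) fun _ _ => rfl, ← sum_add_distrib]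
    exact sum_le_sum fun f hf => (hM f hf).2.trans
      (hN f hf ▸ card_links (M f).gen.inj (M f).mem)
  have h8 := (Nat.cast_le (α := ℝ)).2 h7
  rw [Nat.cast_add, Nat.cast_mul] at h8
  have h9 : (𝓕.card : ℝ) * N ≤ B' * (N + 1) * (Nat.log 2 (Nat.log 2 N) + 1) := by
    have a1 : (𝓕.card : ℝ) ≤ B' := le_trans (le_mul_of_one_le_right (by positivity)
      (by linarith [(Nat.cast_nonneg b : (0 : ℝ) ≤ b)])) h5
    have a2 : (0 : ℝ) ≤ B' := le_trans (by positivity) a1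
    calc _ ≤ B' * (N + 1) := mul_le_mul a1 (by linarith) (by positivity) a2
      _ ≤ _ := le_mul_of_one_le_right (by positivity)
        (by linarith [(Nat.cast_nonneg (Nat.log 2 (Nat.log 2 N)) : (0 : ℝ) ≤ _)])
  linarith

end SC
end
end
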