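import Mathlib

/-!
# Arrangements of flat convex polyhedral patches: definitions used in the statement

Patch `i` lies in the hyperplane `g i none = 0` and is cut out by the boundary conditions
`g i (some l) ≥ 0`.
-/

namespace SC

variable {E ι μ : Type} [AddCommGroup E] [Module ℝ E]

/-- The patch number `i`. -/
def patch (g : ι → Option μ → E →ᵃ[ℝ] ℝ) (i : ι) : Set E :=
  {x | g i none x = 0 ∧ ∀ l, 0 ≤ g i (some l) x}

/-- General position: the flats spanned by the faces of the patches meet transversally. -/
def GenPos (g : ι → Option μ → E →ᵃ[ℝ] ℝ) : Prop :=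
  ∀ A : Finset (ι × Option μ), (∀ j ∈ A, (j.1, none) ∈ A) → (∃ x, ∀ j ∈ A, g j.1 j.2 x = 0) →
    LinearIndependent ℝ fun j : A => (g j.1.1 j.1.2).linear

/-- `x` and `y` lie on the same patches, and on the same boundary pieces of these patches. -/
def Same (g : ι → Option μ → E →ᵃ[ℝ] ℝ) (x y : E) : Prop :=
  ∀ i, (x ∈ patch g i ↔ y ∈ patch g i) ∧
    (x ∈ patch g i → ∀ l, (g i (some l) x = 0 ↔ g i (some l) y = 0))

variable [TopologicalSpace E]

/-- The face of the arrangement that contains `x`. -/
def face (g : ι → Option μ → E →ᵃ[ℝ] ℝ) (x : E) : Set E :=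
  connectedComponentIn {y | Same g x y} x

/-- The cell of the arrangement that contains `p`. -/
def cell (g : ι → Option μ → E →ᵃ[ℝ] ℝ) (p : E) : Set E :=
  connectedComponentIn (⋃ i, patch g i)ᶜ p

end SC
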